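import Pool.Agent.H77.VJ.Nu8

/-!
# The event of a virtual static place at a record

`ev_far`: the near data `VbE`, the far data `FaE` and their numbers on one part of each event, for an
abstract hereditary family of labels closed at a window, at a record whose lists contain the far balls.
-/

set_option autoImplicit false

namespace Pool.VJ77

open Finset Real MvPolynomial
open Pool.Agent.H49.Ent Pool.Agent.H32.Dense Pool.STK Pool.KA Pool.KSAT Pool.K2S Pool.PB Pool.S6C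
open Pool.GEN Pool.RCD Pool.LA91 Pool.PKG Pool.CHT Pool.CHX Pool.NVX
open Pool.GRD (LbP)
open Pool.ALT (Fml BlB)
open Pool.STB77 (NodF Inc)
open Pool.STB (N1L InpL LsN GrN nAA nWW nι nσ ball_at ball_zero pair_at ball_mono box_in lv_lin
  lv_mono lv_sta nod_box nι_le nAA_ball Po VbT VbE VbN FrN vbt nWW_ball)
open Pool.STB65 (NsR NsQ MxS)
open Pool.STA37 (FaE FaT fat SuG FaE.sub)

/-- **The event at a record, with the far data.** -/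
theorem ev_far (D b : ℕ) (hD : 1 ≤ D) (hb : 3 ≤ b) : ∃ C₀ D' K₂ : ℕ, 1 ≤ C₀ ∧ D ≤ D' ∧ D' ≤ K₂ ∧
    ∀ (Kd : ℕ) (_ : K₂ ≤ Kd) {n Cg ne : ℕ} {Ac τ kr : ℝ} (_ : 0 < n) (_ : 1 ≤ Ac) (_ : 0 < τ)
      (_ : 0 < kr), ∃ u₀ : ℝ, 0 < u₀ ∧ u₀ ≤ kr ∧ ∀ v : ℝ, 0 < v → v ≤ u₀ →
    ∃ s₁ : ℝ, 0 < s₁ ∧ s₁ ≤ v ∧ ∀ ρ : ℝ, 0 < ρ → ρ ≤ s₁ → ∃ s₂ : ℝ, 0 < s₂ ∧ s₂ ≤ ρ ∧
    ∀ {S : PCl 4} {al : ℝ}
    {g₀ : ℝ → ℝ} {P₀ : List (Fin 4) × Fin 4 → ℝ → ℝ → ℝ} {θ : ℝ}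
    {P₂ : ℕ → List (Fin 4) × Fin 4 → ℝ → ℝ → ℝ} {θ₂ Eb e₂ : ℕ → ℝ}
    {c : ℕ → Fin 4} {Pt : ℝ → ℝ → ℝ} {r : ℝ → ℝ} {h Kn g : ℝ} {L T : ℕ → ℝ → ℝ → ℝ}
    {Sl : ℕ → ℝ} {κ : ℕ → Kg} {G : Set ℝ} {S₀ N₀ : ℕ} {A V : ℕ → ℝ} {S₂ N' : ℕ} {V' : ℕ → ℝ}
    {K ε q t : ℝ}
    (_ : RecG S al g₀ P₀ θ P₂ θ₂ Eb e₂ c Pt r h Kn g L T Sl κ G S₀ N₀ A V S₂ N' V' K ε q t)
    (_ : Sl 1 = 1) (_ : Sl 3 = b) (_ : κ 3 = .sta) (_ : 0 ≤ ε)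
    {oW y : ℝ} {Ng P pc N M' Nx : ℕ} {Ax Vx : ℕ → ℝ}
    (_ : LsN oW y ρ Ng P Nx Ax Vx N₀ A V N' V' K) (_ : GrN y ρ Ng P pc N M')
    (_ : ∀ k < Ng + P + 2 + Nx, NodF S c 3 D L (Eb 3) (Eb 3) (nAA t q oW y ρ Ng P Ax k)
      (nWW t q oW ρ Ng P Vx k))
    {Db : ℕ} {oV : ℝ} {Ψ : Fml 4} {pN : ℝ} {p p₂ z : ℕ → ℝ} (_ : Db ≤ D) (_ : oV ≤ oW)
    (_ : ∀ (J : ℕ) (F : Fam 4 J) (A B : F.Ω → Prop) (V : Type) (z : PtT F → V)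
      (z' : LnT F → V) (G : V → MvPolynomial (Option (Fin 4)) ℝ), Sub B A →
      Ψ J F A V z z' G → Ψ J F B V z z' G)
    (_ : ∀ (J : ℕ) (F : Fam 4 J) (A : F.Ω → Prop) (V : Type) (z : PtT F → V) (z' : LnT F → V)
      (G : V → MvPolynomial (Option (Fin 4)) ℝ), Ψ J F A V z z' G →
      LbP F ((range 3).image c) (c 3) D J ⌊(t + oV * q) * J⌋₊ ⌊pN * J⌋₊ A z z' G)
    (_ : ∀ k ≤ N + (P - pc), BlB S c 2 (c 3) (t + oV * q) (nAA t q oW y ρ Ng P Ax (nι N M' k))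
      Db Db (p k) (p₂ k) (z k) Ψ)
    (_ : ∀ k ≤ N + (P - pc), ∃ χ : ℝ, 0 < χ ∧ Bas S (fun J F A => ∃ (P₁ : ℕ) (V₁ : Type)
      (z₁ : PtT F → V₁) (z₁' : LnT F → V₁) (G₁ : V₁ → MvPolynomial (Option (Fin 4)) ℝ),
      LbP F ((range 3).image c) (c 3) Db J ⌊nAA t q oW y ρ Ng P Ax (nι N M' k) * J⌋₊ P₁ A z₁ z₁'
        G₁ ∧ (p k + χ) * J ≤ P₁))
    (_ : ∀ k ≤ N + (P - pc), ∃ χ : ℝ, 0 < χ ∧ Bas S (fun J F A => ∃ (P₁ : ℕ) (V₁ : Type)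
      (z₁ : PtT F → V₁) (z₁' : LnT F → V₁) (G₁ : V₁ → MvPolynomial (Option (Fin 4)) ℝ),
      LbP F ((range 2).image c) (c 2) Db J ⌊nAA t q oW y ρ Ng P Ax (nι N M' k) * J⌋₊ P₁ A z₁ z₁'
        G₁ ∧ (p₂ k + χ) * J ≤ P₁))
    {xq xx s₀ s : ℝ} (_ : 0 ≤ xq) (_ : 0 ≤ xx) (_ : xx ≤ xq * q)
    (_ : L 3 (t + oW * q) (t + oW * q) ≤ pN + xx)
    (_ : ∀ k ≤ N, L 3 (t + oW * q) (t + oW * q) +
      b * (nAA t q oW y ρ Ng P Ax (nι N M' k) - (t + oW * q)) ≤ p k + s₀)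
    (_ : ∀ k ≤ N, z k + (L 3 (t + oW * q) (t + oW * q) +
      b * (nAA t q oW y ρ Ng P Ax (nι N M' k) - (t + oW * q))) ≤
      L 2 (nAA t q oW y ρ Ng P Ax (nι N M' k)) (nAA t q oW y ρ Ng P Ax (nι N M' k)) + s₀)
    (_ : 4 * (ε * q) ≤ s₀) (_ : 0 < s) (_ : s₀ + 3 * s ≤ s₂ * q) {Dr : ℕ} (_ : D' ≤ Dr)
    {Lm : ℝ} (_ : 0 ≤ Lm) (_ : Lm ≤ t - K * q)
    (_ : NsQ C₀ N (N + (P - pc)) (L 3 (nAA t q oW y ρ Ng P Ax (nι N M' 0))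
          (nWW t q oW ρ Ng P Vx (nι N M' 0)) +
        b * (nAA t q oW y ρ Ng P Ax (nι N M' N) - nAA t q oW y ρ Ng P Ax (nι N M' 0)) - Lm)
      L (nAA t q oW y ρ Ng P Ax) (nWW t q oW ρ Ng P Vx) (nι N M') (nσ Ng pc N) p z s₀ s ∨
      MxS S c D Dr (Ng + P + 2 + Nx) L (Eb 3) (Eb 3) s s₀ (t + oV * q)
        (nAA t q oW y ρ Ng P Ax) (nWW t q oW ρ Ng P Vx) (nσ Ng pc N N)
        (L 3 (nAA t q oW y ρ Ng P Ax (nι N M' 0)) (nWW t q oW ρ Ng P Vx (nι N M' 0)) +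
          b * (nAA t q oW y ρ Ng P Ax (nι N M' N) - nAA t q oW y ρ Ng P Ax (nι N M' 0)) - Lm) Ψ)
    {N₁ R₁ Nf : ℕ} {kf : ℝ} (_ : oW = -kr) (_ : 1 ≤ R₁) (_ : kr = R₁ * ρ)
    (_ : Lm < ((N : ℝ) - N₁) * ρ * q) (_ : (ne + b * (n + 2) + n + 10) * kr + xq ≤ K)
    (_ : VLs n R₁ N₁ N Nf Nx kr ρ kf K Ax Vx)
    {bb e1 eF pr Nz : ℝ} {pf : ℕ → ℝ} {Nq : ℕ → ℕ → ℝ} {Pq : Fin 2 → ℝ} {sn : ℕ → ℝ → ℝ}
    {sw : ℕ → ℝ} (_ : VFd L b n Cg Nf t q kr ρ v kf bb e1 eF pf pr Nq Nz Pq sn sw)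
    {sf : ℕ → ℕ → ℝ} (_ : ∀ i < n, ∀ l < 2, sf i l ≤
      L l (t + (((i : ℝ) + 1) * kr + ρ) * q) (t + (((i : ℝ) + 1) * kr + ρ) * q))
    (_ : Bas S (fun J F A => ∃ (V : Type) (z : PtT F → V) (z' : LnT F → V)
      (G : V → MvPolynomial (Option (Fin 4)) ℝ), Ψ J F A V z z' G)),
    ∃ wi : ℕ → ℚ, (∀ i ≤ n, 0 < wi i ∧ wi i ≤ 1 ∧ e₂ 3 < θ₂ 3 * wi i ∧
        ∀ j ≤ 3, bet (P₂ 3) c j (wi i) (wi i) + (s₀ + 3 * s) / 7 ≤ 1) ∧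
      (∀ i < n, t + (((i : ℝ) + 1) * kr + ρ) * q ≤ 1) ∧
      ∃ c₀ : ℝ, 0 < c₀ ∧ Bas S (fun J F A' => ∃ (V : Type) (z : PtT F → V) (z' : LnT F → V)
        (G : V → MvPolynomial (Option (Fin 4)) ℝ), Ψ J F A' V z z' G ∧
        ∃ B : F.Ω → Prop, Sub B A' ∧ c₀ * Pe F.p A' ≤ Pe F.p B ∧
        ∃ (t' : VbT F) (f : FaT F) (ρ' : ℝ), VbE F c B Kd n N₁ b ⌊(t + oV * q) * J⌋₊ z z' G t' ∧
          ⌊(t + oV * q) * J⌋₊ ≤ t'.W₀ ∧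
          FaE F c B Kd t'.y t'.e₁' t'.W₀ t'.g1 t'.Pl f ∧
          SuV (P₂ 3) c 3 n b Cg ne Ac τ (kr * q) (v * q) ((s₀ + 3 * s) / 7) (e₂ 3) (e₂ 3) wi
            (fun i => wi (i + 1)) (fun i => t + (((i : ℝ) + 1) * kr + ρ) * q) sf t' ∧
          SuG n b Cg t (t + kf * q) bb e1 eF pf pr Nq Nz Pq sn sw t' f ρ') := by
  classical
  obtain ⟨C₀, C, D', K₀, hC₀, hDD', hn1⟩ := Pool.STV90.n1_recN D b hD
  obtain ⟨E, hcut⟩ := Pool.STB77.cut_s 4 (D' + K₀ + b + 1) b (by omega) (by omega) (by omega)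
  obtain ⟨C₂, Cf, D₂, hDD₂, hCf, hfar⟩ := Pool.STV90.far_cls D D'
  obtain ⟨C₁, K₂, hDK₂, hev⟩ := Pool.STV90.vb_eventX (m := 4) D' K₀ b hcut
  refine ⟨C₀, D', max K₂ D₂, hC₀, hDD', hDK₂.trans (le_max_left _ _), ?_⟩
  intro Kd hKd n Cg ne Ac τ kr hn hAc hτ hkr
  have hKd2 : K₂ ≤ Kd := (le_max_left _ _).trans hKd
  have hKdD : D₂ ≤ Kd := (le_max_right _ _).trans hKd
  obtain ⟨u₀, hu0, hu1, hu⟩ := vnu_ex (b := b) (n := n) ne Cg (C₀ := C₀) C C₁ C₂ (Cf := Cf) E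
    (A := Ac) hb hn hC₀ hCf (by linarith) hτ hkr
  refine ⟨u₀, hu0, hu1, fun v hv hvu => ?_⟩
  obtain ⟨s₁, hs1, hs1v, hs⟩ := hu v hv hvu
  refine ⟨s₁, hs1, hs1v, fun ρ hρ hρs => ?_⟩
  obtain ⟨s₂, hs2, hs2ρ, hs2C, hNU⟩ := hs ρ hρ hρs
  refine ⟨s₂, hs2, hs2ρ, ?_⟩
  intro S al g₀ P₀ θ P₂ θ₂ Eb e₂ c Pt r h Kn g L T Sl κ G S₀ N₀ A V S₂ N' V' K ε q t R S1 S3 hκ hε
    oW y Ng P pc N M' Nx Ax Vx H gr hnd Db oV Ψ pN p p₂ zz hDb hio hΨs hΨ hbl hl3 hl2 xq xx s₀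
    s hxq hxx hxxq hx hlq hlb hs₀ hsp hs₂ Dr hDr Lm hLm0 hLm hmx N₁ R₁ Nf kf hoW hR₁ hkR hLN hKn HL
    bb e1 eF pr Nz pf Nq Pq sn sw HF sf hsf hex
  subst hoW
  have hq := R.q0
  have hεq : 0 ≤ ε * q := by positivity
  have hs₀0 : 0 ≤ s₀ := by linarith
  have hn0 : (0 : ℝ) ≤ n := Nat.cast_nonneg n
  have hn1' : (1 : ℝ) ≤ n := by exact_mod_cast hn
  have hb0 : (3 : ℝ) ≤ b := by exact_mod_cast hb
  have hne0 : (0 : ℝ) ≤ ne := Nat.cast_nonneg ne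
  -- the constant `μ`
  obtain ⟨μ, hμe⟩ : ∃ μ : ℝ, μ = (s₀ + 3 * s) / (7 * q) := ⟨_, rfl⟩
  have hμ0 : 0 < μ := by
    rw [hμe]
    positivity
  have hμq : μ * q = (s₀ + 3 * s) / 7 := by
    rw [hμe]
    field_simp
  have hμ : s₀ + 3 * s = 7 * (μ * q) := by
    rw [hμq]
    ring
  have hμs : 7 * μ ≤ s₂ := by
    refine le_of_mul_le_mul_right ?_ hq
    linarith
  have NU : VNu b n R₁ ne Cg C₀ C C₁ C₂ Cf E Ac τ kr v ρ μ K xq :=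
    hNU μ R₁ K xq hμ0 hμs hR₁ hkR hxq (by linarith)
  rw [← hμq]
  have hρk : ρ ≤ kr := by
    have h2 : (1 : ℝ) ≤ R₁ := by exact_mod_cast hR₁
    have h3 : 1 * ρ ≤ R₁ * ρ := mul_le_mul_of_nonneg_right h2 hρ.le
    linarith
  have hμρ : μ ≤ ρ := by linarith
  have hbn : 0 ≤ (b : ℝ) * (n * kr) := by positivity
  have hb3 : 3 * kr ≤ b * kr := mul_le_mul_of_nonneg_right hb0 hkr.le
  have hnk : 0 ≤ (n : ℝ) * kr := by positivity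
  have hnek : 0 ≤ (ne : ℝ) * kr := by positivity
  have hkK : 14 * kr + n * kr ≤ K := by linarith
  have hKq : kr * q ≤ K * q := mul_le_mul_of_nonneg_right (by linarith) hq.le
  have hNN₁ : N₁ < N := by
    by_contra hc
    have h1 : (N : ℝ) ≤ N₁ := by exact_mod_cast not_lt.1 hc
    have h2 : ((N : ℝ) - N₁) * ρ * q ≤ 0 := by
      have h3 : ((N : ℝ) - N₁) * (ρ * q) ≤ 0 :=
        mul_nonpos_of_nonpos_of_nonneg (by linarith) (by positivity)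
      linarith
    linarith
  have hNNg := gr.NNg
  have hNN : N ≤ N + (P - pc) := Nat.le_add_right _ _
  have hCs : C₀ * (s₀ + 4 * s) ≤ 3 * K * q := by
    have h1 : s₀ + 4 * s ≤ 2 * (s₂ * q) := by linarith
    have h2 : (C₀ : ℝ) * (s₀ + 4 * s) ≤ C₀ * (2 * (s₂ * q)) :=
      mul_le_mul_of_nonneg_left h1 (Nat.cast_nonneg _)
    have h3 := mul_le_mul_of_nonneg_right hs2C hq.le
    have h4 : ρ * q ≤ kr * q := mul_le_mul_of_nonneg_right hρk hq.le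
    have h5 : 0 ≤ K * q := by linarith [mul_pos hkr hq]
    linarith
  -- the windows
  obtain ⟨wi, hwi, hwi'⟩ := v_wi (n := n) (μ := μ) R (by norm_num) hkr hρ hμ0
    (by linarith) (by linarith) (fun i hi => by
      have h1 : R₁ * (i + 1) + 1 ≤ Ng := by
        have h2 := Nat.mul_le_mul_left R₁ (show i + 1 ≤ n + 1 by omega)
        have h3 := HL.NR
        omega
      obtain ⟨k, hk, hVk⟩ := H.grid _ h1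
      refine ⟨k, hk, ?_⟩
      rw [hVk, hkR]
      push_cast
      ring)
  have hWd : VWd L (P₂ 3) c n t q kr ρ μ wi sf :=
    ⟨fun i hi => (hwi i hi).1, fun i hi => (hwi i hi).2, hsf⟩
  have hfi : ∀ i < n, t + (((i : ℝ) + 1) * kr + ρ) * q ≤ 1 := fun i hi => by
    have h1 : ((i : ℝ) + 1) * kr ≤ n * kr :=
      mul_le_mul_of_nonneg_right (by exact_mod_cast hi) hkr.le
    have h2 : (((i : ℝ) + 1) * kr + ρ) * q ≤ K * q :=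
      mul_le_mul_of_nonneg_right (by linarith) hq.le
    have := R.t1
    linarith
  refine ⟨wi, hwi', hfi, ?_⟩
  -- the labels
  obtain ⟨K₁, d, ψ, hK₁, hψ, hd, hbas⟩ := hn1 R S1 S3 hκ hε H gr hnd hDb hio hΨ hbl hl3 hl2 hxx hx
    hlq hlb hs₀ (v := 2 * ρ * q) (by linarith [mul_pos hρ hq]) hDr hsp hCs hLm0 hLm hmx
  have hd' : ∀ k < Ng + P + 2 + Nx, ∀ l ≤ 3, 0 < d k l ∧ d k l ≤ s := fun k hk l hl =>
    ⟨(hd k hk l hl).1, (hd k hk l hl).2.1⟩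
  -- the dimension
  obtain ⟨J₁, hJ₁⟩ := exists_nat_ge
    ((10 + 2 * (ne : ℝ) + Cg + ((n : ℝ) + 2) * (b + 1) + Nf) / (μ * q))
  have hμq0 : 0 < μ * q := mul_pos hμ0 hq
  have hJJ : ∀ J ≥ J₁, 10 + 2 * (ne : ℝ) + Cg ≤ μ * q * (J : ℕ) ∧
      ((n : ℝ) + 2) * (b + 1) ≤ μ * q * (J : ℕ) ∧ (Nf : ℝ) ≤ μ * q * (J : ℕ) := by
    intro J hJ
    have h1 : (10 + 2 * (ne : ℝ) + Cg + ((n : ℝ) + 2) * (b + 1) + Nf) / (μ * q) ≤ J :=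
      hJ₁.trans (by exact_mod_cast hJ)
    rw [div_le_iff₀ hμq0] at h1
    have h3 : (0 : ℝ) ≤ Cg := Nat.cast_nonneg _
    have h4 : (0 : ℝ) ≤ ((n : ℝ) + 2) * (b + 1) := by positivity
    have h5 : (0 : ℝ) ≤ Nf := Nat.cast_nonneg _
    refine ⟨by linarith, by linarith, by linarith⟩
  have hfr : ∀ J ≥ J₁, ∀ g₃ : ℕ, _ := fun J hJ g₃ =>
    v_frm R (by norm_num) S1 hε H gr HL NU hμ hs₀ hsp hxxq hd' (hJJ J hJ).1 (hJJ J hJ).2.1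
      (hJJ J hJ).2.2 g₃
  have hKq0 : 0 < K * q := lt_of_lt_of_le (mul_pos hkr hq) hKq
  have ht1 : t < 1 := by
    have := R.t1
    linarith
  have ht0 : 0 < t := by
    have := R.t0
    linarith
  have hnA : ∀ k ≤ N, nAA t q (-kr) y ρ Ng P Ax (nι N M' k) = t + -kr * q + k * ρ * q := by
    intro k hk
    rw [nι_le hk, nAA_ball (hk.trans hNNg)]
    ring
  obtain ⟨J₂, hJ₂⟩ := Pool.STB6.fl_loss (x := t + -kr * q + N₁ * ρ * q)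
    (y := t + -kr * q + N * ρ * q) (z := Lm) (by
      have h1 : 0 ≤ (N₁ : ℝ) * ρ * q := by positivity
      have h2 := R.t0
      linarith) hLm0 (by linarith)
  -- the far data
  have hfc := hfar (K := Kd) (K₀ := K₀) (N := N) (b := b) (M := Ng + P + 2 + Nx) (Dr := Dr) hKdD
    R.tmh (R.inj.mono fun x hx => hx) (Ψ := Ψ) (w := t) (ε := μ * q) (K₁ := K₁) hμq0 ht1 hK₁
    (R := fun j k => nAA t q (-kr) y ρ Ng P Ax j ≤ nAA t q (-kr) y ρ Ng P Ax k ∧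
      nWW t q (-kr) ρ Ng P Vx j ≤ nWW t q (-kr) ρ Ng P Vx k)
    (ι := nι N M') (ιf := vι Ng P Nf) (Nf := Nf) (s₀ := fun J => ⌊s * J⌋₊)
    (s₁ := fun J => 8 * wU s₀ s J) (eJ := fun J => ⌊Eb 3 * J⌋₊)
    (EJ := fun J => ⌊(Eb 3 + s) * J⌋₊) (hJ := fun J => ⌊s * J⌋₊)
    (κJ := fun J => Real.exp (-(ψ * J))) (a := wA t q kr y ρ Ng P Ax)
    (w' := wW t q kr ρ Ng P Vx) (g := wG L d t q kr y ρ Ng P Ax Vx)
    (g' := fun J k => wG L d t q kr y ρ Ng P Ax Vx J (nι N M' k))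
    (W := fun J => ⌊(t + -kr * q) * J⌋₊)
    (k := fun J => ⌊t * J⌋₊ - ⌊(t + -kr * q) * J⌋₊) (y := fun J => ⌊v * q * J⌋₊)
    (e₁' := fun J => (C₀ + 9 * Cf) * wU s₀ s J + ⌊Eb 3 * J⌋₊) (s := fun J => C₀ * wU s₀ s J)
    (v := wV ρ q) (y₀ := fun J => C * (⌊(s₀ + 3 * s) * J⌋₊ + ⌊2 * ρ * q * J⌋₊ + 1))
    (X := fun J => C * (⌊(s₀ + 3 * s) * J⌋₊ + ⌊2 * ρ * q * J⌋₊ + 1) + ⌊(Eb 3 + s) * J⌋₊ +
      ⌊xx * J⌋₊)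
    (g₃ := fun J => ⌊(L 3 (t + -kr * q) (t + -kr * q) - d 0 3) * J⌋₊)
    (Lx := fun J => ⌊Lm * J⌋₊ + 1) (kf := fun J => ⌊(t + kf * q) * J⌋₊ - ⌊t * J⌋₊)
    (vf := wV ρ q) (A := fun J k => wA t q kr y ρ Ng P Ax J (nι N M' k))
    (ee := fun J _ => ⌊(Eb 3 + s) * J⌋₊) hbas (by
      show vι Ng P Nf Nf = nι N M' 0
      rw [nι_le (Nat.zero_le _)]
      exact if_neg (lt_irrefl _))
    (fun k hk => by
      have := HL.fx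
      unfold vι
      split_ifs <;> omega)
    (fun k hk => by
      obtain ⟨f1, f2⟩ := HL.far (t := t) (q := q) (y := y) (Ng := Ng) (P := P) hk.le
      obtain ⟨f3, f4⟩ := HL.far (t := t) (q := q) (y := y) (Ng := Ng) (P := P) (k := k + 1) hk
      show nAA t q (-kr) y ρ Ng P Ax (vι Ng P Nf k) ≤
          nAA t q (-kr) y ρ Ng P Ax (vι Ng P Nf (k + 1)) ∧
        nWW t q (-kr) ρ Ng P Vx (vι Ng P Nf k) ≤ nWW t q (-kr) ρ Ng P Vx (vι Ng P Nf (k + 1))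
      rw [f1, f2, f3, f4]
      have h1 : -(kr + Nf * ρ) + (k : ℝ) * ρ ≤ -(kr + Nf * ρ) + ((k + 1 : ℕ) : ℝ) * ρ := by
        push_cast
        linarith
      have h2 := mul_le_mul_of_nonneg_right h1 hq.le
      exact ⟨by linarith, by linarith⟩) (J₀ := J₁)
    (fun J hJ => ⟨(hfr J hJ 0).1, (hfr J hJ 0).2.1⟩) (fun J hJ => (hfr J hJ 0).2.2.2.1)
  -- the events
  have hfin := hev (K := Kd) (n := n) (N := N) (N₁ := N₁) hKd2 HL.N1 R.tmh R.ne (c := c) (Ψ := Ψ)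
    (wn := t + oV * q) (w := t) (ε := μ * q) (K₁ := 8 * K₁) hμq0 ht1 (by positivity) hΨs
    (fun J F A V z z' G hG => by
      have h1 := hΨ J F A V z z' G hG
      refine ⟨fun v => (h1.deg v).trans (hDD'.trans (hDK₂.trans hKd2)),
        fun v b b' hb hbb => ?_, h1.cls⟩
      refine h1.dep v b b' hb fun i hi => ?_
      obtain ⟨l, hl, rfl⟩ := Finset.mem_image.1 hi
      exact hbb l (Finset.mem_range.1 hl))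
    hex (W := fun J => ⌊(t + -kr * q) * J⌋₊)
    (k := fun J => ⌊t * J⌋₊ - ⌊(t + -kr * q) * J⌋₊) (y := fun J => ⌊v * q * J⌋₊)
    (x := fun J => ⌊v * q * J⌋₊)
    (g₃ := fun J => ⌊(L 3 (t + -kr * q) (t + -kr * q) - d 0 3) * J⌋₊)
    (e₁' := fun J => (C₀ + 9 * Cf) * wU s₀ s J + ⌊Eb 3 * J⌋₊) (e₁ := fun J => ⌊e₂ 3 * J⌋₊ - 1)
    (e₂ := fun J => (C₀ + 9 * Cf) * wU s₀ s J + ⌊Eb 3 * J⌋₊ + ⌊v * q * J⌋₊ +
      2 * ⌊v * q * J⌋₊ + 6)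
    (st := fun J => C₁ * (C₀ * wU s₀ s J + wV ρ q J + 1))
    (lz := fun J => (C * (⌊(s₀ + 3 * s) * J⌋₊ + ⌊2 * ρ * q * J⌋₊ + 1) + ⌊(Eb 3 + s) * J⌋₊ +
      ⌊xx * J⌋₊) + nlp (fun j => if j < 3 then wG L d t q kr y ρ Ng P Ax Vx J (nι N M' 0) j else
        ⌊(L 3 (t + -kr * q) (t + -kr * q) - d 0 3) * J⌋₊) 0 3)
    (s := fun J => C₀ * wU s₀ s J) (v := wV ρ q)
    (y₀ := fun J => C * (⌊(s₀ + 3 * s) * J⌋₊ + ⌊2 * ρ * q * J⌋₊ + 1))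
    (e := fun J => ⌊Eb 3 * J⌋₊)
    (X := fun J => C * (⌊(s₀ + 3 * s) * J⌋₊ + ⌊2 * ρ * q * J⌋₊ + 1) + ⌊(Eb 3 + s) * J⌋₊ +
      ⌊xx * J⌋₊) (Lx := fun J => ⌊Lm * J⌋₊ + 1)
    (A := fun J k => wA t q kr y ρ Ng P Ax J (nι N M' k))
    (ee := fun J _ => ⌊(Eb 3 + s) * J⌋₊)
    (g := fun J k => wG L d t q kr y ρ Ng P Ax Vx J (nι N M' k))
    (jb := fun _ i => R₁ * (i + 1) - 1) (ji := fun _ i => R₁ * (i + 2) - 1)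
    (X' := fun J F B pH => ∃ (pPf : PtT F → ℕ → MvPolynomial (Option (Fin 4)) ℝ)
      (pHf : LnT F → ℕ → MvPolynomial (Option (Fin 4)) ℝ) (xPf : PtT F → ℝ) (xHf : LnT F → ℝ),
      FaE F c B Kd ⌊v * q * J⌋₊ ((C₀ + 9 * Cf) * wU s₀ s J + ⌊Eb 3 * J⌋₊)
        ⌊(t + -kr * q) * J⌋₊ (wG L d t q kr y ρ Ng P Ax Vx J (nι N M' 0) 1) (fun S => pH S 1)
        (fat F c ⌊(t + -kr * q) * J⌋₊ (⌊t * J⌋₊ - ⌊(t + -kr * q) * J⌋₊)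
          (wA t q kr y ρ Ng P Ax J (vι Ng P Nf 0)) (⌊(t + kf * q) * J⌋₊ - ⌊t * J⌋₊)
          (fun k => wG L d t q kr y ρ Ng P Ax Vx J (vι Ng P Nf k)) pPf pHf xPf xHf))
    (fun J F A B pH hBA hX => by
      obtain ⟨pPf, pHf, xPf, xHf, hE⟩ := hX
      exact ⟨pPf, pHf, xPf, xHf, hE.sub hBA⟩)
    (Bas.mono 0 hfc fun J _ F A' hA V z z' G hG => by
      obtain ⟨B, Gn, Hn, pP, pH, xP, xH, zP, zH, f, f', kp, gS, h1, h2, h3, h4⟩ := hA V z z' G hG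
      exact ⟨B, Gn, Hn, pP, pH, xP, xH, zP, zH, f, f', kp, gS, h1, h2, h3, h4⟩)
    (J₀ := max J₁ J₂) (fun J hJ => (hfr J ((le_max_left _ _).trans hJ) _).2.2.1)
    (fun J hJ => by
      show ⌊nAA t q (-kr) y ρ Ng P Ax (nι N M' N₁) * (J : ℝ)⌋₊ + (⌊Lm * (J : ℝ)⌋₊ + 1) ≤
        ⌊nAA t q (-kr) y ρ Ng P Ax (nι N M' N) * (J : ℝ)⌋₊
      rw [hnA N₁ HL.N1, hnA N le_rfl]
      exact hJ₂ J ((le_max_right _ _).trans hJ))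
    (fun J hJ => (hfr J ((le_max_left _ _).trans hJ) 0).2.2.2.2)
  refine ⟨1 / (8 * (8 * K₁)), by positivity, ?_⟩
  refine Bas.mono (max J₁ J₂) hfin ?_
  rintro J hJ F A' ⟨V₁, z₁, z₁', G₁, hG, B, hB, hPB, t', hE, Gn, Hn, pP, pH, zP, zH, f, f', kp,
    ht', pPf, pHf, xPf, xHf, hFE⟩
  have hJ1 := hJJ J ((le_max_left _ _).trans hJ)
  refine ⟨V₁, z₁, z₁', G₁, hG, B, hB, hPB, t',
    fat F c ⌊(t + -kr * q) * J⌋₊ (⌊t * J⌋₊ - ⌊(t + -kr * q) * J⌋₊)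
      (wA t q kr y ρ Ng P Ax J (vι Ng P Nf 0)) (⌊(t + kf * q) * J⌋₊ - ⌊t * J⌋₊)
      (fun k => wG L d t q kr y ρ Ng P Ax Vx J (vι Ng P Nf k)) pPf pHf xPf xHf, 2 ^ wG L d t q kr y ρ Ng P Ax Vx J (nι N M' 0) 1 *
        2 ^ wA t q kr y ρ Ng P Ax J (vι Ng P Nf 0) /
        (2 ^ ⌊(t + -kr * q) * J⌋₊ * 2 ^ wG L d t q kr y ρ Ng P Ax Vx J (vι Ng P Nf 0) 1), hE, ?_,
        ?_, ?_, ?_⟩
  · rw [ht']
    show ⌊(t + oV * q) * (J : ℝ)⌋₊ ≤ ⌊(t + -kr * q) * (J : ℝ)⌋₊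
    exact Nat.floor_mono (mul_le_mul_of_nonneg_right (by
      have := mul_le_mul_of_nonneg_right hio hq.le
      linarith) (Nat.cast_nonneg J))
  · rw [ht']
    exact hFE
  · rw [ht']
    exact v_suv R (by norm_num) S1 S3 hε H gr HL NU hμ hs₀ hsp hxxq hd' hJ1.1 hJ1.2.1 hWd
  · rw [ht']
    exact v_sug R (by norm_num) S1 S3 hε H gr HL NU hμ hs₀ hsp hxxq hd' hJ1.1 hJ1.2.1 HF

end Pool.VJ77
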