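import Pool.Agent.H37.STA.Sue

/-!
# The event of a static place `c rr` over two coordinates

`Pool.STA37`'s event for any place `rr` (2 or 3) of the target: `SuE`, `vli`, `cgi_near`, `cgi_cl`,
`vel_all`.
-/

set_option autoImplicit false

namespace Pool.VJ77

open Finset Real MvPolynomial
open Pool.Agent.H49.Ent Pool.Agent.H32.Dense Pool.STK Pool.KA Pool.KSAT Pool.K2S Pool.PB
open Pool.GEN Pool.CHT Pool.RCD Pool.D2F
open Pool.STA37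
open Pool.STB (V3 Po Bx Hb cv cl_earlier PosR cnt_int cg cg_eval qn_eval yq_bt VbT)
open Pool.STB65 (InpP InpF PosO JetO nu nu_pos Rs Rs_pos grd_bx)
open Pool.STB82 (yv hgP)
open Pool.LA91 (jet ojet)
open Pool.PB.Trl (rt rt_mem t_rt)
open Pool.FLF (Fam.sub)

variable {m J : ℕ}

/-- **The event** in the near chart: the target is `c rr`. -/
structure SuE (F : Fam m J) (c : ℕ → Fin m) (rr : ℕ) (B : F.Ω → Prop) (K n N b : ℕ) (t : VbT F) : Prop where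
  iP : InpP F B t.W₀ t.k t.k n (K + 1) (2 ^ t.y) (yv F c t.W₀ t.g1 t.Pl) t.yt
    (hgP c t.W₀ t.g1 t.Pl)
  iF : InpF F B t.W₀ N (K + 1) b (2 ^ t.y) (yv F c t.W₀ t.g1 t.Pl) t.e t.f t.f' t.kf
  hji : ∀ i < n, t.ji i ≤ N ∧ t.e (t.ji i) ≤ t.k + i * t.k + t.k ∧
    (2 : ℝ) ^ (t.k + i * t.k + t.k) ≤ 2 ^ t.y * 2 ^ t.e (t.ji i)
  zd : ∀ ω, B ω → (t.zP (ptr F J ω)).totalDegree ≤ K
  zp : ∀ ω, B ω → DepC c rr (t.zP (ptr F J ω))
  zcl : ∀ ω, B ω → t.zP (ptr F J ω) = t.zH (slam F t.W₀ ω)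
  val : ∀ i < n, ∀ ω, B ω → |eval (yv F c t.W₀ t.g1 t.Pl ω) (t.f (t.ji i) (ptr F J ω)) -
    2 ^ t.g₃ * (F.x ω (c rr) - eval (bt F ω) (t.zP (ptr F J ω)))| ≤
      2 ^ t.y * (1 / 2 ^ t.e (t.ji i)) ^ b
  Pd : ∀ y, (t.Pv y).totalDegree ≤ K
  Pp : ∀ y, DepC c 1 (t.Pv y)
  Pc : ∀ ω, B ω → t.Pv (ptr F J ω) = t.Pl (slam F t.W₀ ω)
  Pg : ∀ ω, B ω → ∀ b : Option (Fin m) → ℝ, |b none - F.t ω| ≤ 1 / 2 ^ t.W₀ →
    |b (some (c 0)) - F.x ω (c 0)| ≤ 1 / 2 ^ t.W₀ →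
    |eval b (pderiv (some (c 0)) (t.Pv (ptr F J ω)))| ≤ 2 ^ t.e₁'
  ch : ∀ i < n, ChOK F c rr (fun _ => K) (t.W₀ + t.k + i * t.k) (t.W₀ + t.k + i * t.k) (t.e₁ + 1)
    (t.gc i) B (t.Gc i) (t.Hc i)
  hx0 : ∀ i < n, ∀ ω, B ω → ∀ b, NBx c (t.Gc i (ptr F J ω)) (t.gc i) (t.W₀ + t.k + i * t.k)
    (F.t ω) rr b → |b (some (c 0)) - F.x ω (c 0)| ≤ 2 ^ t.s / 2 ^ (t.W₀ + t.k + i * t.k)
  hx1 : ∀ i < n, ∀ ω, B ω → ∀ b, NBx c (t.Gc i (ptr F J ω)) (t.gc i) (t.W₀ + t.k + i * t.k)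
    (F.t ω) rr b → |(b (some (c 1)) - eval b (t.Pv (ptr F J ω))) -
      (F.x ω (c 1) - eval (bt F ω) (t.Pv (ptr F J ω)))| ≤ 2 ^ t.s / 2 ^ (t.g1 + (t.k + i * t.k))
  hlT : ∀ i < n, ∀ ω, B ω → ∀ b', NBx c (t.Gc i (ptr F J ω)) (t.gc i) (t.W₀ + t.k + i * t.k)
    (F.t ω) rr b' → ∀ l < rr, |eval b' (pderiv (some (c l)) (t.zP (ptr F J ω)))| ≤
      2 ^ (t.e₁ + nlp (fun j => if j < rr then t.gc i j else t.p b i) l rr) / 2

theorem SuE.sub {F : Fam m J} {c : ℕ → Fin m} {B B' : F.Ω → Prop} {rr K n N b : ℕ} {t : VbT F}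
    (h : SuE F c rr B K n N b t) (hB : Sub B' B) : SuE F c rr B' K n N b t where
  iP := h.iP.sub hB
  iF := h.iF.sub hB
  hji := h.hji
  zd := fun ω hω => h.zd ω (hB ω hω)
  zp := fun ω hω => h.zp ω (hB ω hω)
  zcl := fun ω hω => h.zcl ω (hB ω hω)
  val := fun i hi ω hω => h.val i hi ω (hB ω hω)
  Pd := h.Pd
  Pp := h.Pp
  Pc := fun ω hω => h.Pc ω (hB ω hω)
  Pg := fun ω hω => h.Pg ω (hB ω hω)
  ch := fun i hi => (h.ch i hi).sub hB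
  hx0 := fun i hi ω hω => h.hx0 i hi ω (hB ω hω)
  hx1 := fun i hi ω hω => h.hx1 i hi ω (hB ω hω)
  hlT := fun i hi ω hω => h.hlT i hi ω (hB ω hω)

/-- **The velocity of the target** over it. -/
noncomputable def vli {F : Fam m J} (c : ℕ → Fin m) (rr : ℕ) (t : VbT F) (E' b : ℕ) (ctr : ℕ → F.Ω → V3)
    (Ci : ℕ → F.Ω → Po) (i : ℕ) (ω : F.Ω) : ℤ :=
  ⌊2 ^ t.k / (mui t E' b i * 2 ^ (t.W₀ + t.k + i * t.k)) *
    ojet F (c rr) 1 (cgi c t E' b ctr Ci i ω) ω⌋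

section

variable {F : Fam m J} {c : ℕ → Fin m} {B : F.Ω → Prop} {rr K n N b E E' : ℕ} {t : VbT F} {Kp Kc : ℝ}
  {ctr xo : ℕ → F.Ω → V3} {D₁ : LnT F → V3} {Jo Ci : ℕ → F.Ω → Po} {Φ₁ : LnT F → Po}

/-- The value of the closed polynomial. -/
theorem cgi_near (hE : SuE F c rr B K n N b t) (hb : 1 ≤ b) (hKc : 0 ≤ Kc)
    (Jt : JetO F B t.W₀ t.k t.k n b ((2 ^ t.y) ^ 2) ((2 ^ t.y) ^ E') Kc ((2 ^ t.y) ^ E)
      (yv F c t.W₀ t.g1 t.Pl) t.f t.ji ctr xo Jo Ci Φ₁) {i : ℕ} (hi : i < n) (hWJ : t.W₀ ≤ J) {ω : F.Ω}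
    (hω : B ω) : |F.x ω (c rr) - eval (bt F ω) (cgi c t E' b ctr Ci i ω) -
      mui t E' b i * eval (xo i ω) (Jo i ω)| ≤
      mui t E' b i * ((Kc + 2 ^ (t.y * (b + 1))) / 2 ^ t.k) := by
  obtain ⟨ν, hν⟩ : ∃ ν, ν = nu ((2 ^ t.y) ^ E') (Rs t.k t.k ((2 ^ t.y) ^ 2) i) b := ⟨_, rfl⟩
  have hν0 : 0 < ν := hν ▸ nu_pos (by positivity) (Rs_pos (by positivity) i) b
  have hmu : mui t E' b i = ν / 2 ^ t.g₃ := by rw [hν]; rfl
  have hg : (0 : ℝ) < 2 ^ t.g₃ := by positivity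
  have hk : (0 : ℝ) < 2 ^ t.k := by positivity
  obtain ⟨Ev, hEv⟩ : ∃ Ev : ℝ, Ev = 2 ^ t.y * (1 / 2 ^ t.e (t.ji i)) ^ b := ⟨_, rfl⟩
  have hEv1 : Ev ≤ 2 ^ (t.y * (b + 1)) / 2 ^ (b * (t.k + i * t.k + t.k)) := by
    rw [hEv]
    exact Pool.STB.ev_num (hE.hji i hi).2.2
  have hEv2 : 2 ^ t.k * (Ev / ν) ≤ 2 ^ (t.y * (b + 1)) := Pool.STB.ev_num2 hb hEv1 hν
  have h1 := Jt.valx i hi ω hω
  have h2 := hE.val i hi ω hω
  rw [← hEv, hE.zcl ω hω] at h2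
  rw [← hν] at h1
  obtain ⟨q, hq⟩ : ∃ q : V3, q = Rs t.k t.k ((2 ^ t.y) ^ 2) i • (yv F c t.W₀ t.g1 t.Pl ω - ctr i ω) :=
    ⟨_, rfl⟩
  rw [← hq] at h1
  have e1 : eval (bt F ω) (cgi c t E' b ctr Ci i ω) = eval (bt F ω) (t.zH (slam F t.W₀ ω)) +
      ν / 2 ^ t.g₃ * eval q (Ci i ω) := by
    unfold cgi
    rw [cg_eval, hmu, hq]
    congr 2
    refine congrArg (fun v : V3 => eval v (Ci i ω)) ?_
    funext j
    rw [qn_eval, yq_bt F c hWJ]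
    rfl
  obtain ⟨Jv, hJv⟩ : ∃ Jv, Jv = eval (xo i ω) (Jo i ω) := ⟨_, rfl⟩
  obtain ⟨Cv, hCv⟩ : ∃ Cv, Cv = eval q (Ci i ω) := ⟨_, rfl⟩
  obtain ⟨fv, hfv⟩ : ∃ fv, fv = eval (yv F c t.W₀ t.g1 t.Pl ω) (t.f (t.ji i) (ptr F J ω)) := ⟨_, rfl⟩
  obtain ⟨X, hX⟩ : ∃ X, X = F.x ω (c rr) - eval (bt F ω) (t.zH (slam F t.W₀ ω)) := ⟨_, rfl⟩
  rw [← hJv, ← hCv, ← hfv] at h1
  rw [← hfv, ← hX] at h2
  rw [e1, hmu, ← hCv, ← hJv]
  have e2 : F.x ω (c rr) - (eval (bt F ω) (t.zH (slam F t.W₀ ω)) + ν / 2 ^ t.g₃ * Cv) -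
      ν / 2 ^ t.g₃ * Jv = -(ν / 2 ^ t.g₃ * (Jv + Cv - fv / ν)) - 1 / 2 ^ t.g₃ * (fv - 2 ^ t.g₃ * X) := by
    rw [hX]
    field_simp
    ring
  rw [e2]
  have h3 : |ν / 2 ^ t.g₃ * (Jv + Cv - fv / ν)| ≤ ν / 2 ^ t.g₃ * (Kc / 2 ^ t.k) := by
    rw [abs_mul, abs_of_pos (by positivity : 0 < ν / 2 ^ t.g₃)]
    exact mul_le_mul_of_nonneg_left h1 (by positivity)
  have h4 : |1 / 2 ^ t.g₃ * (fv - 2 ^ t.g₃ * X)| ≤ 1 / 2 ^ t.g₃ * Ev := by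
    rw [abs_mul, abs_of_pos (by positivity : (0 : ℝ) < 1 / 2 ^ t.g₃)]
    exact mul_le_mul_of_nonneg_left h2 (by positivity)
  have h5 : 1 / 2 ^ t.g₃ * Ev ≤ ν / 2 ^ t.g₃ * (2 ^ (t.y * (b + 1)) / 2 ^ t.k) := by
    have h6 : Ev / ν ≤ 2 ^ (t.y * (b + 1)) / 2 ^ t.k := by
      rw [le_div_iff₀ hk, mul_comm]
      exact hEv2
    calc 1 / 2 ^ t.g₃ * Ev = ν / 2 ^ t.g₃ * (Ev / ν) := by field_simp
      _ ≤ _ := mul_le_mul_of_nonneg_left h6 (by positivity)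
  have h7 := abs_sub (-(ν / 2 ^ t.g₃ * (Jv + Cv - fv / ν))) (1 / 2 ^ t.g₃ * (fv - 2 ^ t.g₃ * X))
  rw [abs_neg] at h7
  refine h7.trans ?_
  rw [add_div, mul_add]
  linarith

/-- The closed polynomial is closed. -/
theorem cgi_cl (hE : SuE F c rr B K n N b t)
    (O : PosO F B t.W₀ t.k t.k n ((2 ^ t.y) ^ 2) Kp (yv F c t.W₀ t.g1 t.Pl)
      (hgP c t.W₀ t.g1 t.Pl) ctr xo D₁)
    (Jt : JetO F B t.W₀ t.k t.k n b ((2 ^ t.y) ^ 2) ((2 ^ t.y) ^ E') Kc ((2 ^ t.y) ^ E)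
      (yv F c t.W₀ t.g1 t.Pl) t.f t.ji ctr xo Jo Ci Φ₁) {i : ℕ} (hi : i < n)
    (hiJ : t.W₀ + t.k + i * t.k ≤ J) :
    Cl2 (slam F (t.W₀ + t.k + i * t.k)) (fun ω => ptr F J ω) B (cgi c t E' b ctr Ci i) := by
  have c1 : Cl2 (slam F (t.W₀ + t.k + i * t.k)) (fun ω => ptr F J ω) B
      (fun ω => t.Pv (ptr F J ω)) := cl_earlier (by omega) hiJ hE.Pc
  have c2 : Cl2 (slam F (t.W₀ + t.k + i * t.k)) (fun ω => ptr F J ω) B
      (fun ω => t.zP (ptr F J ω)) := cl_earlier (by omega) hiJ hE.zcl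
  have c3 : Cl2 (slam F (t.W₀ + t.k + i * t.k)) (fun ω => ptr F J ω) B
      (fun ω => (slam F t.W₀ ω).2.2) := cl_t1 (by omega) hiJ
  refine ((((c3.join c1).join (O.cc i hi)).join c2).join (Jt.cC i hi)).comp
    (fun a => cg c t.W₀ t.g1 a.1.1.1.1 a.1.1.1.2 (Rs t.k t.k ((2 ^ t.y) ^ 2) i) a.1.1.2
      (mui t E' b i) a.1.2 a.2) |>.congr fun ω hω => ?_
  show cgi c t E' b ctr Ci i ω = cg c t.W₀ t.g1 (slam F t.W₀ ω).2.2 (t.Pv (ptr F J ω))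
    (Rs t.k t.k ((2 ^ t.y) ^ 2) i) (ctr i ω) (mui t E' b i) (t.zP (ptr F J ω)) (Ci i ω)
  rw [hE.Pc ω hω, hE.zcl ω hω]
  rfl

end

/-- **The velocities at all windows**, on a part of the event. -/
theorem vel_all (m K b : ℕ) : ∃ C : ℝ, 1 ≤ C ∧ ∀ {J : ℕ} {F : Fam m J} {c : ℕ → Fin m}
    {B : F.Ω → Prop} {rr n N E E' : ℕ} {t : VbT F} {Kp Kc : ℝ} {ctr xo : ℕ → F.Ω → V3}
    {D₁ : LnT F → V3} {Jo Ci : ℕ → F.Ω → Po} {Φ₁ : LnT F → Po},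
    SuE F c rr B K n N b t →
    PosO F B t.W₀ t.k t.k n ((2 ^ t.y) ^ 2) Kp (yv F c t.W₀ t.g1 t.Pl) (hgP c t.W₀ t.g1 t.Pl) ctr
      xo D₁ →
    JetO F B t.W₀ t.k t.k n b ((2 ^ t.y) ^ 2) ((2 ^ t.y) ^ E') Kc ((2 ^ t.y) ^ E)
      (yv F c t.W₀ t.g1 t.Pl) t.f t.ji ctr xo Jo Ci Φ₁ →
    2 ≤ b → 1 ≤ K → t.W₀ + t.k + n * t.k ≤ J → 0 ≤ Kp → 1 ≤ Kc →
    Kc + Kp + 2 + 2 ^ (t.y * (b + 1)) ≤ 2 ^ t.k → ∀ θ : ℝ, 0 ≤ θ →
    (∀ B' : F.Ω → Prop, Sub B' B → Pe F.p B ≤ 2 ^ n * Pe F.p B' → ∀ hB' : 0 < Pe F.p B',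
      (Fam.sub F B' hB').Tm θ) → 0 < Pe F.p B →
    C * (θ + 1) ≤ ((J : ℝ) - ((t.W₀ + t.k + n * t.k : ℕ) : ℝ)) * Real.log 2 →
    ∃ B' : F.Ω → Prop, Sub B' B ∧ Pe F.p B ≤ 2 ^ n * Pe F.p B' ∧ ∀ i < n, ∀ ω, B' ω →
      |1 / 2 ^ (t.W₀ + t.k + i * t.k) * ojet F (c rr) 1 (cgi c t E' b ctr Ci i ω) ω -
        mui t E' b i * ∑ j, eval (xo i ω) (pderiv j (Jo i ω)) *
          D₁ (slam F (t.W₀ + t.k) ω) j| ≤
        mui t E' b i * (Real.exp (C * (θ + 1)) * Kc *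
          ((Kc + Kp + 2 + 2 ^ (t.y * (b + 1))) / 2 ^ t.k)) := by
  obtain ⟨C, hC, hv⟩ := vel_ev m (b * K + K + b)
  refine ⟨C, hC, ?_⟩
  intro J F c B rr n N E E' t Kp Kc ctr xo D₁ Jo Ci Φ₁ hE O Jt hb hK hJ hKp hKc hs θ hθ hT hB hCθ
  have key : ∀ l ≤ n, ∃ B' : F.Ω → Prop, Sub B' B ∧ Pe F.p B ≤ 2 ^ l * Pe F.p B' ∧
      ∀ i < l, ∀ ω, B' ω →
      |1 / 2 ^ (t.W₀ + t.k + i * t.k) * ojet F (c rr) 1 (cgi c t E' b ctr Ci i ω) ω -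
        mui t E' b i * ∑ j, eval (xo i ω) (pderiv j (Jo i ω)) *
          D₁ (slam F (t.W₀ + t.k) ω) j| ≤
        mui t E' b i * (Real.exp (C * (θ + 1)) * Kc *
          ((Kc + Kp + 2 + 2 ^ (t.y * (b + 1))) / 2 ^ t.k)) := by
    intro l
    induction l with
    | zero =>
      intro _
      exact ⟨B, fun _ h => h, by rw [pow_zero, one_mul], fun i hi => absurd hi (Nat.not_lt_zero i)⟩
    | succ l ih =>
      intro hl
      obtain ⟨B₁, hB₁, hP₁, h₁⟩ := ih (by omega)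
      have hln : l < n := by omega
      have hPB₁ : 0 < Pe F.p B₁ := by
        have h2 : (0 : ℝ) < 2 ^ l := by positivity
        by_contra h3
        have h4 : 2 ^ l * Pe F.p B₁ ≤ 0 := mul_nonpos_of_nonneg_of_nonpos h2.le (not_lt.1 h3)
        linarith
      have hE₁ := hE.sub hB₁
      have O₁ := O.sub hB₁
      have Jt₁ := Jt.sub hB₁
      have hlk : t.W₀ + t.k + l * t.k + t.k ≤ t.W₀ + t.k + n * t.k := by
        have h2 : (l + 1) * t.k ≤ n * t.k := Nat.mul_le_mul_right _ hl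
        have h3 : (l + 1) * t.k = l * t.k + t.k := by ring
        omega
      have hWJ : t.W₀ + t.k + l * t.k + t.k ≤ J := by omega
      have hT₁ := hT B₁ hB₁ (hP₁.trans (mul_le_mul_of_nonneg_right
        (pow_le_pow_right₀ one_le_two hln.le) hPB₁.le)) hPB₁
      have hk0 : (0 : ℝ) < 2 ^ t.k := by positivity
      have hS0 : 0 < Kc + Kp + 2 + 2 ^ (t.y * (b + 1)) := by positivity
      obtain ⟨ε, hε⟩ : ∃ ε : ℝ, ε = (Kc + Kp + 2 + 2 ^ (t.y * (b + 1))) / 2 ^ t.k := ⟨_, rfl⟩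
      have hp2 : (0 : ℝ) < 2 ^ (t.y * (b + 1)) := by positivity
      have q1 : ∀ ω ω', B₁ ω → B₁ ω' → slam F (t.W₀ + t.k + l * t.k) ω =
          slam F (t.W₀ + t.k + l * t.k) ω' →
          cgi c t E' b ctr Ci l ω = cgi c t E' b ctr Ci l ω' := by
        intro ω ω' hω hω' hs'
        obtain ⟨⟨φ, hφ⟩, -⟩ := cgi_cl hE₁ O₁ Jt₁ hln (by omega)
        rw [hφ ω hω, hφ ω' hω', hs']
      have q2 : ∀ ω, B₁ ω → |F.x ω (c rr) - eval (bt F ω) (cgi c t E' b ctr Ci l ω) -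
          mui t E' b l * eval (xo l ω) (Jo l ω)| ≤ mui t E' b l * ε := by
        intro ω hω
        refine (cgi_near hE₁ (by omega) (by linarith) Jt₁ hln (by omega) hω).trans ?_
        refine mul_le_mul_of_nonneg_left ?_ (mui_pos t E' b l).le
        rw [hε]
        refine div_le_div_of_nonneg_right ?_ hk0.le
        linarith
      have q3 : ∀ ω ω', B₁ ω → B₁ ω' → slam F (t.W₀ + t.k + l * t.k) ω =
          slam F (t.W₀ + t.k + l * t.k) ω' →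
          Bx ε (xo l ω' - xo l ω - (rt F (t.W₀ + t.k + l * t.k) ω' -
            rt F (t.W₀ + t.k + l * t.k) ω) • D₁ (slam F (t.W₀ + t.k) ω)) := by
        intro ω ω' hω hω' hs' j
        have h3 := O₁.pos l hln ω ω' hω hω' hs' j
        have h4 : ∀ ω : F.Ω, rt F (t.W₀ + t.k + l * t.k) ω =
            (Pool.STB82.dg F (t.W₀ + t.k + l * t.k) t.k ω +
              rt F (t.W₀ + t.k + l * t.k + t.k) ω) / 2 ^ t.k := fun ω =>
          Pool.STB65.rt_dg F hWJ ω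
        have h5 := rt_mem F (t.W₀ + t.k + l * t.k + t.k) ω
        have h6 := rt_mem F (t.W₀ + t.k + l * t.k + t.k) ω'
        have h7 := grd_bx (O₁.dg (slam F (t.W₀ + t.k) ω)) j
        simp only [Pi.sub_apply, Pi.smul_apply, smul_eq_mul] at h3 ⊢
        rw [h4 ω, h4 ω']
        obtain ⟨d, hd⟩ : ∃ d, d = D₁ (slam F (t.W₀ + t.k) ω) j := ⟨_, rfl⟩
        rw [← hd] at h3 h7 ⊢
        have h8 : |((rt F (t.W₀ + t.k + l * t.k + t.k) ω' -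
            rt F (t.W₀ + t.k + l * t.k + t.k) ω) / 2 ^ t.k) * d| ≤ 1 / 2 ^ t.k := by
          rw [abs_mul, abs_div, abs_of_pos hk0]
          calc |rt F (t.W₀ + t.k + l * t.k + t.k) ω' -
                rt F (t.W₀ + t.k + l * t.k + t.k) ω| / 2 ^ t.k * |d| ≤ 1 / 2 ^ t.k * 1 := by
                refine mul_le_mul (div_le_div_of_nonneg_right ?_ hk0.le) h7 (abs_nonneg _)
                  (by positivity)
                rw [abs_le]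
                constructor <;> linarith [h5.1, h5.2, h6.1, h6.2]
            _ = 1 / 2 ^ t.k := mul_one _
        have h9 : xo l ω' j - xo l ω j - ((Pool.STB82.dg F (t.W₀ + t.k + l * t.k) t.k ω' +
            rt F (t.W₀ + t.k + l * t.k + t.k) ω') / 2 ^ t.k -
            (Pool.STB82.dg F (t.W₀ + t.k + l * t.k) t.k ω +
              rt F (t.W₀ + t.k + l * t.k + t.k) ω) / 2 ^ t.k) * d =
            (xo l ω' j - xo l ω j - ((Pool.STB82.dg F (t.W₀ + t.k + l * t.k) t.k ω' : ℝ) -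
              Pool.STB82.dg F (t.W₀ + t.k + l * t.k) t.k ω) / 2 ^ t.k * d) -
            ((rt F (t.W₀ + t.k + l * t.k + t.k) ω' -
            rt F (t.W₀ + t.k + l * t.k + t.k) ω) / 2 ^ t.k) * d := by ring
        rw [h9]
        refine (abs_sub _ _).trans ((add_le_add h3 h8).trans ?_)
        rw [hε, ← add_div]
        refine div_le_div_of_nonneg_right ?_ hk0.le
        linarith
      have q4 : ∀ ω ω', B₁ ω → B₁ ω' → slam F (t.W₀ + t.k + l * t.k) ω =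
          slam F (t.W₀ + t.k + l * t.k) ω' → ∀ q, Bx 4 q →
          |(eval q (Jo l ω') + eval (q - xo l ω') (Φ₁ (slam F (t.W₀ + t.k) ω))) -
            (eval q (Jo l ω) + eval (q - xo l ω) (Φ₁ (slam F (t.W₀ + t.k) ω)))| ≤ ε := by
        intro ω ω' hω hω' hs' q hq
        have h3 := Jt₁.jet l hln ω ω' hω hω' hs' q hq
        have h4 : slam F (t.W₀ + t.k) ω = slam F (t.W₀ + t.k) ω' :=
          Pool.STB65.slam_eq_of_le F (by omega) (by omega) hs'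
        show |eval q (Jo l ω') + eval (q - xo l ω') (Φ₁ (slam F (t.W₀ + t.k) ω)) -
          (eval q (Jo l ω) + eval (q - xo l ω) (Φ₁ (slam F (t.W₀ + t.k) ω)))| ≤ ε
        refine h3.trans ?_
        rw [hε]
        refine div_le_div_of_nonneg_right ?_ hk0.le
        linarith
      obtain ⟨B₂, hB₂, hP₂, h₂⟩ := hv F B₁ hPB₁ (t.W₀ + t.k + l * t.k) b θ (mui t E' b l) ε Kc
        (c rr) (cgi c t E' b ctr Ci l) (xo l) (fun ω => D₁ (slam F (t.W₀ + t.k) ω)) (Jo l)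
        (fun ω => Φ₁ (slam F (t.W₀ + t.k) ω)) (by omega) hθ hT₁ (by
          refine hCθ.trans (mul_le_mul_of_nonneg_right ?_ (Real.log_pos one_lt_two).le)
          have h2 : ((t.W₀ + t.k + l * t.k : ℕ) : ℝ) ≤ ((t.W₀ + t.k + n * t.k : ℕ) : ℝ) := by
            exact_mod_cast (by omega : t.W₀ + t.k + l * t.k ≤ t.W₀ + t.k + n * t.k)
          linarith) (mui_pos t E' b l) (by rw [hε]; positivity) (by
          rw [hε, div_le_one hk0]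
          exact hs) hKc hb (by omega) (fun ω hω => by
          unfold cgi
          refine Pool.STB.cg_deg (b' := b) c t.W₀ t.g1 _ hK ?_ _ _ _ ?_
            ((Jt₁.dC l ω).trans (Nat.sub_le _ _)) (by omega)
          · rw [← hE₁.Pc ω hω]
            exact hE₁.Pd _
          · rw [← hE₁.zcl ω hω]
            exact (hE₁.zd ω hω).trans (by omega)) (by omega)
        (fun ω hω => (Jt₁.dJ l ω).trans (by omega)) (fun ω _ => Jt₁.hb _)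
        (fun ω _ => grd_bx (O₁.dg _)) (fun ω hω => O₁.x1 l hln ω hω)
        (fun ω hω q hq => Jt₁.J1 l hln ω hω q hq) q1 q2 q3 q4
      refine ⟨B₂, fun ω hω => hB₁ ω (hB₂ ω hω), ?_, ?_⟩
      · rw [pow_succ]
        have h3 : (0 : ℝ) < 2 ^ l := by positivity
        have h4 := mul_le_mul_of_nonneg_left hP₂ h3.le
        linarith
      · intro i hi ω hω
        rcases Nat.lt_succ_iff_lt_or_eq.1 hi with h3 | rfl
        · exact h₁ i h3 ω (hB₂ ω hω)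
        · have := h₂ ω hω
          rw [hε] at this
          exact this
  exact key n le_rfl

end Pool.VJ77
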