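import Pool.Agent.H37.STA.Rfw
import Pool.Agent.H77.VJ.Sue

/-!
# The velocity of the place `c rr` at a window is few bits behind the far digits

`Pool.STA37`'s theorem for any place `rr` of the target: `upi`, `row_few`.
-/

set_option autoImplicit false

namespace Pool.VJ77

open Finset Real MvPolynomial
open Pool.Agent.H49.Ent Pool.Agent.H32.Dense Pool.STK Pool.KA Pool.KSAT Pool.K2S Pool.PB
open Pool.GEN Pool.CHT Pool.RCD Pool.D2F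
open Pool.STA37
open Pool.STB (V3 Po Bx Hb cv cl_earlier PosR cnt_int cg VbT p2)
open Pool.STB65 (InpP InpF PosO JetO nu nu_pos Rs Rs_pos grd_bx)
open Pool.STB82 (yv hgP)
open Pool.LA91 (jet ojet)
open Pool.PB.Trl (rt rt_mem t_rt)

variable {m J : ℕ}

/-- The first label of the target: the velocity over the first closed polynomial. -/
noncomputable def upi {F : Fam m J} (c : ℕ → Fin m) (rr : ℕ) (t : VbT F) (E' b : ℕ) (ctr : ℕ → F.Ω → V3)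
    (Ci : ℕ → F.Ω → Po) (N₂ : ℝ) (ω : F.Ω) : ℤ :=
  ⌊(2 : ℝ) ^ (N₂ * J) * ojet F (c rr) 1 (cgi c t E' b ctr Ci 0 ω) ω⌋

/-- **The velocity at the window** `i` is few bits behind the far digits. -/
theorem row_few (K b : ℕ) : ∃ C : ℝ, 1 ≤ C ∧ ∀ {m J : ℕ} {F : Fam m J} {c : ℕ → Fin m}
    {A : F.Ω → Prop} (_ : 0 < Pe F.p A) {rr n N E E' e₁' : ℕ} {t : VbT F} {f : FaT F}
    {Kp Kp' Kc ρ : ℝ} {ctr xo ctr' xo' : ℕ → F.Ω → V3} {D₁ D₁' : LnT F → V3}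
    {Jo Ci : ℕ → F.Ω → Po} {Φ₁ : LnT F → Po} (_ : SuE F c rr A K n N b t)
    (_ : PosO F A t.W₀ t.k t.k n ((2 ^ t.y) ^ 2) Kp (yv F c t.W₀ t.g1 t.Pl) (hgP c t.W₀ t.g1 t.Pl)
      ctr xo D₁)
    (_ : JetO F A t.W₀ t.k t.k n b ((2 ^ t.y) ^ 2) ((2 ^ t.y) ^ E') Kc ((2 ^ t.y) ^ E)
      (yv F c t.W₀ t.g1 t.Pl) t.f t.ji ctr xo Jo Ci Φ₁)
    (_ : FaE F c A K t.y e₁' t.W₀ t.g1 t.Pl f)
    (_ : PosO F A f.W f.d f.k 1 ((2 ^ t.y) ^ 2) Kp' (yv F c f.W f.g f.Pl) (hgP c f.W f.g f.Pl)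
      ctr' xo' D₁')
    {i : ℕ} (_ : i < n) (_ : t.W₀ + t.k + n * t.k ≤ J) (_ : f.W + f.d = t.W₀ + t.k)
    (_ : f.W + f.d + f.k ≤ J) (_ : f.k ≤ f.d)
    (_ : b * (t.k + i * t.k) + i * t.k + t.y * (E + 6) + 8 ≤ f.k) (_ : C ≤ 2 ^ t.y) (_ : 0 ≤ ρ)
    (_ : ρ ≤ 2 ^ t.y) (_ : (2 : ℝ) ^ t.g1 / 2 ^ t.W₀ = ρ * (2 ^ f.g / 2 ^ f.W)) {N₂ : ℝ}
    (_ : 2 ^ t.k / (mui t E' b i * 2 ^ (t.W₀ + t.k + i * t.k)) ≤ (2 : ℝ) ^ (N₂ * J))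
    {Nf : ℕ → ℕ → ℝ}
    (_ : (2 : ℝ) ^ (Nf 0 0 * J) * (2 ^ t.y) ^ 2 ≤ 2 ^ (f.W + f.d + f.k))
    (_ : (2 : ℝ) ^ (Nf 1 0 * J) * (2 ^ t.y) ^ 2 ≤ 2 ^ (f.g + f.d + f.k))
    (_ : (2 : ℝ) ^ (Nf 0 1 * J) * (2 ^ t.y) ^ 2 ≤ 2 ^ f.k)
    (_ : (2 : ℝ) ^ (Nf 1 1 * J) * 2 ^ f.W * (2 ^ (2 * t.y + 1) / 2 ^ f.k) ≤ 2 ^ f.g)
    {Y₀ Z₀ : Type} {yi : F.Ω → Y₀} {z : F.Ω → Z₀} (_ : YiD F A t f ctr Ci ctr' i yi z) {r₁ : ℝ}
    (_ : CH (Pool.Agent.H49.Ent.cond F.p A True) (upi c rr t E' b ctr Ci N₂)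
      (fun ω => (uj F c f.W f.g f.Pl (ctr' 0) Nf ω, (z ω, F.T ω))) ≤ r₁),
    CH (Pool.Agent.H49.Ent.cond F.p A True) (vli c rr t E' b ctr Ci i)
      (fun ω => (cv (2 ^ f.k) (xo' 0 ω), (F.W ω, ((D₁ (slam F (t.W₀ + t.k) ω),
        D₁' (slam F (t.W₀ + t.k) ω)), (cv (2 ^ t.k) (xo i ω), yi ω))))) ≤
      r₁ + 4 * Real.log 7 + Real.log (3 + 1) := by
  obtain ⟨A₁, hA₁, h1⟩ := vel_pt K b
  obtain ⟨A₂, hA₂, h2⟩ := uj_near (K + 1)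
  refine ⟨A₁ + A₂, by linarith, ?_⟩
  intro m J F c A hA rr n N E E' e₁' t f Kp Kp' Kc ρ ctr xo ctr' xo' D₁ D₁' Jo Ci Φ₁ hE O Jt Ef O' i hi
    hJ ht hfJ hkd hk hCy hρ0 hρ hρe N₂ hs Nf n1 n2 n3 n4 Y₀ Z₀ yi z Yd r₁ hF
  have hl := isLaw_cond F.isLaw hA
  have hpA : ∀ ω, 0 < Pool.Agent.H49.Ent.cond F.p A True ω → A ω := fun ω h =>
    Pool.STB82.cond_pos_B h
  have hY1 : (1 : ℝ) ≤ 2 ^ t.y := one_le_pow₀ one_le_two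
  have hC1 : A₁ ≤ 2 ^ t.y := by linarith
  have hC2 : A₂ ≤ 2 ^ t.y := by linarith
  have hσ : (0 : ℝ) < (2 ^ t.y) ^ 2 := by positivity
  -- sizes
  have hyk : 2 * t.y + 3 ≤ f.k := by
    have : 2 * t.y ≤ t.y * (E + 6) := by nlinarith [Nat.zero_le (t.y * E)]
    omega
  have s1 : 5 * (2 ^ t.y) ^ 2 ≤ (2 : ℝ) ^ t.k * 2 ^ f.k := by
    calc 5 * ((2 : ℝ) ^ t.y) ^ 2 ≤ 2 ^ 3 * (2 ^ t.y) ^ 2 := by
          refine mul_le_mul_of_nonneg_right (by norm_num) (by positivity)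
      _ = 2 ^ (2 * t.y + 3) := by rw [← pow_mul, ← pow_add]; congr 1; ring
      _ ≤ 2 ^ (t.k + f.k) := p2 (by omega)
      _ = _ := pow_add _ _ _
  have hd2 : (2 : ℝ) ^ f.k ≤ 2 ^ f.d := p2 hkd
  have b0 : ∀ a : ℝ, 1 ≤ a → a ≤ 2 ^ t.y → a * 2 ^ t.y / 2 ^ f.d + (2 ^ t.y) ^ 2 / 2 ^ f.k ≤
      2 ^ (2 * t.y + 1) / 2 ^ f.k := by
    intro a ha1 ha
    have q1 : a * 2 ^ t.y / 2 ^ f.d ≤ (2 ^ t.y) ^ 2 / 2 ^ f.k := by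
      refine div_le_div₀ (by positivity) ?_ (by positivity) hd2
      rw [sq]
      exact mul_le_mul_of_nonneg_right ha (by positivity)
    have q2 : (2 : ℝ) ^ (2 * t.y + 1) / 2 ^ f.k = 2 * ((2 ^ t.y) ^ 2 / 2 ^ f.k) := by
      rw [pow_succ, pow_mul']
      ring
    rw [q2]
    linarith
  have s2 : 2 * (A₁ * 2 ^ t.y / 2 ^ f.d + (2 ^ t.y) ^ 2 / 2 ^ f.k) ≤ 1 := by
    refine (mul_le_mul_of_nonneg_left (b0 A₁ hA₁ hC1) zero_le_two).trans ?_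
    rw [← mul_div_assoc, ← pow_succ', div_le_one (by positivity)]
    exact p2 (by omega)
  have u1 := uj_few hl (u := uj F c f.W f.g f.Pl (ctr' 0) Nf) (fun ω l j h => if_neg h)
    (fun ω => (cv (2 ^ f.k) (xo' 0 ω), (F.W ω, ((D₁ (slam F (t.W₀ + t.k) ω),
        D₁' (slam F (t.W₀ + t.k) ω)), (cv (2 ^ t.k) (xo i ω), yi ω))))) (by
    intro ω ω' a a' e
    simp only [Prod.mk.injEq] at e
    obtain ⟨e1, e2, e3, e4, e5⟩ := e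
    have ha := hpA ω a
    have ha' := hpA ω' a'
    refine h2 c f.W f.d f.k 1 f.g 0 (2 ^ t.y) _ Kp' f.Pl f.yt ctr' xo' D₁' Nf Ef.iP O' one_pos
      (by omega) hσ (by positivity) ?_ ?_ n3 ?_ ω ω' ha ha' (Yd.cf ω ω' ha ha' e5)
      (Yd.Pf ω ω' ha ha' e5) ?_ e1
    · rw [Nat.zero_mul, Nat.add_zero]
      exact n1
    · rw [Nat.zero_mul, Nat.add_zero]
      exact n2
    · refine le_trans (mul_le_mul_of_nonneg_left (b0 A₂ hA₂ hC2) (by positivity)) n4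
    · rw [ht]
      exact e3.2)
  refine few_vel' hl _ _ _ z (fun ω => F.T ω) _ ?_ ?_ hF u1 ?_
  · intro ω ω' a a' e
    simp only [Prod.mk.injEq] at e
    exact Yd.z ω ω' (hpA ω a) (hpA ω' a') e.2.2.2.2
  · intro ω ω' a a' e
    simp only [Prod.mk.injEq] at e
    exact congrArg Prod.fst e.2.1
  · refine cnt_int hl _ _ (by norm_num) fun ω ω' a a' e => ?_
    simp only [Prod.mk.injEq] at e
    obtain ⟨e0, e1, e2, e3, e4, e5⟩ := e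
    have ha := hpA ω a
    have ha' := hpA ω' a'
    have eT : F.T ω = F.T ω' := congrArg Prod.fst e2
    have v1 := h1 (κ₂ := c rr) (g₃ := t.g₃) hE.iP O Jt Ef O' hE.Pd hE.Pp hE.Pc hi hJ ht hfJ hσ
      (by positivity) (by positivity) (by positivity) hρ0 hρe (fun ω _ => F.dir ω _) s1 s2 ha ha'
      (Yd.Pl ω ω' ha ha' e5) (Yd.Pf ω ω' ha ha' e5) eT (Yd.c0 ω ω' ha ha' e5)
      (Yd.ci ω ω' ha ha' e5) (Yd.C0 ω ω' ha ha' e5) (Yd.Ci ω ω' ha ha' e5)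
      (Yd.cf ω ω' ha ha' e5) e1 (by rw [ht]; exact e3.2) (t.zH (slam F t.W₀ ω))
    obtain ⟨s, hs'⟩ : ∃ s : ℝ, s = 2 ^ t.k / (mui t E' b i * 2 ^ (t.W₀ + t.k + i * t.k)) :=
      ⟨_, rfl⟩
    have hs0 : 0 < s := by
      rw [hs']
      have := mui_pos t E' b i
      positivity
    have hz := Yd.zH ω ω' ha ha' e5
    have w1 : |ojet F (c rr) 1 (cgi c t E' b ctr Ci 0 ω) ω -
        ojet F (c rr) 1 (cgi c t E' b ctr Ci 0 ω') ω'| ≤ 1 / (2 : ℝ) ^ (N₂ * J) :=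
      fl_near (by positivity) e0
    obtain ⟨Q, hQ⟩ : ∃ Q : ℝ, Q = A₁ * (2 ^ t.y) ^ E * (2 * ((1 + ρ) * (2 * (A₁ * 2 ^ t.y / 2 ^ f.d +
        (2 ^ t.y) ^ 2 / 2 ^ f.k)) + A₁ * 2 ^ t.y * (5 * (2 ^ t.y) ^ 2 / (2 ^ t.k * 2 ^ f.k) +
          2 * (A₁ * 2 ^ t.y / 2 ^ f.d + (2 ^ t.y) ^ 2 / 2 ^ f.k))) +
        (Rs t.k t.k ((2 ^ t.y) ^ 2) 0 + Rs t.k t.k ((2 ^ t.y) ^ 2) i) *
          ((1 + ρ + A₁ * 2 ^ t.y) * (5 * (2 ^ t.y) ^ 2 / (2 ^ t.k * 2 ^ f.k))) * 2 ^ t.y) :=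
      ⟨_, rfl⟩
    rw [← hQ] at v1
    have w2 : |ojet F (c rr) 1 (cgi c t E' b ctr Ci i ω) ω -
        ojet F (c rr) 1 (cgi c t E' b ctr Ci i ω') ω'| ≤
        1 / (2 : ℝ) ^ (N₂ * J) + 2 ^ t.W₀ / 2 ^ t.g₃ * Q := by
      refine le_trans ?_ (add_le_add w1 le_rfl)
      have q1 : ∀ j, cgi c t E' b ctr Ci j ω' = cg c t.W₀ t.g1 (slam F t.W₀ ω').2.2
          (t.Pl (slam F t.W₀ ω')) (Rs t.k t.k ((2 ^ t.y) ^ 2) j) (ctr j ω') (mui t E' b j)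
          (t.zH (slam F t.W₀ ω)) (Ci j ω') := fun j => by
        unfold cgi
        rw [hz]
      rw [q1, q1]
      exact v1
    have w3 : s * (2 ^ t.W₀ / 2 ^ t.g₃ * Q) ≤ 1 := by
      rw [hs', hQ]
      exact vel_num hA₁ hC1 hρ0 hρ (by positivity) le_rfl hkd hk
    have w4 : s * (1 / (2 : ℝ) ^ (N₂ * J)) ≤ 1 := by
      rw [mul_one_div, div_le_one (by positivity), hs']
      exact hs
    have w5 : |s * ojet F (c rr) 1 (cgi c t E' b ctr Ci i ω) ω -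
        s * ojet F (c rr) 1 (cgi c t E' b ctr Ci i ω') ω'| ≤ 2 := by
      rw [← mul_sub, abs_mul, abs_of_pos hs0]
      refine (mul_le_mul_of_nonneg_left w2 hs0.le).trans ?_
      rw [mul_add]
      linarith
    have w6 := Pool.STB.fl_near w5
    have w7 : (2 : ℝ) + 1 = 3 := by norm_num
    rw [w7] at w6
    show |((⌊2 ^ t.k / (mui t E' b i * 2 ^ (t.W₀ + t.k + i * t.k)) *
      ojet F (c rr) 1 (cgi c t E' b ctr Ci i ω) ω⌋ : ℤ) : ℝ) -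
      ((⌊2 ^ t.k / (mui t E' b i * 2 ^ (t.W₀ + t.k + i * t.k)) *
      ojet F (c rr) 1 (cgi c t E' b ctr Ci i ω') ω'⌋ : ℤ) : ℝ)| ≤ 3
    rw [← hs']
    exact w6

end Pool.VJ77
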