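import Pool.Agent.H77.VJ.Sux
import Pool.Agent.H60.ALT.Nzf

/-!
# The class theorem for a virtual static place over a family of labels

`vj_voidP`: the class theorem for the event `VbE`, `VbN` of a static place 3 over the labels of a
hereditary family `Ψ`, with the row of the velocity for the sums of a label of the family and a
closed polynomial over the two first places.
-/

set_option autoImplicit false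

namespace Pool.VJ77

open Finset Real MvPolynomial
open Pool.Agent.H49.Ent Pool.Agent.H32.Dense Pool.STK Pool.KA Pool.KSAT Pool.K2S Pool.PB Pool.S6C
open Pool.GEN Pool.CHT Pool.RCD Pool.D2F Pool.CHX Pool.D2Con Pool.D2A
open Pool.STA37
open Pool.STB (V3 Po Bx Hb cv cl_earlier PosR cnt_int cg VbT VbE VbN p2 lg_le ChH)
open Pool.STB65 (InpP InpF PosO JetO nu nu_pos Rs Rs_pos)
open Pool.STB82 (yv hgP Fst WinN cond_pos_B)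
open Pool.LA91 (jet ojet qJet qJets qG Mx FulC)
open Pool.RCD (vg)
open Pool.LBT (ThrOf)
open Pool.ALT (Fml)

variable {m : ℕ}

/-- **The labels of a virtual place**: a label of the family and a closed polynomial over the two
first places; `u'` is the velocity over their sum. -/
def LbV (Ψ : Fml m) (c : ℕ → Fin m) (tt pr e N₂ : ℝ) (Kf J : ℕ) (F : Fam m J) (B : F.Ω → Prop)
    (u' : F.Ω → ℤ) : Prop :=
  ∃ (V₁ : Type) (z₁ : PtT F → V₁) (z₁' : LnT F → V₁) (G₁ : V₁ → MvPolynomial (Option (Fin m)) ℝ),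
    Ψ J F B V₁ z₁ z₁' G₁ ∧
    ∃ (V₂ : Type) (z₂ : PtT F → V₂) (z₂' : LnT F → V₂) (Q : V₂ → MvPolynomial (Option (Fin m)) ℝ),
      (∀ y, (Q y).totalDegree ≤ Kf) ∧ (∀ y, DepC c 2 (Q y)) ∧
      (∀ ω, B ω → z₂ (ptr F J ω) = z₂' (slam F ⌊tt * J⌋₊ ω)) ∧
      (∀ ω, B ω → |F.x ω (c 3) - eval (bt F ω) (G₁ (z₁ (ptr F J ω)) + Q (z₂ (ptr F J ω)))| *
        2 ^ ⌊(pr - e) * J⌋₊ ≤ 1) ∧
      (∀ ω, B ω → |ojet F (c 3) 1 (G₁ (z₁ (ptr F J ω)) + Q (z₂ (ptr F J ω))) ω| *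
        2 ^ ⌊(pr - e) * J⌋₊ ≤ 2 ^ ⌊tt * J⌋₊) ∧
      ∀ ω, B ω → u' ω = ⌊(2 : ℝ) ^ (N₂ * J) *
        ojet F (c 3) 1 (G₁ (z₁ (ptr F J ω)) + Q (z₂ (ptr F J ω))) ω⌋

/-- The labels `UpO` over a label of the family are labels of the virtual place. -/
theorem lbV_of {J : ℕ} {F : Fam m J} {c : ℕ → Fin m} {Ψ : Fml m} {A : F.Ω → Prop} {V : Type}
    {z : PtT F → V} {z' : LnT F → V} {G : V → MvPolynomial (Option (Fin m)) ℝ} {Kf : ℕ}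
    {tt pr e N₂ : ℝ} {q : F.Ω → MvPolynomial (Option (Fin m)) ℝ} {u' : F.Ω → ℤ}
    (hΨ : Ψ J F A V z z' G)
    (h : UpO F c 3 A (fun ω => G (z (ptr F J ω))) Kf ⌊tt * J⌋₊ ⌊(pr - e) * J⌋₊ q)
    (hu : ∀ ω, A ω → u' ω = ⌊(2 : ℝ) ^ (N₂ * J) *
      ojet F (c 3) 1 (G (z (ptr F J ω)) + q ω) ω⌋) : LbV Ψ c tt pr e N₂ Kf J F A u' := by
  classical
  obtain ⟨⟨ψ, hψ⟩, φ, hφ⟩ := h.cl
  obtain ⟨Q, hQ⟩ : ∃ Q : MvPolynomial (Option (Fin m)) ℝ → MvPolynomial (Option (Fin m)) ℝ,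
      Q = fun y => if y.totalDegree ≤ Kf ∧ DepC c 2 y then y else 0 := ⟨_, rfl⟩
  have e1 : ∀ ω, A ω → Q (φ (ptr F J ω)) = q ω := fun ω hω => by
    rw [← hφ ω hω, hQ]
    exact if_pos ⟨h.deg ω hω, h.dep ω hω⟩
  refine ⟨V, z, z', G, hΨ, MvPolynomial (Option (Fin m)) ℝ, φ, ψ, Q, fun y => ?_, fun y => ?_,
    fun ω hω => ?_, fun ω hω => ?_, fun ω hω => ?_, fun ω hω => ?_⟩
  · rw [hQ]
    show (if y.totalDegree ≤ Kf ∧ DepC c 2 y then y else 0).totalDegree ≤ Kf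
    split_ifs with h1
    · exact h1.1
    · rw [totalDegree_zero]
      exact Nat.zero_le _
  · rw [hQ]
    show DepC c 2 (if y.totalDegree ≤ Kf ∧ DepC c 2 y then y else 0)
    split_ifs with h1
    · exact h1.2
    · intro b b' _ _
      rw [map_zero, map_zero]
  · rw [← hφ ω hω, ← hψ ω hω]
  · rw [e1 ω hω]
    exact h.near ω hω
  · rw [e1 ω hω]
    exact h.vel ω hω
  · rw [e1 ω hω]
    exact hu ω hω

/-- **The class theorem** for the event of a static place 3 over a family of labels, with the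
numbers `SuV`. -/
theorem vj_voidS (m K b : ℕ) (hb : 3 ≤ b) (hbK : b ≤ K + 1) (hK : 1 ≤ K) :
    ∃ (n : ℕ) (A τ δ : ℝ) (Cg ne : ℕ), 0 < n ∧ 1 ≤ A ∧ 0 < τ ∧ τ ≤ 1 ∧ 0 < δ ∧
    ∀ (N : ℕ) (kr ur : ℝ), 0 < kr → 0 < ur →
    ∀ {θ : ℝ} {S S' : PCl m} (_ : ∀ (τ : ℝ) (J : ℕ) (F : Fam m J) (A : F.Ω → Prop),
        S'.St τ J F A → S.St τ J F A) {P : List (Fin m) × Fin m → ℝ → ℝ → ℝ}
      (_ : ThrOf (chsys m θ) S P) (_ : TmH S) (_ : S'.Ne) (c : ℕ → Fin m)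
      (_ : Set.InjOn c (Set.Iio 3)) {η e0 eg wn : ℝ} {wi ai : ℕ → ℚ} {fi : ℕ → ℝ}
      {sf : ℕ → ℕ → ℝ} {Ψ : Fml m}
      (_ : ∀ (J : ℕ) (F : Fam m J) (A B : F.Ω → Prop) (V : Type) (z : PtT F → V)
        (z' : LnT F → V) (G : V → MvPolynomial (Option (Fin m)) ℝ), Sub B A →
        Ψ J F A V z z' G → Ψ J F B V z z' G) (_ : 0 < θ) (_ : 0 < η)
      (_ : ∀ i < n, 0 ≤ wi i ∧ wi i ≤ 1 ∧ eg < θ * wi i ∧ bet P c 3 (wi i) (wi i) + η ≤ 1)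
      (_ : ∀ i < n, 0 < ai i ∧ ai i ≤ 1 ∧ e0 < θ * ai i ∧ bet P c 0 (ai i) (ai i) + η ≤ 1 ∧
        bet P c 1 (ai i) (ai i) + η ≤ 1)
      (_ : ∀ i < n, fi i ≤ 1) (_ : ∀ i < n, FulC S c 0 2 (fi i) (sf i))
      {tt aw bb e1 eF : ℝ} {pf : ℕ → ℝ} {pr : ℝ} {Nf : ℕ → ℕ → ℝ} {N₂ : ℝ} {Pq : Fin 2 → ℝ}
      {sn : ℕ → ℝ → ℝ} {sw : ℕ → ℝ} (_ : aw ≤ 1) (_ : FulC S c 0 2 aw sw)
      (_ : ∀ l < 2, ∀ j ≤ 1, Nf l j ≤ 1) (_ : N₂ ≤ 1) (_ : ∀ i, Pq i ≤ 1) {ρF κf : ℝ}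
      (_ : 0 ≤ ρF) (_ : ρF ≤ δ * kr) (_ : 0 ≤ κf) (_ : κf ≤ δ * kr)
      (_ : ∃ k₂ : ℝ, 0 < k₂ ∧ ∀ Kf : ℕ, Bas S (fun J F A =>
        ∀ (V : Type) (z : F.Ω → V) (V' : Type) (z' : F.Ω → V'),
        Mx (fun J F => ptr F J) (vg tt) k₂ F A z → Mx (fun J F => ptr F J) (vg aw) k₂ F A z' →
        ∀ u, (qG m c 2 sn bb Pq).P Kf eF J F A u →
        CH (Pool.Agent.H49.Ent.cond F.p A True) u (fun ω => (z ω, F.W ω)) ≤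
          CH (Pool.Agent.H49.Ent.cond F.p A True) u (fun ω => (z' ω, F.W ω)) + κf * J))
      (_ : ∀ (Kf : ℕ) (cF : ℝ), 0 < cF → Bas S' (fun J F A => ∃ (V : Type) (z : F.Ω → V),
        Cl2 (fun ω => ptr F J ω) (slam F ⌊tt * J⌋₊) A z ∧
        ∀ B : F.Ω → Prop, Sub B A → cF * Pe F.p A ≤ Pe F.p B →
          ∀ (V₁ : Type) (z₁ : PtT F → V₁) (z₁' : LnT F → V₁)
            (G₁ : V₁ → MvPolynomial (Option (Fin m)) ℝ), Ψ J F B V₁ z₁ z₁' G₁ →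
          ∀ (V₂ : Type) (z₂ : PtT F → V₂) (z₂' : LnT F → V₂)
            (Q : V₂ → MvPolynomial (Option (Fin m)) ℝ), (∀ y, (Q y).totalDegree ≤ Kf) →
          (∀ y, DepC c 2 (Q y)) → (∀ ω, B ω → z₂ (ptr F J ω) = z₂' (slam F ⌊tt * J⌋₊ ω)) →
          (∀ ω, B ω → |F.x ω (c 3) - eval (bt F ω) (G₁ (z₁ (ptr F J ω)) + Q (z₂ (ptr F J ω)))| *
            2 ^ ⌊(pr - e1) * J⌋₊ ≤ 1) →
          (∀ ω, B ω → |ojet F (c 3) 1 (G₁ (z₁ (ptr F J ω)) + Q (z₂ (ptr F J ω))) ω| *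
            2 ^ ⌊(pr - e1) * J⌋₊ ≤ 2 ^ ⌊tt * J⌋₊) →
          ∀ u, (qJets m c 0 2 1 (fun _ _ => tt) (fun l _ => pf l) Nf).P Kf e1 J F B u →
          CH (Pool.Agent.H49.Ent.cond F.p B True) (fun ω => ⌊(2 : ℝ) ^ (N₂ * J) *
              ojet F (c 3) 1 (G₁ (z₁ (ptr F J ω)) + Q (z₂ (ptr F J ω))) ω⌋)
            (fun ω => (u ω, (z ω, F.T ω))) ≤ ρF * J))
      {c₀ : ℝ} (_ : 0 < c₀)
      (_ : Bas S' (fun J F A' => ∃ (V : Type) (z : PtT F → V) (z' : LnT F → V)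
        (G : V → MvPolynomial (Option (Fin m)) ℝ), Ψ J F A' V z z' G ∧
        ∃ B : F.Ω → Prop, Sub B A' ∧ c₀ * Pe F.p A' ≤ Pe F.p B ∧
        ∃ (t : VbT F) (f : FaT F) (ρ : ℝ), VbE F c B K n N b ⌊wn * J⌋₊ z z' G t ∧
          ⌊wn * J⌋₊ ≤ t.W₀ ∧
          FaE F c B K t.y t.e₁' t.W₀ t.g1 t.Pl f ∧
          SuV P c 3 n b Cg ne A τ kr ur η e0 eg wi ai fi sf t ∧
          SuG n b Cg tt aw bb e1 eF pf pr Nf N₂ Pq sn sw t f ρ)), False := by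
  obtain ⟨n, A, τ, δ, Cg, ne, hn, hA, hτ, hτ1, hδ, H⟩ :=
    su_voidY m K b 3 (by norm_num) le_rfl hb hbK hK
  refine ⟨n, A, τ, δ, Cg, ne, hn, hA, hτ, hτ1, hδ, ?_⟩
  intro N kr ur hkr hur θ S S' hsub P hP hS hSn c hc η e0 eg wn wi ai fi sf Ψ hΨs hθ hη hwi hai hfi
    hful tt aw bb e1 eF pf pr Nf N₂ Pq sn sw haw hfulw hNf hN₂ hPq ρF κf hρF0 hρF hκf0 hκf hfree
    hF c₀ hc₀ hev
  refine H N kr ur hkr hur hsub hP hS hSn c hc (LbV Ψ c tt pr e1 N₂) hθ hη hwi hai hfi hful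
    (pf := pf) (e1 := e1) (pr := pr) haw hfulw hNf hN₂ hPq hρF0 hρF hκf0 hκf hfree
    (fun Kf cF hcF => Bas.mono 0 (hF Kf cF hcF) ?_) hc₀
    (Bas.mono 0 hev ?_)
  · rintro J - F A ⟨V, z, hz, h1⟩
    refine ⟨V, z, hz, ?_⟩
    rintro B hB hPB u u' hu ⟨V₁, z₁, z₁', G₁, hG, V₂, z₂, z₂', Q, q1, q2, q3, q4, q5, q6⟩
    refine le_trans (CH_mono_left (Pool.Agent.H49.Ent.cond_nonneg F.isLaw.nonneg B True)
      fun ω ω' a a' e => ?_) (h1 B hB hPB V₁ z₁ z₁' G₁ hG V₂ z₂ z₂' Q q1 q2 q3 q4 q5 u hu)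
    rw [q6 ω (cond_pos_B a), q6 ω' (cond_pos_B a')]
    exact congrArg Prod.fst e
  · rintro J - F A' ⟨V, z, z', G, hG, B, hBA, hPB, t, f, ρ, hE, hWn, hFa, hV, hGn⟩
    have h1 := hV.J1 0 hn
    have h2 := hV.Wg
    have h3 := hV.e2y
    have h4 := hGn.ht
    have h5 := hGn.ttJ
    have h6 := hGn.f1
    have h7 := hGn.g1
    have hWJ : t.W₀ + t.k ≤ J := by
      have := h1
      omega
    refine ⟨B, hBA, hPB, vtG ⌊wn * J⌋₊ z z' G t, f, ρ, suE_of hE hWn (by omega), hFa,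
      vtG_suv hV _ z z' G, vtG_sug hGn _ z z' G, ?_⟩
    intro Kf hKf A₀ hA₀ q u' hq hu
    have hq' := UpO.vtG (t := t) (by rw [h5]; omega) (by rw [h5]; exact hWJ)
      (fun y => (hE.zd y).trans (by omega)) hE.zp (fun ω hω => hE.zcl ω (hA₀ ω hω)) hq
    refine lbV_of (hΨs J F A' A₀ V z z' G (fun ω hω => hBA ω (hA₀ ω hω)) hG) hq' fun ω hω => ?_
    rw [hu ω hω]
    show ⌊(2 : ℝ) ^ (N₂ * J) * ojet F (c 3) 1 (G (z (ptr F J ω)) + t.zP (ptr F J ω) + q ω) ω⌋ = _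
    rw [add_assoc]

/-- **The class theorem** for the event of a static place 3 over a family of labels. -/
theorem vj_voidP (m K b : ℕ) (hb : 3 ≤ b) (hbK : b ≤ K + 1) (hK : 1 ≤ K) :
    ∃ (n : ℕ) (A τ δ : ℝ) (Cg ne : ℕ), 0 < n ∧ 1 ≤ A ∧ 0 < τ ∧ τ ≤ 1 ∧ 0 < δ ∧
    ∀ (N : ℕ) (kr ur : ℝ), 0 < kr → 0 < ur →
    ∀ {θ : ℝ} {S S' : PCl m} (_ : ∀ (τ : ℝ) (J : ℕ) (F : Fam m J) (A : F.Ω → Prop),
        S'.St τ J F A → S.St τ J F A) {P : List (Fin m) × Fin m → ℝ → ℝ → ℝ}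
      (_ : ThrOf (chsys m θ) S P) (_ : TmH S) (_ : S'.Ne) (c : ℕ → Fin m)
      (_ : Set.InjOn c (Set.Iio 3)) {η e0 eg wn : ℝ} {wi ai : ℕ → ℚ} {fi : ℕ → ℝ}
      {sf : ℕ → ℕ → ℝ} {s₁ s₂ : ℕ → ℝ} {Ψ : Fml m}
      (_ : ∀ (J : ℕ) (F : Fam m J) (A B : F.Ω → Prop) (V : Type) (z : PtT F → V)
        (z' : LnT F → V) (G : V → MvPolynomial (Option (Fin m)) ℝ), Sub B A →
        Ψ J F A V z z' G → Ψ J F B V z z' G) (_ : 0 < θ) (_ : 0 < η)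
      (_ : ∀ i < n, 0 ≤ wi i ∧ wi i ≤ 1 ∧ eg < θ * wi i ∧ bet P c 3 (wi i) (wi i) + η ≤ 1)
      (_ : ∀ i < n, 0 < ai i ∧ ai i ≤ 1 ∧ e0 < θ * ai i ∧ bet P c 0 (ai i) (ai i) + η ≤ 1 ∧
        bet P c 1 (ai i) (ai i) + η ≤ 1)
      (_ : ∀ i < n, fi i ≤ 1) (_ : ∀ i < n, FulC S c 0 2 (fi i) (sf i))
      {tt aw bb e1 eF : ℝ} {pf : ℕ → ℝ} {pr : ℝ} {Nf : ℕ → ℕ → ℝ} {N₂ : ℝ} {Pq : Fin 2 → ℝ}
      {sn : ℕ → ℝ → ℝ} {sw : ℕ → ℝ} (_ : aw ≤ 1) (_ : FulC S c 0 2 aw sw)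
      (_ : ∀ l < 2, ∀ j ≤ 1, Nf l j ≤ 1) (_ : N₂ ≤ 1) (_ : ∀ i, Pq i ≤ 1) {ρF κf : ℝ}
      (_ : 0 ≤ ρF) (_ : ρF ≤ δ * kr) (_ : 0 ≤ κf) (_ : κf ≤ δ * kr)
      (_ : ∃ k₂ : ℝ, 0 < k₂ ∧ ∀ Kf : ℕ, Bas S (fun J F A =>
        ∀ (V : Type) (z : F.Ω → V) (V' : Type) (z' : F.Ω → V'),
        Mx (fun J F => ptr F J) (vg tt) k₂ F A z → Mx (fun J F => ptr F J) (vg aw) k₂ F A z' →
        ∀ u, (qG m c 2 sn bb Pq).P Kf eF J F A u →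
        CH (Pool.Agent.H49.Ent.cond F.p A True) u (fun ω => (z ω, F.W ω)) ≤
          CH (Pool.Agent.H49.Ent.cond F.p A True) u (fun ω => (z' ω, F.W ω)) + κf * J))
      (_ : ∀ (Kf : ℕ) (cF : ℝ), 0 < cF → Bas S' (fun J F A => ∃ (V : Type) (z : F.Ω → V),
        Cl2 (fun ω => ptr F J ω) (slam F ⌊tt * J⌋₊) A z ∧
        ∀ B : F.Ω → Prop, Sub B A → cF * Pe F.p A ≤ Pe F.p B →
          ∀ (V₁ : Type) (z₁ : PtT F → V₁) (z₁' : LnT F → V₁)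
            (G₁ : V₁ → MvPolynomial (Option (Fin m)) ℝ), Ψ J F B V₁ z₁ z₁' G₁ →
          ∀ (V₂ : Type) (z₂ : PtT F → V₂) (z₂' : LnT F → V₂)
            (Q : V₂ → MvPolynomial (Option (Fin m)) ℝ), (∀ y, (Q y).totalDegree ≤ Kf) →
          (∀ y, DepC c 2 (Q y)) → (∀ ω, B ω → z₂ (ptr F J ω) = z₂' (slam F ⌊tt * J⌋₊ ω)) →
          (∀ ω, B ω → |F.x ω (c 3) - eval (bt F ω) (G₁ (z₁ (ptr F J ω)) + Q (z₂ (ptr F J ω)))| *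
            2 ^ ⌊(pr - e1) * J⌋₊ ≤ 1) →
          (∀ ω, B ω → |ojet F (c 3) 1 (G₁ (z₁ (ptr F J ω)) + Q (z₂ (ptr F J ω))) ω| *
            2 ^ ⌊(pr - e1) * J⌋₊ ≤ 2 ^ ⌊tt * J⌋₊) →
          ∀ u, (qJets m c 0 2 1 (fun _ _ => tt) (fun l _ => pf l) Nf).P Kf e1 J F B u →
          CH (Pool.Agent.H49.Ent.cond F.p B True) (fun ω => ⌊(2 : ℝ) ^ (N₂ * J) *
              ojet F (c 3) 1 (G₁ (z₁ (ptr F J ω)) + Q (z₂ (ptr F J ω))) ω⌋)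
            (fun ω => (u ω, (z ω, F.T ω))) ≤ ρF * J))
      {c₀ : ℝ} (_ : 0 < c₀)
      (_ : Bas S' (fun J F A' => ∃ (V : Type) (z : PtT F → V) (z' : LnT F → V)
        (G : V → MvPolynomial (Option (Fin m)) ℝ), Ψ J F A' V z z' G ∧
        ∃ B : F.Ω → Prop, Sub B A' ∧ c₀ * Pe F.p A' ≤ Pe F.p B ∧
        ∃ (t : VbT F) (f : FaT F) (ρ : ℝ), VbE F c B K n N b ⌊wn * J⌋₊ z z' G t ∧
          FaE F c B K t.y t.e₁' t.W₀ t.g1 t.Pl f ∧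
          VbN P c n b Cg ne A τ kr ur η e0 eg wn wi ai fi sf s₁ s₂ t ∧
          SuG n b Cg tt aw bb e1 eF pf pr Nf N₂ Pq sn sw t f ρ)), False := by
  obtain ⟨n, A, τ, δ, Cg, ne, hn, hA, hτ, hτ1, hδ, H⟩ := vj_voidS m K b hb hbK hK
  refine ⟨n, A, τ, δ, Cg, ne, hn, hA, hτ, hτ1, hδ, ?_⟩
  intro N kr ur hkr hur θ S S' hsub P hP hS hSn c hc η e0 eg wn wi ai fi sf s₁ s₂ Ψ hΨs hθ hη hwi
    hai hfi hful tt aw bb e1 eF pf pr Nf N₂ Pq sn sw haw hfulw hNf hN₂ hPq ρF κf hρF0 hρF hκf0 hκf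
    hfree hF c₀ hc₀ hev
  refine H N kr ur hkr hur hsub hP hS hSn c hc (wn := wn) hΨs hθ hη hwi hai hfi hful haw hfulw hNf
    hN₂ hPq hρF0 hρF hκf0 hκf hfree hF hc₀ (Bas.mono 0 hev ?_)
  rintro J - F A' ⟨V, z, z', G, hG, B, hBA, hPB, t, f, ρ, hE, hFa, hV, hGn⟩
  exact ⟨V, z, z', G, hG, B, hBA, hPB, t, f, ρ, hE, hV.Wn, hFa, suv_of hV, hGn⟩

end Pool.VJ77
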