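import Pool.Agent.H90.STV.Evf
import Pool.Agent.H37.STA.Rdb
import Pool.Agent.H77.VJ.Vjp
import Pool.Agent.H6.STB.Evc

/-!
# The natural numbers of the event of a virtual static place

`ApB`: a list of balls, up to errors; `frl_of`, `frf_of`, `frn_of`: the natural numbers of the far balls,
of the far data and of the frame.
-/

set_option autoImplicit false

namespace Pool.VJ77

open Finset Real MvPolynomial
open Pool.Agent.H49.Ent Pool.Agent.H32.Dense Pool.STK Pool.KA Pool.KSAT Pool.K2S Pool.PB Pool.S6C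
open Pool.GEN Pool.CHT Pool.RCD Pool.D2F Pool.CHX Pool.D2Con Pool.D2A Pool.NVX
open Pool.STB (V3 Po Bx VbT vbt FrN)
open Pool.STA37 (ApW ApW.wi ApW.ki ApW.kb ApW.iQ ApW.iQ' ApW.u0 ApW.un ApW.ub ApW.Yh nat_of fl_add
  jb_val FrL FrF)

/-- **A list of balls**, up to errors: the first one is at the offset `o`. -/
structure ApB (N J : ℕ) (T h u Λ1 o : ℝ) (a : ℕ → ℕ) (g : ℕ → ℕ → ℕ) : Prop where
  a1 : ∀ k ≤ N, (a k : ℝ) ≤ T + (o + k * h)
  a2 : ∀ k ≤ N, T + (o + k * h) - 1 ≤ a k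
  g01 : ∀ k ≤ N, (g k 0 : ℝ) ≤ T + (o + k * h) + u
  g02 : ∀ k ≤ N, T + (o + k * h) - u ≤ g k 0
  g11 : ∀ k ≤ N, (g k 1 : ℝ) ≤ Λ1 + (o + k * h) + u
  g12 : ∀ k ≤ N, Λ1 + (o + k * h) - u ≤ g k 1
  g2J : ∀ k ≤ N, g k 2 ≤ J
  g2m : ∀ k ≤ N, (g 0 2 : ℝ) ≤ g k 2 + u

theorem ApB.mono {N J : ℕ} {T h u Λ1 o : ℝ} {a : ℕ → ℕ} {g : ℕ → ℕ → ℕ}
    (A : ApB N J T h u Λ1 o a g) (hh : 1 ≤ h) {k k' : ℕ} (hk : k ≤ k') (hk' : k' ≤ N) :
    a k ≤ a k' := by
  rcases Nat.eq_or_lt_of_le hk with h1 | h1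
  · rw [h1]
  · refine nat_of ?_
    have h2 := A.a1 k (by omega)
    have h3 := A.a2 k' hk'
    have h4 : ((k : ℝ) + 1) * h ≤ k' * h :=
      mul_le_mul_of_nonneg_right (by exact_mod_cast h1) (by linarith)
    linarith

/-- **The natural numbers of the far balls.** -/
theorem frl_of {J Nf s₁ vf : ℕ} {T h u Λ1 o : ℝ} {a w : ℕ → ℕ} {g : ℕ → ℕ → ℕ} {ι : ℕ → ℕ}
    (A : ApB Nf J T h u Λ1 o (fun k => a (ι k)) (fun k => g (ι k)))
    (hw : ∀ k ≤ Nf, w (ι k) = a (ι k)) (hu : 1 ≤ u) (huh : 2 * u ≤ h) (hs : 3 * u ≤ s₁)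
    (hv : h + 1 ≤ vf) (hJ : T + (o + Nf * h) ≤ J) (hΛ : T ≤ Λ1 + u) :
    FrL J Nf s₁ vf a w g ι where
  wa := hw
  aJ := fun k hk => by
    have h1 := A.a1 k hk
    have h2 : (k : ℝ) * h ≤ Nf * h := mul_le_mul_of_nonneg_right (by exact_mod_cast hk)
      (by linarith)
    exact_mod_cast (show ((a (ι k) : ℕ) : ℝ) ≤ J by linarith)
  am := fun k hk => A.mono (by linarith) (Nat.le_succ k) hk
  av := fun k hk => by
    have h1 := A.a1 (k + 1) hk
    have h2 := A.a2 k hk.le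
    refine nat_of ?_
    push_cast at h1 ⊢
    linarith
  n0 := fun k hk => by
    have h1 := A.g01 k hk
    have h2 := A.a2 k hk
    refine nat_of ?_
    push_cast
    linarith
  n0' := by
    have h1 := A.g02 0 (Nat.zero_le _)
    have h2 := A.a1 0 (Nat.zero_le _)
    refine nat_of ?_
    push_cast
    linarith
  n1g := by
    have h1 := A.g12 0 (Nat.zero_le _)
    have h2 := A.a1 0 (Nat.zero_le _)
    refine nat_of ?_
    push_cast
    linarith
  n1 := fun k hk => by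
    have h1 := A.g11 k hk
    have h2 := A.g12 0 (Nat.zero_le _)
    have h3 := A.a2 k hk
    have h4 := A.a1 0 (Nat.zero_le _)
    have h5 := A.mono (by linarith) (Nat.zero_le k) hk
    refine nat_of ?_
    push_cast [Nat.cast_sub h5] at h2 h4 ⊢
    linarith
  n1' := fun k hk => by
    have h1 := A.g12 k hk
    have h2 := A.g11 0 (Nat.zero_le _)
    have h3 := A.a1 k hk
    have h4 := A.a2 0 (Nat.zero_le _)
    have h5 := A.mono (by linarith) (Nat.zero_le k) hk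
    refine nat_of ?_
    push_cast [Nat.cast_sub h5] at h2 h4 ⊢
    linarith

/-- Comparing two sups, up to a shift of the last scale. -/
theorem nlp_cp {g g' : ℕ → ℕ} {l r D : ℕ} (h : ∀ j < r, g j + g' r ≤ g' j + g r + D) :
    nlp g l r ≤ nlp g' l r + D := by
  have h1 : (Finset.Icc l r).sup g ≤ (nlp g' l r + D) + g r := by
    refine Finset.sup_le fun j hj => ?_
    obtain ⟨h2, h3⟩ := Finset.mem_Icc.1 hj
    rcases Nat.lt_or_ge j r with h4 | h4
    · have h5 := h j h4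
      have h6 : g' j ≤ (Finset.Icc l r).sup g' := Finset.le_sup (f := g') (Finset.mem_Icc.2 ⟨h2, h3⟩)
      unfold nlp
      omega
    · have : j = r := by omega
      rw [this]
      omega
  unfold nlp at h1 ⊢
  omega

theorem nlp_ge {g : ℕ → ℕ} {l j r : ℕ} (h1 : l ≤ j) (h2 : j ≤ r) : g j ≤ nlp g l r + g r := by
  have h6 : g j ≤ (Finset.Icc l r).sup g := Finset.le_sup (f := g) (Finset.mem_Icc.2 ⟨h1, h2⟩)
  unfold nlp
  omega

theorem nlp_anti {g : ℕ → ℕ} {l r : ℕ} : nlp g l r ≤ nlp g 0 r := by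
  have h1 : (Finset.Icc l r).sup g ≤ (Finset.Icc 0 r).sup g :=
    Finset.sup_mono (Finset.Icc_subset_Icc (Nat.zero_le _) le_rfl)
  unfold nlp
  omega

section

variable {n b J N N₁ R₁ C₁ : ℕ} {T Q κ h Y u Λ1 Λ3 w ε : ℝ} {W k y x : ℕ} {a : ℕ → ℕ}
  {g : ℕ → ℕ → ℕ}

/-- **The natural numbers of the frame.** -/
theorem frn_of (A : ApW n b T Q κ h Y u W k y x) (B : ApB N J T h u Λ1 (-κ) a g)
    (hR : κ = R₁ * h) (hR1 : 1 ≤ R₁) (hN : R₁ * (n + 1) ≤ N₁) (hN1 : N₁ ≤ N)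
    {e₁' e₁ s v y₀ e X E g₃ : ℕ} (hw : T ≤ w * J) (hes : s + e ≤ e₁') (hs : u ≤ s)
    (hsh : (s : ℝ) ≤ 2 * h)
    (hv : 2 * h ≤ v) (hE : E ≤ e₁ + 1) (hε : ε * J ≤ u * Real.log 2)
    (hJ1 : Λ1 + e₁' + 2 * Q ≤ J) (hJ2 : T + 2 * Q ≤ J) (hyy : y₀ ≤ y)
    (hX : (X : ℝ) + 1 + b * Q + 3 * Y ≤ e₁) (hn : 0 < n) (hb : 1 ≤ b) :
    FrN J n N₁ C₁ b W k y x g₃ e₁' e₁ (C₁ * (s + v + 1))
      (X + nlp (fun j => if j < 3 then g 0 j else g₃) 0 3) s v y₀ e X a (fun _ => E) g
      (fun i => R₁ * (i + 1) - 1) (fun i => R₁ * (i + 2) - 1) w ε := by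
  have u0 := A.u0
  have un := A.un
  have uh := A.uh
  have hYh := A.Yh
  have Yκ := A.Yκ
  have hκQ : κ ≤ Q := by
    have := A.iQ (i := 1) hn
    push_cast at this
    linarith
  have hb1 : (1 : ℝ) ≤ b := by exact_mod_cast hb
  have hQ0 : 0 ≤ Q := A.κ0.trans hκQ
  have hjb : ∀ i < n, R₁ * (i + 1) - 1 ≤ N₁ := fun i hi => by
    have h1 : R₁ * (i + 1) ≤ R₁ * (n + 1) := Nat.mul_le_mul_left _ (by omega)
    omega
  have hji : ∀ i < n, R₁ * (i + 2) - 1 ≤ N₁ := fun i hi => by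
    have h1 : R₁ * (i + 2) ≤ R₁ * (n + 1) := Nat.mul_le_mul_left _ (by omega)
    omega
  have hbQ : ∀ i < n, (b : ℝ) * ((i + 1) * κ) ≤ b * Q := fun i hi =>
    mul_le_mul_of_nonneg_left (A.iQ' hi) (by linarith)
  have hl2 : 0 < Real.log 2 := Real.log_pos one_lt_two
  have y2 := A.y2
  refine
    { Ww := ?_
      es := hes
      jb0 := fun i hi => ?_
      ji0 := fun i hi => ?_
      Cs := le_rfl
      sy := ?_
      J1 := ?_
      J2 := ?_
      yy := hyy
      lz0 := fun l _ => Nat.add_le_add_left nlp_anti _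
      nl := fun i hi l hl => ?_ }
  · have := A.W1
    have := A.κ0
    linarith
  · have hk := hjb i hi
    have e1 := jb_val hR hR1 i
    have w1 := (A.wi hi.le).1
    have w2 := (A.wi hi.le).2
    have a1 := B.a1 _ (hk.trans hN1)
    have a2 := B.a2 _ (hk.trans hN1)
    have g2 := B.g02 _ (hk.trans hN1)
    rw [e1] at a1 a2 g2
    refine ⟨hk, nat_of (by linarith), nat_of (by push_cast at w1 w2 ⊢; linarith),
      nat_of (by push_cast; linarith), hE⟩
  · have hk := hji i hi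
    have e1 := jb_val hR hR1 (i + 1)
    have e2 : i + 1 + 1 = i + 2 := rfl
    rw [e2] at e1
    have w1 := (A.wi (i := i + 1) hi).1
    have w2 := (A.wi (i := i + 1) hi).2
    have a1 := B.a1 _ (hk.trans hN1)
    have a2 := B.a2 _ (hk.trans hN1)
    rw [e1] at a1 a2
    have e3 : W + (k + i * k + k) = W + k + (i + 1) * k := by ring
    rw [e3]
    push_cast at w1 w2 a1 a2
    refine ⟨hk, nat_of (by push_cast; linarith), nat_of (by push_cast; linarith)⟩
  · have h1 : ((s : ℝ) + 1) * Real.log 2 + u * Real.log 2 ≤ y * Real.log 2 := by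
      rw [← add_mul]
      exact mul_le_mul_of_nonneg_right (by linarith) hl2.le
    linarith
  · have g1 := B.g11 0 (Nat.zero_le _)
    have k1 := (A.ki (le_refl n)).1
    have hY := A.Q
    have : g 0 1 + e₁' + 1 + k + n * k = g 0 1 + e₁' + 1 + (k + n * k) := by ring
    rw [this]
    refine nat_of ?_
    push_cast at g1 k1 ⊢
    linarith
  · have w1 := (A.wi (le_refl n)).1
    have hY := A.Q
    refine nat_of ?_
    push_cast at w1 ⊢
    linarith
  · have hk := hjb i hi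
    have e1 := jb_val hR hR1 i
    have b1 := (A.kb hi.le).1
    have hbq := hbQ i hi
    obtain ⟨D, hD⟩ : ∃ D, D = b * (k + i * k) + x + ⌊2 * h + 4 * u⌋₊ := ⟨_, rfl⟩
    have hD1 : (D : ℝ) ≤ b * ((i + 1) * κ) + u + Y + (2 * h + 4 * u) := by
      have := Nat.floor_le (show 0 ≤ 2 * h + 4 * u by linarith)
      have := A.x1
      rw [hD]
      push_cast at b1 ⊢
      linarith
    have hD2 : 2 * h + 4 * u ≤ (⌊2 * h + 4 * u⌋₊ : ℝ) + 1 := (Nat.lt_floor_add_one _).le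
    have hi0 : (0 : ℝ) ≤ i * κ := mul_nonneg (Nat.cast_nonneg _) A.κ0
    have h1 : nlp (fun j => if j < 3 then g 0 j else g₃) l 3 ≤
        nlp (fun j => if j < 3 then g (R₁ * (i + 1) - 1) j else
        g₃ + b * (k + i * k) + x) l 3 + D := by
      refine nlp_cp fun j hj => ?_
      simp only [lt_irrefl, if_false, if_pos hj]
      have key : g 0 j ≤ g (R₁ * (i + 1) - 1) j + ⌊2 * h + 4 * u⌋₊ := by
        refine nat_of ?_
        push_cast
        have : j = 0 ∨ j = 1 ∨ j = 2 := by omega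
        rcases this with rfl | rfl | rfl
        · have h3 := B.g01 0 (Nat.zero_le _)
          have h4 := B.g02 _ (hk.trans hN1)
          rw [e1] at h4
          push_cast at h3
          linarith
        · have h3 := B.g11 0 (Nat.zero_le _)
          have h4 := B.g12 _ (hk.trans hN1)
          rw [e1] at h4
          push_cast at h3
          linarith
        · have h3 := B.g2m _ (hk.trans hN1)
          linarith
      omega
    have h2 : X + D + 1 ≤ e₁ := by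
      refine nat_of ?_
      push_cast
      linarith
    omega

/-- **The natural numbers of the far data.** -/
theorem frf_of (A : ApW n b T Q κ h Y u W k y x) {hf o Kf : ℝ} {Nf : ℕ} {af : ℕ → ℕ}
    {gf : ℕ → ℕ → ℕ} (B : ApB Nf J T hf u Λ1 o af gf) (hW : W = af Nf) (hoN : o + Nf * hf = -κ)
    (hf0 : 1 ≤ hf) {C₂ e₁' s v sf vf ef kf g1 : ℕ} (hw : T ≤ w * J)
    (hes : sf + ef ≤ e₁') (hNs : Nf ≤ sf) (hs : 4 * u ≤ sf) (hg1 : (g1 : ℝ) ≤ Λ1 - κ + u)
    (hCo : C₂ * (s + v + sf + vf + 1) + sf + 1 ≤ y) (hsy : (sf : ℝ) + 1 + u ≤ y)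
    (hε : ε * J ≤ u * Real.log 2) (hkf : (kf : ℝ) ≤ Kf + 1) (hJ1 : Λ1 + e₁' + Kf + 3 * u ≤ J)
    (hJ2 : T + Kf + u ≤ J) (hKf : 0 ≤ Kf) :
    FrF J Nf C₂ W k y e₁' s v (af 0) kf g1 sf vf ef af gf w ε := by
  have hl2 : 0 < Real.log 2 := Real.log_pos one_lt_two
  have u0 := A.u0
  have hNh : (0 : ℝ) ≤ Nf * hf := mul_nonneg (Nat.cast_nonneg _) (by linarith)
  have a01 := B.a1 0 (Nat.zero_le _)
  have a02 := B.a2 0 (Nat.zero_le _)
  have W1 := A.W1
  have W2 := A.W2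
  have t1 := A.t1
  have t2 := A.t2
  have hκ := A.κ0
  push_cast at a01 a02
  have hWW : af 0 ≤ W := by
    rw [hW]
    exact B.mono hf0 (Nat.zero_le _) le_rfl
  have hc : ((W - af 0 : ℕ) : ℝ) = W - af 0 := Nat.cast_sub hWW
  have hWk : af 0 ≤ W + k := by omega
  have hc' : ((W + k - af 0 : ℕ) : ℝ) = W + k - af 0 := by
    rw [Nat.cast_sub hWk]
    push_cast
    ring
  have g01 := B.g11 0 (Nat.zero_le _)
  have g02 := B.g12 0 (Nat.zero_le _)
  push_cast at g01 g02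
  have e1 := hoN
  refine
    { Ww := by linarith
      es := hes
      Nfs := hNs
      AN := hW.symm
      WW := hWW
      WJ := nat_of (by linarith)
      g1 := nat_of (by
        push_cast
        rw [hc]
        linarith)
      Co := hCo
      sy := ?_
      J1 := nat_of (by
        push_cast
        rw [hc']
        linarith)
      J2 := nat_of (by
        push_cast
        rw [hc']
        linarith) }
  have h1 : ((sf : ℝ) + 1) * Real.log 2 + u * Real.log 2 ≤ y * Real.log 2 := by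
    rw [← add_mul]
    exact mul_le_mul_of_nonneg_right (by linarith) hl2.le
  linarith

end

end Pool.VJ77
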