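import Pool.Agent.H77.VJ.Nu1

/-!
# The natural numbers of the event of a virtual static place, second part

`suv_of`: the numbers of the target `c 3` and of the windows; `sug_of`: the numbers of the far data and
of the labels.
-/

set_option autoImplicit false

namespace Pool.VJ77

open Finset Real MvPolynomial
open Pool.Agent.H49.Ent Pool.Agent.H32.Dense Pool.STK Pool.KA Pool.KSAT Pool.K2S Pool.PB Pool.S6C
open Pool.GEN Pool.CHT Pool.RCD Pool.D2F Pool.CHX Pool.D2Con Pool.D2A Pool.NVX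
open Pool.STB (V3 Po Bx VbT vbt FrN)
open Pool.STA37 (ApW ApW.wi ApW.ki ApW.kb ApW.iQ ApW.iQ' ApW.u0 ApW.un ApW.ub ApW.Yh nat_of fl_add
  jb_val FrL FrF fat FaT SuG)

variable {m : ℕ}

section

variable {n b J N N₁ R₁ : ℕ} {T Q κ h Y u Λ1 Λ3 : ℝ} {W k y x : ℕ} {a : ℕ → ℕ}
  {g : ℕ → ℕ → ℕ} {F : Fam m J} {c : ℕ → Fin m}
  {Gn : ℕ → PtT F → ℕ → MvPolynomial (Option (Fin m)) ℝ}
  {Hn : ℕ → LnT F → ℕ → MvPolynomial (Option (Fin m)) ℝ}
  {pP pPf : PtT F → ℕ → MvPolynomial (Option (Fin m)) ℝ}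
  {pH pHf : LnT F → ℕ → MvPolynomial (Option (Fin m)) ℝ}
  {zP : PtT F → MvPolynomial (Option (Fin m)) ℝ} {zH : LnT F → MvPolynomial (Option (Fin m)) ℝ}
  {f : ℕ → PtT F → Po} {f' : ℕ → LnT F → Po} {kp : LnT F → Po} {xP : PtT F → ℝ} {xH : LnT F → ℝ}

/-- **The numbers of the target and of the windows.** -/
theorem suv_vbt (A : ApW n b T Q κ h Y u W k y x) (B : ApB N J T h u Λ1 (-κ) a g)
    (hR : κ = R₁ * h) (hR1 : 1 ≤ R₁) (hN : R₁ * (n + 1) ≤ N) (hn : 0 < n)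
    {e₁' e₁ e₂ st lz g₃ : ℕ} {jb ji : ℕ → ℕ} (hjb : jb = fun i => R₁ * (i + 1) - 1)
    (g31 : (g₃ : ℝ) ≤ Λ3 - b * κ + u) (g32 : Λ3 - b * κ - u ≤ g₃)
    {P : List (Fin m) × Fin m → ℝ → ℝ → ℝ} {Cg ne : ℕ} {A₀ τ kr ur η e0 eg : ℝ} {wi ai : ℕ → ℚ}
    {fi : ℕ → ℝ} {sf : ℕ → ℕ → ℝ} (hkr : kr * J ≤ κ) (hy : y = ⌊ur * J⌋₊)
    (hH : A₀ * (2 * Y + 1) ≤ τ * (κ - 1)) (hA₀ : 0 ≤ A₀) (hτ : 0 ≤ τ)
    (hwi : ∀ i < n, T + i * κ + u ≤ wi i * J)
    (hw2 : ∀ i < n, (bet P c 3 (wi i) (wi i) + η) * J ≤ Λ3 + b * (i * κ + h) + u)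
    (hai : ∀ i < n, T + (i + 1) * κ + 2 * u ≤ ai i * J)
    (ha0 : ∀ i < n, (bet P c 0 (ai i) (ai i) + η) * J ≤ T + (i + 1) * κ + h + u)
    (ha1 : ∀ i < n, (bet P c 1 (ai i) (ai i) + η) * J ≤ Λ1 + (i + 1) * κ + h + u)
    (hfi : ∀ i < n, T + (i + 1) * κ + 2 * u ≤ fi i * J)
    (hf0 : ∀ i < n, sf i 0 * J ≤ T + (i + 1) * κ + h + u)
    (hf1 : ∀ i < n, sf i 1 * J ≤ Λ1 + (i + 1) * κ + h + u)
    (hΛ : T ≤ Λ1 + u) (he1 : 2 * u ≤ e₁') (he12 : e₁' + 1 ≤ e₂) (he2y : y + 2 * x + 6 ≤ e₂)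
    (he2 : e₂ ≤ ⌊e0 * J⌋₊) (he1g : e₁ + 1 ≤ ⌊eg * J⌋₊) (hJ1 : Λ1 + e₂ + 3 * Q ≤ J)
    (hJ0 : T + 3 * Q ≤ J) (hJ2 : Λ3 + (b + 1) * Q ≤ J) (hst : st + 1 ≤ 2 * y)
    (hgr : e₁' + ne * (κ + 1) + Cg * (Y + 1) + b * Q + 2 * Y ≤ e₁) :
    SuV P c 3 n b Cg ne A₀ τ kr ur η e0 eg wi ai fi sf
      (vbt F c W k y x g₃ e₁' e₁ e₂ st lz a g jb ji Gn Hn pP pH zP zH f f' kp) := by
  have u0 := A.u0
  have uh := A.uh
  have hYh := A.Yh
  have Yκ := A.Yκ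
  have t1 := A.t1
  have t2 := A.t2
  have hκQ : κ ≤ Q := by
    have := A.iQ (i := 1) hn
    push_cast at this
    linarith
  have hQ0 : 0 ≤ Q := A.κ0.trans hκQ
  have hb0 : (0 : ℝ) ≤ b := Nat.cast_nonneg _
  have y1 := A.y1
  have y2 := A.y2
  have x1 := A.x1
  have x2 := A.x2
  have k1 := A.k1
  have k2 := A.k2
  have W1 := A.W1
  have W2 := A.W2
  have hbh : 0 ≤ (b : ℝ) * h := mul_nonneg hb0 (by linarith)
  have g01 := B.g11 0 (Nat.zero_le _)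
  have g02 := B.g12 0 (Nat.zero_le _)
  have e0 : -κ + ((0 : ℕ) : ℝ) * h = -κ := by push_cast; ring
  rw [e0] at g01 g02
  have hjN : ∀ i < n, R₁ * (i + 1) - 1 ≤ N := fun i hi => by
    have h1 : R₁ * (i + 1) ≤ R₁ * (n + 1) := Nat.mul_le_mul_left _ (by omega)
    omega
  have hwin : ∀ i < n, W + k + i * k + k = W + k + (i + 1) * k := fun i _ => by ring
  have hWi : ∀ i < n, W + k + i * k ≤ ⌊(wi i : ℝ) * J⌋₊ := fun i hi =>
    Nat.le_floor ((A.wi hi.le).1.trans (hwi i hi))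
  have hki2 : ∀ i < n, ((k + i * k + k : ℕ) : ℝ) ≤ (i + 1) * κ + κ + u ∧
      (i + 1) * κ + κ - u ≤ ((k + i * k + k : ℕ) : ℝ) := fun i hi => by
    have h1 := (A.ki (i := i + 1) hi).1
    have h2 := (A.ki (i := i + 1) hi).2
    have e : k + i * k + k = k + (i + 1) * k := by ring
    rw [e]
    push_cast at h1 h2 ⊢
    constructor <;> linarith
  have hwi2 : ∀ i < n, ((W + k + i * k + k : ℕ) : ℝ) ≤ T + (i + 1) * κ + u ∧
      T + (i + 1) * κ - u ≤ ((W + k + i * k + k : ℕ) : ℝ) := fun i hi => by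
    have h1 := (A.wi (i := i + 1) hi).1
    have h2 := (A.wi (i := i + 1) hi).2
    rw [hwin i hi]
    push_cast at h1 h2 ⊢
    constructor <;> linarith
  have hi0 : ∀ i : ℕ, (0 : ℝ) ≤ i * κ := fun i => mul_nonneg (Nat.cast_nonneg _) A.κ0
  have hiQ : ∀ i < n, ((i : ℝ) + 1) * κ ≤ Q := fun i hi => A.iQ' hi
  have hbQ : ∀ i < n, (b : ℝ) * ((i + 1) * κ) ≤ b * Q := fun i hi =>
    mul_le_mul_of_nonneg_left (A.iQ' hi) hb0
  subst hjb
  refine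
    { kJ := ?_
      yJ := hy
      H := ?_
      Wi := hWi
      Wa := fun i hi => Nat.le_floor ((hwi2 i hi).1.trans (by have := hai i hi; linarith))
      Wf := fun i hi => Nat.le_floor ((hwi2 i hi).1.trans (by have := hfi i hi; linarith))
      l2 := fun i hi => ?_
      l0 := fun i hi => ?_
      l1 := fun i hi => ?_
      Wg := ?_
      We := ?_
      e12 := he12
      e2y := he2y
      e2J := he2
      e1J := he1g
      J1 := fun i hi => ?_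
      sy := hst
      gcJ := fun i hi l hl => ?_
      pJ := fun i hi => ?_
      gr := fun i hi l hl => ?_
      f0 := fun i hi => ?_
      f1 := fun i hi => ?_ }
  · show kr * J ≤ (k : ℝ) + 1
    linarith
  · show A₀ * ((y : ℝ) + x + 1) ≤ τ * k
    calc A₀ * ((y : ℝ) + x + 1) ≤ A₀ * (2 * Y + 1) := mul_le_mul_of_nonneg_left (by linarith) hA₀
      _ ≤ τ * (κ - 1) := hH
      _ ≤ τ * k := mul_le_mul_of_nonneg_left k2 hτ
  · show ⌊(bet P c 3 (wi i) (wi i) + η) * J⌋₊ + (W + k + i * k) ≤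
      (g₃ + b * (k + i * k) + x) + ⌊(wi i : ℝ) * J⌋₊
    have h1 := hw2 i hi
    have h2 := (A.kb hi.le).2
    have h3 := (A.wi hi.le).1
    have h4 := hwi i hi
    have h5 : (wi i : ℝ) * J ≤ (⌊(wi i : ℝ) * J⌋₊ : ℝ) + 1 := (Nat.lt_floor_add_one _).le
    have h6 := hWi i hi
    refine fl_add ?_ (by omega)
    push_cast at h2 h3 ⊢
    linarith
  · show ⌊(bet P c 0 (ai i) (ai i) + η) * J⌋₊ ≤ ⌊(ai i : ℝ) * J⌋₊ + x
    have h1 := ha0 i hi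
    have h4 := hai i hi
    have h5 : (ai i : ℝ) * J ≤ (⌊(ai i : ℝ) * J⌋₊ : ℝ) + 1 := (Nat.lt_floor_add_one _).le
    refine Nat.floor_le_of_le ?_
    push_cast
    linarith
  · show ⌊(bet P c 1 (ai i) (ai i) + η) * J⌋₊ + W ≤ g 0 1 + ⌊(ai i : ℝ) * J⌋₊ + x
    have h1 := ha1 i hi
    have h4 := hai i hi
    have h5 : (ai i : ℝ) * J ≤ (⌊(ai i : ℝ) * J⌋₊ : ℝ) + 1 := (Nat.lt_floor_add_one _).le
    have hik := hi0 i
    refine fl_add (by push_cast; linarith) ?_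
    refine nat_of ?_
    push_cast
    linarith
  · show W ≤ g 0 1 + x
    refine nat_of ?_
    push_cast
    linarith
  · show W ≤ g 0 1 + e₁'
    refine nat_of ?_
    push_cast
    linarith
  · show e₂ + g 0 1 + (k + i * k + k) + x + 4 ≤ J
    have h1 := (hki2 i hi).1
    have h2 := hiQ i hi
    refine nat_of ?_
    push_cast at h1 ⊢
    linarith
  · show g (R₁ * (i + 1) - 1) l ≤ J
    have hk := hjN i hi
    have e1 := jb_val hR hR1 i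
    have h2 := hiQ i hi
    have : l = 0 ∨ l = 1 ∨ l = 2 := by omega
    rcases this with rfl | rfl | rfl
    · refine nat_of ?_
      have h3 := B.g01 _ hk
      rw [e1] at h3
      linarith
    · refine nat_of ?_
      have h3 := B.g11 _ hk
      rw [e1] at h3
      have : (0 : ℝ) ≤ e₂ := Nat.cast_nonneg _
      linarith
    · exact B.g2J _ hk
  · show g₃ + b * (k + i * k) + x ≤ J
    have h2 := (A.kb hi.le).1
    have h3 := hbQ i hi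
    have h4 : 0 ≤ b * κ := mul_nonneg hb0 A.κ0
    refine nat_of ?_
    push_cast at h2 ⊢
    linarith
  · show g 0 1 + (if l = 0 then e₁' else 0) + ne * k + Cg * (y + 1) ≤
      g₃ + (e₁ + nlp (fun j => if j < 3 then g (R₁ * (i + 1) - 1) j else
        g₃ + b * (k + i * k) + x) l 3)
    have hk := hjN i hi
    have e1 := jb_val hR hR1 i
    have h1 := nlp_ge (g := fun j => if j < 3 then g (R₁ * (i + 1) - 1) j else
        g₃ + b * (k + i * k) + x) (l := l) (j := 1) (r := 3) (by omega) (by norm_num)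
    simp only [lt_irrefl, if_false, if_pos (show 1 < 3 by norm_num)] at h1
    have h3 := B.g12 _ hk
    rw [e1] at h3
    have h4 := (A.kb hi.le).1
    have h5 := hbQ i hi
    have h6 : (ne : ℝ) * k ≤ ne * (κ + 1) := mul_le_mul_of_nonneg_left k1 (Nat.cast_nonneg _)
    have h7 : (Cg : ℝ) * (y + 1) ≤ Cg * (Y + 1) :=
      mul_le_mul_of_nonneg_left (by linarith) (Nat.cast_nonneg _)
    have h8 := hi0 i
    have h9 : g 0 1 + e₁' + ne * k + Cg * (y + 1) + (b * (k + i * k) + x) ≤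
        e₁ + g (R₁ * (i + 1) - 1) 1 := by
      refine nat_of ?_
      push_cast at h4 ⊢
      linarith
    have h10 : (if l = 0 then e₁' else 0) ≤ e₁' := by split <;> omega
    omega
  · show sf i 0 * J ≤ (W : ℝ) + k + i * k + k + x
    have h1 := (hwi2 i hi).2
    have h2 := hf0 i hi
    push_cast at h1
    linarith
  · show sf i 1 * J ≤ (g 0 1 : ℝ) + (k + i * k + k) + x
    have h1 := (hki2 i hi).2
    have h2 := hf1 i hi
    push_cast at h1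
    linarith

/-- **The numbers of the far data and of the labels.** -/
theorem sug_vbt (A : ApW n b T Q κ h Y u W k y x) (B : ApB N J T h u Λ1 (-κ) a g)
    (hn : 0 < n) {e₁' e₁ e₂ st lz g₃ : ℕ} {jb ji : ℕ → ℕ}
    (g31 : (g₃ : ℝ) ≤ Λ3 - b * κ + u) (g32 : Λ3 - b * κ - u ≤ g₃)
    {Nf' : ℕ} {hf o Kf : ℝ} {af : ℕ → ℕ} {gf : ℕ → ℕ → ℕ} (Bf : ApB Nf' J T hf u Λ1 o af gf)
    {kf Cg : ℕ} {tt aw bb e1 eF : ℝ} {pf : ℕ → ℝ} {pr : ℝ} {Nf : ℕ → ℕ → ℝ} {N₂ : ℝ}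
    {Pq : Fin 2 → ℝ} {sn : ℕ → ℝ → ℝ} {sw : ℕ → ℝ} (htt : W + k = ⌊tt * J⌋₊)
    (haw : aw * J = T + Kf) (hkf : ⌊tt * J⌋₊ + kf = ⌊aw * J⌋₊)
    (hbb : T + o ≤ bb * J) (hbb' : bb ≤ 1) (hΛ : T ≤ Λ1 + u) (hoK : Kf + 2 * u ≤ -o)
    (hJf : Λ1 + e₁' + Kf + 4 * u ≤ J)
    (hkk : (b + 2) * Q + Cg * (Y + 1) + 4 * u ≤ Kf) (hb : 3 ≤ b)
    (hN₂ : Λ3 + (b - 1) * Q - (b - 2) * κ + 5 * u ≤ T + N₂ * J)
    (h00 : Nf 0 0 * J + 3 * Y ≤ T + Kf) (h10 : Nf 1 0 * J + 3 * Y ≤ Λ1 + Kf)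
    (h01 : Nf 0 1 * J + 3 * Y ≤ Kf) (h11 : Nf 1 1 * J + T + 3 * Y ≤ Λ1 + Kf)
    (hP0 : Kf + 1 ≤ Pq 0 * J) (hP1 : Kf + Λ1 + 3 * u ≤ Pq 1 * J + T)
    (hw0 : sw 0 * J ≤ T + Kf + u) (hw1 : sw 1 * J ≤ Λ1 + Kf + u)
    (hq0 : (pf 0 - e1) * J + 3 * Y ≤ T) (hq1 : (pf 1 - e1) * J + 3 * Y ≤ Λ1)
    (hq2 : (pr - e1) * J + Cg * (Y + 1) + 4 * u ≤ Λ3) (hq2' : Cg * (Y + 1) + 4 * u ≤ Λ3)
    (hr0 : (sn 0 bb - eF) * J + 2 * Y ≤ T + o) (hr1 : (sn 1 bb - eF) * J + 2 * Y ≤ Λ1 + o)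
    (hYT : 4 * Y ≤ T + o) :
    SuG n b Cg tt aw bb e1 eF pf pr Nf N₂ Pq sn sw
      (vbt F c W k y x g₃ e₁' e₁ e₂ st lz a g jb ji Gn Hn pP pH zP zH f f' kp)
      (fat F c W k (af 0) kf gf pPf pHf xP xH)
      (2 ^ g 0 1 * 2 ^ af 0 / (2 ^ W * 2 ^ gf 0 1)) := by
  have u0 := A.u0
  have uh := A.uh
  have hYh := A.Yh
  have Yκ := A.Yκ
  have t1 := A.t1
  have t2 := A.t2
  have hκQ : κ ≤ Q := by
    have := A.iQ (i := 1) hn
    push_cast at this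
    linarith
  have hκ0 := A.κ0
  have hQ0 : 0 ≤ Q := A.κ0.trans hκQ
  have hb0 : (3 : ℝ) ≤ b := by exact_mod_cast hb
  have y1 := A.y1
  have y2 := A.y2
  have x1 := A.x1
  have x2 := A.x2
  have k1 := A.k1
  have k2 := A.k2
  have W1 := A.W1
  have W2 := A.W2
  have g01 := B.g11 0 (Nat.zero_le _)
  have g02 := B.g12 0 (Nat.zero_le _)
  have e0 : -κ + ((0 : ℕ) : ℝ) * h = -κ := by push_cast; ring
  rw [e0] at g01 g02
  have af1 := Bf.a1 0 (Nat.zero_le _)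
  have af2 := Bf.a2 0 (Nat.zero_le _)
  have gf1 := Bf.g11 0 (Nat.zero_le _)
  have gf2 := Bf.g12 0 (Nat.zero_le _)
  have e0' : o + ((0 : ℕ) : ℝ) * hf = o := by push_cast; ring
  rw [e0'] at af1 af2 gf1 gf2
  have hCg : (Cg : ℝ) * (y + 1) ≤ Cg * (Y + 1) :=
    mul_le_mul_of_nonneg_left (by linarith) (Nat.cast_nonneg _)
  have hCg0 : (0 : ℝ) ≤ Cg * (Y + 1) := mul_nonneg (Nat.cast_nonneg _) (by linarith)
  have hbQ0 : 3 * Q ≤ b * Q := mul_le_mul_of_nonneg_right hb0 hQ0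
  -- the far length
  have hft : ((⌊tt * J⌋₊ : ℕ) : ℝ) ≤ T := by
    rw [← htt]
    push_cast
    exact t1
  have hft' : T - 1 ≤ ((⌊tt * J⌋₊ : ℕ) : ℝ) := by
    rw [← htt]
    push_cast
    exact t2
  have haw0 : 0 ≤ aw * J := by
    rw [haw]
    linarith
  have hfa := Nat.floor_le haw0
  have hfa' : aw * J - 1 ≤ ((⌊aw * J⌋₊ : ℕ) : ℝ) := by
    have := Nat.lt_floor_add_one (aw * J)
    linarith
  have hkfr : ((⌊tt * J⌋₊ : ℕ) : ℝ) + kf = ((⌊aw * J⌋₊ : ℕ) : ℝ) := by exact_mod_cast hkf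
  have kf1 : (kf : ℝ) ≤ Kf + 1 := by linarith
  have kf2 : Kf - 1 ≤ (kf : ℝ) := by linarith
  have hWf : af 0 ≤ W + k := nat_of (by push_cast; linarith)
  have hd : ((W + k - af 0 : ℕ) : ℝ) = W + k - af 0 := by
    rw [Nat.cast_sub hWf]
    push_cast
    ring
  have hdd : af 0 + (W + k - af 0) = W + k := by omega
  have hwfk : af 0 + (W + k - af 0) + kf = ⌊aw * J⌋₊ := by rw [hdd, htt]; exact hkf
  have hi0 : ∀ i : ℕ, (0 : ℝ) ≤ i * κ := fun i => mul_nonneg (Nat.cast_nonneg _) A.κ0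
  have hbQ : ∀ i < n, (b : ℝ) * ((i + 1) * κ) ≤ b * Q := fun i hi =>
    mul_le_mul_of_nonneg_left (A.iQ' hi) (by linarith)
  refine
    { ttJ := htt.symm
      bbJ := Nat.le_floor (by
        show ((af 0 : ℕ) : ℝ) ≤ bb * J
        linarith)
      bbJ' := ?_
      ht := hdd
      fJ := hwfk.le
      f1 := ?_
      g1 := ?_
      kd := ?_
      kk := ?_
      nk := fun i hi => ?_
      iw := fun i hi => ?_
      ρ0 := by positivity
      ρ1 := ?_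
      ρe := ?_
      s := fun i hi => ?_
      N00 := ?_
      N10 := ?_
      N01 := ?_
      N11 := ?_
      P0 := ?_
      P1 := ?_
      w0 := ?_
      w1 := ?_
      q0 := ?_
      q1 := ?_
      q2 := ?_
      r0 := ?_
      r1 := ?_ }
  · refine Nat.floor_le_of_le ?_
    calc bb * J ≤ 1 * J := mul_le_mul_of_nonneg_right hbb' (Nat.cast_nonneg J)
      _ = J := one_mul _
  · show gf 0 1 + e₁' + 1 + ((W + k - af 0) + kf) ≤ J
    refine nat_of ?_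
    push_cast
    rw [hd]
    linarith
  · show g 0 1 + e₁' + (k + n * k) ≤ J
    have h1 := (A.ki (le_refl n)).1
    have h2 := A.Q
    refine nat_of ?_
    push_cast at h1 ⊢
    linarith
  · show kf ≤ W + k - af 0
    refine nat_of ?_
    rw [hd]
    linarith
  · show k ≤ kf
    refine nat_of ?_
    linarith
  · show b * (k + i * k) + i * k + Cg * (y + 1) ≤ kf
    have h1 := (A.kb hi.le).1
    have h2 := hbQ i hi
    have h3 := (A.ki hi.le).1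
    have h4 := A.iQ' hi
    have h5 : (0 : ℝ) ≤ k := Nat.cast_nonneg _
    refine nat_of ?_
    push_cast at h1 h3 ⊢
    linarith
  · show W + k + i * k + k ≤ ⌊aw * J⌋₊
    have h1 := (A.wi (i := i + 1) hi).1
    have h2 := A.iQ' hi
    refine Nat.le_floor ?_
    push_cast at h1 ⊢
    linarith
  · show 2 ^ g 0 1 * 2 ^ af 0 / (2 ^ W * 2 ^ gf 0 1) ≤ (2 : ℝ) ^ y
    rw [div_le_iff₀ (by positivity), ← pow_add, ← pow_add, ← pow_add]
    refine pow_le_pow_right₀ one_le_two (nat_of ?_)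
    push_cast
    linarith
  · show (2 : ℝ) ^ g 0 1 / 2 ^ W =
      2 ^ g 0 1 * 2 ^ af 0 / (2 ^ W * 2 ^ gf 0 1) * (2 ^ gf 0 1 / 2 ^ af 0)
    have h1 : (2 : ℝ) ^ gf 0 1 ≠ 0 := by positivity
    have h2 : (2 : ℝ) ^ af 0 ≠ 0 := by positivity
    have h3 : (2 : ℝ) ^ W ≠ 0 := by positivity
    field_simp
  · show ((g₃ + b * (k + i * k) : ℕ) : ℝ) ≤ N₂ * J + ((W + i * k : ℕ) : ℝ)
    have h1 := (A.kb hi.le).1
    have h2 := (A.wi hi.le).2
    have h3 : ((i : ℝ) + 1) * κ ≤ Q := A.iQ' hi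
    have h4 : ((b : ℝ) - 1) * ((i + 1) * κ) ≤ (b - 1) * Q :=
      mul_le_mul_of_nonneg_left h3 (by linarith)
    push_cast at h1 h2 ⊢
    linarith
  · show Nf 0 0 * J + ((2 * y : ℕ) : ℝ) ≤ ((af 0 + (W + k - af 0) + kf : ℕ) : ℝ)
    rw [hwfk]
    push_cast
    linarith
  · show Nf 1 0 * J + ((2 * y : ℕ) : ℝ) ≤ ((gf 0 1 + (W + k - af 0) + kf : ℕ) : ℝ)
    push_cast
    rw [hd]
    linarith
  · show Nf 0 1 * J + ((2 * y : ℕ) : ℝ) ≤ ((kf : ℕ) : ℝ)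
    push_cast
    linarith
  · show Nf 1 1 * J + ((af 0 + (2 * y + 1) : ℕ) : ℝ) ≤ ((gf 0 1 + kf : ℕ) : ℝ)
    push_cast
    linarith
  · show (kf : ℝ) ≤ Pq 0 * J
    linarith
  · show (kf : ℝ) + gf 0 1 ≤ Pq 1 * J + af 0
    linarith
  · show sw 0 * J ≤ (af 0 : ℝ) + (W + k - af 0 : ℕ) + kf + x
    rw [hd]
    linarith
  · show sw 1 * J ≤ (gf 0 1 : ℝ) + ((W + k - af 0 : ℕ) + kf) + x
    rw [hd]
    linarith
  · show ⌊(pf 0 - e1) * J⌋₊ + 2 * y ≤ af 0 + (W + k - af 0)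
    rw [hdd]
    refine fl_add (by push_cast; linarith) (nat_of ?_)
    push_cast
    linarith
  · show ⌊(pf 1 - e1) * J⌋₊ + 2 * y ≤ gf 0 1 + (W + k - af 0)
    refine fl_add ?_ (nat_of ?_)
    · push_cast
      rw [hd]
      linarith
    · push_cast
      rw [hd]
      linarith
  · show ⌊(pr - e1) * J⌋₊ + Cg * (y + 1) ≤ g₃ + b * k
    have h1 := (A.kb (Nat.zero_le n)).2
    have h2 : k + 0 * k = k := by ring
    rw [h2] at h1
    push_cast at h1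
    refine fl_add ?_ (nat_of ?_)
    · push_cast
      linarith
    · push_cast
      linarith
  · show ⌊(sn 0 bb - eF) * J⌋₊ + y ≤ af 0
    refine fl_add (by push_cast; linarith) (nat_of (by linarith))
  · show ⌊(sn 1 bb - eF) * J⌋₊ + y ≤ gf 0 1
    refine fl_add (by push_cast; linarith) (nat_of (by linarith))

end

end Pool.VJ77
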