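import Pool.Agent.H77.VJ.Nu2

/-!
# The natural numbers at one dimension

`VNu`: the constants; `VNj`: the natural numbers at one dimension.
-/

set_option autoImplicit false

namespace Pool.VJ77

open Finset Real
open Pool.STA37 (nat_of)

/-- **The constants.** -/
structure VNu (b n R₁ ne Cg C₀ C C₁ C₂ Cf E : ℕ) (A τ kr v ρ μ K xq : ℝ) : Prop where
  hb : 3 ≤ b
  n0 : 0 < n
  R0 : 1 ≤ R₁
  c0 : 1 ≤ C₀
  cf : 1 ≤ Cf
  A0 : 0 ≤ A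
  τ0 : 0 ≤ τ
  v0 : 0 < v
  μ0 : 0 < μ
  xq0 : 0 ≤ xq
  kR : kr = R₁ * ρ
  e1 : 280 * μ ≤ ρ
  e2 : C₀ * (16 * μ) ≤ ρ
  e3 : Cf * (200 * μ) ≤ ρ
  r1 : (10 * b + 40) * ρ ≤ v
  r2 : C * (8 * ρ) ≤ v
  r3 : C₁ * (8 * ρ) ≤ v
  r4 : C₂ * (20 * ρ) ≤ v
  r5 : ((E : ℝ) + 1) * (C + 2) * (8 * ρ) ≤ v
  w1 : 40 * v ≤ kr
  w2 : 6 * A * v ≤ τ * kr
  w3 : Cg * (8 * v) ≤ kr
  kK : xq + (ne + b * (n + 2) + n + 10) * kr ≤ K

/-- **The numbers at one dimension.** -/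
structure VNj (b n ne Cg C₂ E : ℕ) (Q κ h Y u z E0 : ℝ) (U sN vN y₀ X s₁ sf e₁' e₁ e₂ st
    eN y : ℕ) (EX eJ : ℕ) : Prop where
  Q0 : 0 ≤ Q
  u1 : u ≤ U
  U1 : (U : ℝ) * 35 ≤ h
  s1 : u ≤ sN
  s2 : (sN : ℝ) ≤ h
  v1 : 2 * h ≤ vN
  v2 : (vN : ℝ) ≤ 3 * h
  y0 : y₀ ≤ y
  X1 : (X : ℝ) + 1 + b * Q + 3 * Y ≤ e₁
  EX1 : EX ≤ e₁ + 1
  s11 : 3 * u ≤ s₁
  sf1 : 4 * u ≤ sf
  sf2 : (sf : ℝ) ≤ h
  es : sN + eN ≤ e₁'
  ef : sf + eN ≤ e₁'
  e1u : 2 * u ≤ e₁'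
  e1Q : (e₁' : ℝ) ≤ E0 + h
  e1e : e₁ + 1 ≤ eJ
  gr : (e₁' : ℝ) + ne * (κ + 1) + Cg * (Y + 1) + b * Q + 2 * Y ≤ e₁
  e2Q : (e₂ : ℝ) ≤ E0 + κ
  e2J : e₂ ≤ eJ
  st1 : st + 1 ≤ 2 * y
  Co : C₂ * (sN + vN + sf + vN + 1) + sf + 1 ≤ y
  CgY : Cg * (Y + 1) ≤ κ / 4
  uh : 40 * u ≤ h
  hY : 40 * h ≤ Y
  Yκ : 40 * Y ≤ κ
  κQ : κ ≤ Q
  ly : (((E + 1) * (sN + y₀ + 3) : ℕ) : ℝ) * Real.log 2 + z ≤ y * Real.log 2

/-- **The numbers at one dimension** from the constants. -/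
theorem vnj_of {b n R₁ ne Cg C₀ C C₁ C₂ Cf E : ℕ} {A τ kr v ρ μ K xq : ℝ}
    (N : VNu b n R₁ ne Cg C₀ C C₁ C₂ Cf E A τ kr v ρ μ K xq) {q Eb e2 s₀ s xx : ℝ} {J : ℕ}
    (hq : 0 < q) (hEb : 0 < Eb) (he2 : Eb + 3 * K * q ≤ e2) (hs₀ : 0 ≤ s₀) (hs : 0 ≤ s)
    (hμ : s₀ + 3 * s = 7 * (μ * q)) (hxx : xx ≤ xq * q)
    (hJ : 10 + 2 * (ne : ℝ) + Cg ≤ μ * q * J) :
    VNj b n ne Cg C₂ E (n * (kr * q * J)) (kr * q * J) (ρ * q * J) (v * q * J)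
      ((s₀ + 3 * s) * J) (μ * q * J) (Eb * J) (⌊(s₀ + 3 * s) * J⌋₊ + 1)
      (C₀ * (⌊(s₀ + 3 * s) * J⌋₊ + 1)) (⌊2 * ρ * q * J⌋₊ + 1)
      (C * (⌊(s₀ + 3 * s) * J⌋₊ + ⌊2 * ρ * q * J⌋₊ + 1))
      (C * (⌊(s₀ + 3 * s) * J⌋₊ + ⌊2 * ρ * q * J⌋₊ + 1) + ⌊(Eb + s) * J⌋₊ + ⌊xx * J⌋₊)
      (8 * (⌊(s₀ + 3 * s) * J⌋₊ + 1))
      (Cf * (8 * (⌊(s₀ + 3 * s) * J⌋₊ + 1) + 1))
      ((C₀ + 9 * Cf) * (⌊(s₀ + 3 * s) * J⌋₊ + 1) + ⌊Eb * J⌋₊)
      (⌊e2 * J⌋₊ - 1)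
      ((C₀ + 9 * Cf) * (⌊(s₀ + 3 * s) * J⌋₊ + 1) + ⌊Eb * J⌋₊ + ⌊v * q * J⌋₊ +
        2 * ⌊v * q * J⌋₊ + 6)
      (C₁ * (C₀ * (⌊(s₀ + 3 * s) * J⌋₊ + 1) + (⌊2 * ρ * q * J⌋₊ + 1) + 1))
      ⌊Eb * J⌋₊ ⌊v * q * J⌋₊ ⌊(Eb + s) * J⌋₊ ⌊e2 * J⌋₊ := by
  have hJ0 : (0 : ℝ) ≤ J := Nat.cast_nonneg J
  have hn1 : (1 : ℝ) ≤ n := by exact_mod_cast N.n0
  have hb0 : (3 : ℝ) ≤ b := by exact_mod_cast N.hb
  have hv0 := N.v0
  have hμ0 := N.μ0
  have hxq0 := N.xq0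
  have hρ0 : 0 < ρ := by have := N.e1; linarith
  obtain ⟨z, hz⟩ : ∃ z, z = q * J := ⟨_, rfl⟩
  have hμz : 10 + 2 * (ne : ℝ) + Cg ≤ μ * z := by
    rw [hz]
    linarith
  have hne0 : (0 : ℝ) ≤ ne := Nat.cast_nonneg _
  have hCg0 : (0 : ℝ) ≤ Cg := Nat.cast_nonneg _
  have hC0 : (0 : ℝ) ≤ C₀ := Nat.cast_nonneg _
  have hC0' : (1 : ℝ) ≤ C₀ := by exact_mod_cast N.c0
  have hCf0 : (1 : ℝ) ≤ Cf := by exact_mod_cast N.cf
  have hz0 : 0 ≤ z := by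
    rw [hz]
    positivity
  have e1 : (s₀ + 3 * s) * J = 7 * (μ * z) := by rw [hμ, hz]; ring
  have e2' : 2 * ρ * q * J = 2 * (ρ * z) := by rw [hz]; ring
  have e3 : ρ * q * J = ρ * z := by rw [hz]; ring
  have e4 : v * q * J = v * z := by rw [hz]; ring
  have e5 : kr * q * J = kr * z := by rw [hz]; ring
  have e8 : μ * q * J = μ * z := by rw [hz]; ring
  have hsJ : s * J ≤ 7 / 3 * (μ * z) := by
    have h1 : s ≤ 7 / 3 * (μ * q) := by linarith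
    have h2 := mul_le_mul_of_nonneg_right h1 hJ0
    rw [hz]
    linarith
  have hxJ : xx * J ≤ xq * z := by
    have h2 := mul_le_mul_of_nonneg_right hxx hJ0
    rw [hz]
    linarith
  have hE2 : Eb * J + 3 * (K * z) ≤ e2 * J := by
    have h2 := mul_le_mul_of_nonneg_right he2 hJ0
    rw [hz]
    linarith
  have e6 : (Eb + s) * J = Eb * J + s * J := by ring
  have hsJ0 : 0 ≤ s * (J : ℝ) := mul_nonneg hs hJ0
  rw [e1, e2', e3, e4, e5, e6, e8]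
  have hE0 : 0 ≤ Eb * J := by positivity
  generalize Eb * (J : ℝ) = E₀ at hE0 hE2 ⊢
  generalize e2 * (J : ℝ) = EE at hE2 ⊢
  generalize s * (J : ℝ) = sJ at hsJ hsJ0 ⊢
  generalize xx * (J : ℝ) = xJ at hxJ ⊢
  -- products with `z`
  have q1 : 280 * (μ * z) ≤ ρ * z := by
    have := mul_le_mul_of_nonneg_right N.e1 hz0
    linarith
  have q2 : C₀ * (16 * (μ * z)) ≤ ρ * z := by
    have := mul_le_mul_of_nonneg_right N.e2 hz0
    linarith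
  have q3 : Cf * (200 * (μ * z)) ≤ ρ * z := by
    have := mul_le_mul_of_nonneg_right N.e3 hz0
    linarith
  have q4 : (10 * b + 40) * (ρ * z) ≤ v * z := by
    have := mul_le_mul_of_nonneg_right N.r1 hz0
    linarith
  have q5 : C * (8 * (ρ * z)) ≤ v * z := by
    have := mul_le_mul_of_nonneg_right N.r2 hz0
    linarith
  have q6 : C₁ * (8 * (ρ * z)) ≤ v * z := by
    have := mul_le_mul_of_nonneg_right N.r3 hz0
    linarith
  have q7 : C₂ * (20 * (ρ * z)) ≤ v * z := by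
    have := mul_le_mul_of_nonneg_right N.r4 hz0
    linarith
  have q12 : ((E : ℝ) + 1) * ((C + 2) * (8 * (ρ * z))) ≤ v * z := by
    have := mul_le_mul_of_nonneg_right N.r5 hz0
    linarith
  have q8 : Cg * (8 * (v * z)) ≤ kr * z := by
    have := mul_le_mul_of_nonneg_right N.w3 hz0
    linarith
  have q10 : 40 * (v * z) ≤ kr * z := by
    have := mul_le_mul_of_nonneg_right N.w1 hz0
    linarith
  have q13 : xq * z + (ne * (kr * z) + b * (n * (kr * z)) + 2 * (b * (kr * z)) + n * (kr * z) +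
      10 * (kr * z)) ≤ K * z := by
    have := mul_le_mul_of_nonneg_right N.kK hz0
    linarith
  have hρz : 0 ≤ ρ * z := mul_nonneg hρ0.le hz0
  have hbρ : 0 ≤ b * (ρ * z) := mul_nonneg (by linarith) hρz
  have hκz : 0 ≤ kr * z := by linarith
  have hxz : 0 ≤ xq * z := mul_nonneg hxq0 hz0
  have hneκ : 0 ≤ (ne : ℝ) * (kr * z) := mul_nonneg hne0 hκz
  have hnκ : 1 * (kr * z) ≤ n * (kr * z) := mul_le_mul_of_nonneg_right hn1 hκz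
  have hbnκ : 0 ≤ (b : ℝ) * (n * (kr * z)) := by positivity
  have hbκ : 3 * (kr * z) ≤ b * (kr * z) := mul_le_mul_of_nonneg_right hb0 hκz
  -- the floors
  have f1 := Nat.floor_le (show 0 ≤ 7 * (μ * z) by linarith)
  have f2 := (Nat.lt_floor_add_one (7 * (μ * z))).le
  have f3 := Nat.floor_le (show 0 ≤ 2 * (ρ * z) by linarith)
  have f4 := (Nat.lt_floor_add_one (2 * (ρ * z))).le
  have f5 := (Nat.lt_floor_add_one (v * z)).le
  have f5' := Nat.floor_le (show 0 ≤ v * z by linarith)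
  have f7 := (Nat.lt_floor_add_one EE).le
  have f8 := Nat.floor_le hE0
  have f9 := Nat.floor_le (show 0 ≤ E₀ + sJ by linarith)
  have f10 : ((⌊xJ⌋₊ : ℕ) : ℝ) ≤ xq * z := Pool.STA37.fl_up hxJ hxz
  have hl2 : 1 / 2 < Real.log 2 := by linarith [Real.log_two_gt_d9]
  have hl2' : Real.log 2 < 1 := by linarith [Real.log_two_lt_d9]
  have hEX : ⌊E₀ + sJ⌋₊ ≤ ⌊EE⌋₊ := Nat.floor_mono (by linarith)
  generalize (⌊7 * (μ * z)⌋₊ : ℕ) = U0 at f1 f2 ⊢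
  generalize (⌊2 * (ρ * z)⌋₊ : ℕ) = V0 at f3 f4 ⊢
  generalize (⌊v * z⌋₊ : ℕ) = Y0 at f5 f5' ⊢
  generalize (⌊EE⌋₊ : ℕ) = E2 at f7 hEX ⊢
  generalize (⌊E₀⌋₊ : ℕ) = EN at f8 ⊢
  generalize (⌊E₀ + sJ⌋₊ : ℕ) = EX at f9 hEX ⊢
  generalize (⌊xJ⌋₊ : ℕ) = XX at f10 ⊢
  have hU : (U0 : ℝ) + 1 ≤ 8 * (μ * z) := by linarith
  have hE21 : 1 ≤ E2 := by
    refine Nat.one_le_iff_ne_zero.2 fun h => ?_
    rw [h] at f7
    push_cast at f7
    linarith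
  have hE2c : ((E2 - 1 : ℕ) : ℝ) = E2 - 1 := by
    rw [Nat.cast_sub hE21]
    push_cast
    ring
  -- the products of natural numbers
  have g1 : (C₀ : ℝ) * (U0 + 1) ≤ C₀ * (8 * (μ * z)) := mul_le_mul_of_nonneg_left hU hC0
  have g2 : (Cf : ℝ) * (8 * (U0 + 1) + 1) ≤ Cf * (65 * (μ * z)) :=
    mul_le_mul_of_nonneg_left (by linarith) (by linarith)
  have g3 : ((C₀ : ℝ) + 9 * Cf) * (U0 + 1) ≤ (C₀ + 9 * Cf) * (8 * (μ * z)) :=
    mul_le_mul_of_nonneg_left hU (by linarith)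
  have g4 : (C : ℝ) * (U0 + V0 + 1) ≤ C * (3 * (ρ * z)) :=
    mul_le_mul_of_nonneg_left (by linarith) (Nat.cast_nonneg _)
  have g6 : (C₁ : ℝ) * (C₀ * (U0 + 1) + (V0 + 1) + 1) ≤ C₁ * (8 * (ρ * z)) :=
    mul_le_mul_of_nonneg_left (by linarith) (Nat.cast_nonneg _)
  have g7 : (C₂ : ℝ) * (C₀ * (U0 + 1) + (V0 + 1) + Cf * (8 * (U0 + 1) + 1) + (V0 + 1) + 1) ≤
      C₂ * (10 * (ρ * z)) :=
    mul_le_mul_of_nonneg_left (by linarith) (Nat.cast_nonneg _)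
  have g8 : (1 : ℝ) * (U0 + 1) ≤ C₀ * (U0 + 1) :=
    mul_le_mul_of_nonneg_right hC0' (by positivity)
  have g9 : (1 : ℝ) * (8 * (U0 + 1) + 1) ≤ Cf * (8 * (U0 + 1) + 1) :=
    mul_le_mul_of_nonneg_right hCf0 (by positivity)
  have g10 : (Cg : ℝ) * (v * z + 1) ≤ Cg * (2 * (v * z)) :=
    mul_le_mul_of_nonneg_left (by linarith) hCg0
  have g11 : (ne : ℝ) * (kr * z + 1) ≤ ne * (2 * (kr * z)) :=
    mul_le_mul_of_nonneg_left (by linarith) hne0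
  have g12 : 0 ≤ (Cf : ℝ) * U0 := mul_nonneg (by linarith) (Nat.cast_nonneg _)
  have g13 : (1 : ℝ) * (U0 + 1) ≤ Cf * (U0 + 1) := mul_le_mul_of_nonneg_right hCf0 (by positivity)
  have g14 : 0 ≤ (C₀ : ℝ) * (U0 + 1) := by positivity
  have g15 : (0 : ℝ) ≤ EN := Nat.cast_nonneg _
  have hC2 : 0 ≤ (C₂ : ℝ) * (10 * (ρ * z)) := by positivity
  have hC1 : 0 ≤ (C₁ : ℝ) * (8 * (ρ * z)) := by positivity
  have hly : (((E : ℝ) + 1) * (C₀ * (U0 + 1) + C * (U0 + V0 + 1) + 3)) ≤ v * z / 2 := by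
    have h1 : (C₀ : ℝ) * (U0 + 1) + C * (U0 + V0 + 1) + 3 ≤ (C + 2) * (8 * (ρ * z)) / 2 := by
      have : 0 ≤ (C : ℝ) * (ρ * z) := by positivity
      linarith
    have h2 := mul_le_mul_of_nonneg_left h1 (show (0 : ℝ) ≤ (E : ℝ) + 1 by positivity)
    linarith
  exact
    { Q0 := by linarith
      u1 := by push_cast; linarith
      U1 := by push_cast; linarith
      s1 := by push_cast; linarith
      s2 := by push_cast; linarith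
      v1 := by push_cast; linarith
      v2 := by push_cast; linarith
      y0 := nat_of (by push_cast; linarith)
      X1 := by
        rw [hE2c]
        push_cast
        linarith
      EX1 := by omega
      s11 := by push_cast; linarith
      sf1 := by push_cast; linarith
      sf2 := by push_cast; linarith
      es := nat_of (by push_cast; linarith)
      ef := nat_of (by push_cast; linarith)
      e1u := by push_cast; linarith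
      e1Q := by push_cast; linarith
      e1e := by omega
      gr := by
        rw [hE2c]
        push_cast
        linarith
      e2Q := by push_cast; linarith
      e2J := nat_of (by push_cast; linarith)
      st1 := nat_of (by push_cast; linarith)
      Co := nat_of (by push_cast; linarith)
      CgY := by linarith
      uh := by linarith
      hY := by linarith
      Yκ := by linarith
      κQ := by linarith
      ly := by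
        push_cast
        have h1 := mul_le_mul_of_nonneg_right hly (show (0 : ℝ) ≤ Real.log 2 by linarith)
        have h2 : v * z / 4 * (1 / 2) ≤ v * z / 4 * Real.log 2 :=
          mul_le_mul_of_nonneg_left hl2.le (by linarith)
        have h3 : (v * z * (3 / 4)) * Real.log 2 ≤ Y0 * Real.log 2 :=
          mul_le_mul_of_nonneg_right (by linarith) (by linarith)
        linarith }

end Pool.VJ77
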