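import Pool.Agent.H77.VJ.Nu3

/-!
# The numbers of the balls and of the windows at one dimension of a record

`apb_of`, `apw_of`.
-/

set_option autoImplicit false

namespace Pool.VJ77

open Finset Real MvPolynomial
open Pool.Agent.H49.Ent Pool.Agent.H32.Dense Pool.STK Pool.KA Pool.KSAT Pool.K2S Pool.PB Pool.S6C
open Pool.GEN Pool.RCD Pool.LA91 Pool.PKG
open Pool.STB (lv_lin lv_sta box_in)
open Pool.STA37 (ApW fl_up fl_lo u_mono)

section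

variable {m : ℕ} {S : PCl m} {al : ℝ} {g₀ : ℝ → ℝ} {P₀ : List (Fin m) × Fin m → ℝ → ℝ → ℝ}
  {θ : ℝ} {P₂ : ℕ → List (Fin m) × Fin m → ℝ → ℝ → ℝ} {θ₂ Eb e₂ : ℕ → ℝ}
  {c : ℕ → Fin m} {Pt : ℝ → ℝ → ℝ} {r : ℝ → ℝ} {h K₀ g : ℝ} {L T : ℕ → ℝ → ℝ → ℝ}
  {Sl : ℕ → ℝ} {κ : ℕ → Kg} {G : Set ℝ} {S₀ N₀ : ℕ} {A V : ℕ → ℝ} {S₂ N' : ℕ} {V' : ℕ → ℝ}
  {K ε q t : ℝ} {ρ : ℝ}

/-- **The numbers of a list of balls** at one dimension. -/
theorem apb_of (R : RecG S al g₀ P₀ θ P₂ θ₂ Eb e₂ c Pt r h K₀ g L T Sl κ G S₀ N₀ A V S₂ N' V' K ε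
    q t) (hm : 2 < m) (S1 : Sl 1 = 1) (hε : 0 ≤ ε) (hρ : 0 < ρ) {AA WW : ℕ → ℝ} {ι : ℕ → ℕ} {N : ℕ}
    {o : ℝ} (hι : ∀ k ≤ N, AA (ι k) = t + (o + k * ρ) * q ∧ WW (ι k) = t + (o + k * ρ) * q ∧
      -K ≤ o + k * ρ ∧ o + k * ρ ≤ K) (hr2 : ∀ x : ℝ, |x - t| ≤ K * q → L 2 x x ≤ 1)
    {d : ℕ → ℕ → ℝ} {s u : ℝ} (hd : ∀ k ≤ N, ∀ l ≤ 2, 0 < d (ι k) l ∧ d (ι k) l ≤ s) {J : ℕ}
    (hu : s * J + ε * q * J + 1 ≤ u) :
    ApB N J (t * J) (ρ * q * J) u (L 1 t t * J) (o * q * J) (fun k => ⌊AA (ι k) * J⌋₊)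
      (fun k l => ⌊(L l (AA (ι k)) (WW (ι k)) - d (ι k) l) * J⌋₊) := by
  have hq := R.q0
  have hJ0 : (0 : ℝ) ≤ J := Nat.cast_nonneg J
  have hεJ : 0 ≤ ε * q * J := mul_nonneg (mul_nonneg hε hq.le) hJ0
  have hbx : ∀ k ≤ N, |t + (o + k * ρ) * q - t| ≤ K * q ∧ 0 < t + (o + k * ρ) * q ∧
      t + (o + k * ρ) * q < 1 := fun k hk => box_in R (hι k hk).2.2.1 (hι k hk).2.2.2
  have hs0 : 0 ≤ s := by
    have h1 := hd 0 (Nat.zero_le _) 0 (by norm_num)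
    linarith [h1.1, h1.2]
  have hsJ : 0 ≤ s * J := mul_nonneg hs0 hJ0
  have hx : ∀ k : ℕ, (t + (o + k * ρ) * q) * J = t * J + (o * q * J + k * (ρ * q * J)) :=
    fun k => by ring
  -- the levels
  have up : ∀ k ≤ N, ∀ l ≤ 2, ∀ X : ℝ, L l (t + (o + k * ρ) * q) (t + (o + k * ρ) * q) * J ≤ X →
      ((⌊(L l (AA (ι k)) (WW (ι k)) - d (ι k) l) * J⌋₊ : ℕ) : ℝ) ≤ X := by
    intro k hk l hl X hX
    rw [(hι k hk).1, (hι k hk).2.1]
    have h1 := (hd k hk l hl).1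
    have h2 : 0 ≤ L l (t + (o + k * ρ) * q) (t + (o + k * ρ) * q) :=
      (hbx k hk).2.1.le.trans (R.low_at (by omega) (hbx k hk).2.1.le le_rfl (hbx k hk).2.2.le)
    refine (fl_up ?_ (mul_nonneg h2 hJ0)).trans hX
    exact mul_le_mul_of_nonneg_right (by linarith) hJ0
  have lo : ∀ k ≤ N, ∀ l ≤ 2, ∀ X : ℝ, X + s * J + 1 ≤
      L l (t + (o + k * ρ) * q) (t + (o + k * ρ) * q) * J →
      X ≤ ((⌊(L l (AA (ι k)) (WW (ι k)) - d (ι k) l) * J⌋₊ : ℕ) : ℝ) := by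
    intro k hk l hl X hX
    rw [(hι k hk).1, (hι k hk).2.1]
    have h1 := mul_le_mul_of_nonneg_right (hd k hk l hl).2 hJ0
    refine fl_lo ?_
    rw [sub_mul]
    linarith
  refine ⟨fun k hk => ?_, fun k hk => ?_, fun k hk => ?_, fun k hk => ?_, fun k hk => ?_,
    fun k hk => ?_, fun k hk => ?_, fun k hk => ?_⟩
  · show ((⌊AA (ι k) * J⌋₊ : ℕ) : ℝ) ≤ _
    rw [(hι k hk).1, ← hx]
    exact Nat.floor_le (mul_nonneg (hbx k hk).2.1.le hJ0)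
  · show _ ≤ ((⌊AA (ι k) * J⌋₊ : ℕ) : ℝ)
    rw [(hι k hk).1, ← hx]
    exact fl_lo le_rfl
  · refine up k hk 0 (by norm_num) _ ?_
    have h1 := (abs_le.1 (R.l0 _ (hbx k hk).1)).2
    have h2 := mul_le_mul_of_nonneg_right h1 hJ0
    have h3 := hx k
    rw [sub_mul] at h2
    linarith
  · refine lo k hk 0 (by norm_num) _ ?_
    have h1 := (abs_le.1 (R.l0 _ (hbx k hk).1)).1
    have h2 := mul_le_mul_of_nonneg_right h1 hJ0
    have h3 := hx k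
    rw [sub_mul] at h2
    linarith
  · refine up k hk 1 (by norm_num) _ ?_
    have h1 := (abs_le.1 (R.dL 1 (by omega) _ (hbx k hk).1)).2
    rw [S1] at h1
    have h2 := mul_le_mul_of_nonneg_right h1 hJ0
    have h3 := hx k
    rw [sub_mul, sub_mul] at h2
    linarith
  · refine lo k hk 1 (by norm_num) _ ?_
    have h1 := (abs_le.1 (R.dL 1 (by omega) _ (hbx k hk).1)).1
    rw [S1] at h1
    have h2 := mul_le_mul_of_nonneg_right h1 hJ0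
    have h3 := hx k
    rw [sub_mul, sub_mul] at h2
    linarith
  · show ⌊(L 2 (AA (ι k)) (WW (ι k)) - d (ι k) 2) * J⌋₊ ≤ J
    rw [(hι k hk).1, (hι k hk).2.1]
    refine Nat.floor_le_of_le ?_
    have h1 := (hd k hk 2 le_rfl).1
    have h2 := hr2 _ (hbx k hk).1
    calc _ ≤ 1 * (J : ℝ) := mul_le_mul_of_nonneg_right (by linarith) hJ0
      _ = J := one_mul _
  · refine up 0 (Nat.zero_le _) 2 le_rfl _ ?_
    have h1 := lo k hk 2 le_rfl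
      (L 2 (t + (o + k * ρ) * q) (t + (o + k * ρ) * q) * J - s * J - 1) (by linarith)
    have h2 : L 2 (t + (o + (0 : ℕ) * ρ) * q) (t + (o + (0 : ℕ) * ρ) * q) ≤
        L 2 (t + (o + k * ρ) * q) (t + (o + k * ρ) * q) := by
      have h3 : t + (o + (0 : ℕ) * ρ) * q ≤ t + (o + k * ρ) * q := by
        have h4 : (0 : ℝ) ≤ k * ρ * q := mul_nonneg (mul_nonneg (Nat.cast_nonneg _) hρ.le) hq.le
        push_cast
        linarith
      exact u_mono R hm (hbx 0 (Nat.zero_le _)).2.1.le h3 h3 le_rfl le_rfl (hbx k hk).2.2.le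
    have h3 := mul_le_mul_of_nonneg_right h2 hJ0
    linarith

end

/-- **The numbers of the windows** at one dimension. -/
theorem apw_of {b n R₁ ne Cg C₀ C C₁ C₂ Cf E : ℕ} {A τ kr v ρ μ K xq : ℝ}
    (N : VNu b n R₁ ne Cg C₀ C C₁ C₂ Cf E A τ kr v ρ μ K xq) {q t s₀ s : ℝ} (hq : 0 < q)
    (ht : kr * q ≤ t) (hμ : s₀ + 3 * s = 7 * (μ * q)) {J : ℕ}
    (hJ : ((n : ℝ) + 2) * (b + 1) ≤ (s₀ + 3 * s) * J) :
    ApW n b (t * J) (n * (kr * q * J)) (kr * q * J) (ρ * q * J) (v * q * J) ((s₀ + 3 * s) * J)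
      ⌊(t - kr * q) * J⌋₊ (⌊t * J⌋₊ - ⌊(t - kr * q) * J⌋₊) ⌊v * q * J⌋₊ ⌊v * q * J⌋₊ := by
  have hJ0 : (0 : ℝ) ≤ J := Nat.cast_nonneg J
  have hqJ : 0 ≤ q * J := mul_nonneg hq.le hJ0
  have hv0 := N.v0
  have hkr : 0 ≤ kr := by have := N.w1; linarith
  have hkq : 0 ≤ kr * q := mul_nonneg hkr hq.le
  have e1 : (t - kr * q) * J = t * J - kr * q * J := by ring
  have f1 := Nat.floor_le (show 0 ≤ (t - kr * q) * J from mul_nonneg (by linarith) hJ0)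
  have f2 := (Nat.lt_floor_add_one ((t - kr * q) * J)).le
  have f3 := Nat.floor_le (show 0 ≤ t * J from mul_nonneg (by linarith) hJ0)
  have f4 := (Nat.lt_floor_add_one (t * J)).le
  have f5 := Nat.floor_le (show 0 ≤ v * q * J from by positivity)
  have f6 := (Nat.lt_floor_add_one (v * q * J)).le
  have hWt : ⌊(t - kr * q) * J⌋₊ ≤ ⌊t * J⌋₊ :=
    Nat.floor_mono (mul_le_mul_of_nonneg_right (by linarith) hJ0)
  have hc : ((⌊t * J⌋₊ - ⌊(t - kr * q) * J⌋₊ : ℕ) : ℝ) = ⌊t * J⌋₊ - ⌊(t - kr * q) * J⌋₊ :=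
    Nat.cast_sub hWt
  rw [e1] at f1 f2
  refine
    { Q := rfl
      κ0 := by positivity
      W1 := by rw [e1]; exact f1
      W2 := by rw [e1]; linarith
      k1 := by rw [hc, e1]; linarith
      k2 := by rw [hc, e1]; linarith
      t1 := by rw [hc]; linarith
      t2 := by rw [hc]; linarith
      y1 := f5
      y2 := by linarith
      x1 := f5
      x2 := by linarith
      u1 := hJ
      uh := ?_
      hY := ?_
      Yκ := ?_ }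
  · have := mul_le_mul_of_nonneg_right N.e1 hqJ
    rw [hμ]
    linarith
  · have := mul_le_mul_of_nonneg_right N.r1 hqJ
    linarith
  · have := mul_le_mul_of_nonneg_right N.w1 hqJ
    linarith

end Pool.VJ77
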