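import Pool.Agent.H77.VJ.Nu4

/-!
# The frame and the far data at a record

`v_ap`: the windows, the near balls and the far balls; `v_frm`: the natural numbers of the frame and of
the far balls at one dimension of a record.
-/

set_option autoImplicit false

namespace Pool.VJ77

open Finset Real MvPolynomial
open Pool.Agent.H49.Ent Pool.Agent.H32.Dense Pool.STK Pool.KA Pool.KSAT Pool.K2S Pool.PB Pool.S6C
open Pool.GEN Pool.RCD Pool.LA91 Pool.PKG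
open Pool.STB (V3 Po Bx VbT lv_lin lv_sta box_in FrN LsN GrN nAA nWW nι nAA_ball nWW_ball nAA_ext
  nWW_ext nι_le)
open Pool.STA37 (ApW nat_of FrL FrF lv_up)

/-- The loss of the nodes. -/
noncomputable abbrev wU (s₀ s : ℝ) (J : ℕ) : ℕ := ⌊(s₀ + 3 * s) * J⌋₊ + 1

/-- The step of the balls. -/
noncomputable abbrev wV (ρ q : ℝ) (J : ℕ) : ℕ := ⌊2 * ρ * q * J⌋₊ + 1

/-- The index of a far ball. -/
def vι (Ng P Nf k : ℕ) : ℕ := if k < Nf then Ng + P + 2 + k else 0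

/-- The first windows. -/
noncomputable abbrev wA (t q kr y ρ : ℝ) (Ng P : ℕ) (Ax : ℕ → ℝ) (J k : ℕ) : ℕ :=
  ⌊nAA t q (-kr) y ρ Ng P Ax k * J⌋₊

/-- The second windows. -/
noncomputable abbrev wW (t q kr ρ : ℝ) (Ng P : ℕ) (Vx : ℕ → ℝ) (J k : ℕ) : ℕ :=
  ⌊nWW t q (-kr) ρ Ng P Vx k * J⌋₊

/-- The levels. -/
noncomputable abbrev wG (L : ℕ → ℝ → ℝ → ℝ) (d : ℕ → ℕ → ℝ) (t q kr y ρ : ℝ) (Ng P : ℕ)
    (Ax Vx : ℕ → ℝ) (J k l : ℕ) : ℕ :=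
  ⌊(L l (nAA t q (-kr) y ρ Ng P Ax k) (nWW t q (-kr) ρ Ng P Vx k) - d k l) * J⌋₊

/-- **The numbers of the lists.** -/
structure VLs (n R₁ N₁ N Nf Nx : ℕ) (kr ρ kf K : ℝ) (Ax Vx : ℕ → ℝ) : Prop where
  N1 : N₁ ≤ N
  NR : R₁ * (n + 1) ≤ N₁
  fx : Nf ≤ Nx
  ax : ∀ j < Nf, Ax j = -(kr + Nf * ρ) + j * ρ
  vx : ∀ j < Nf, Vx j = -(kr + Nf * ρ) + j * ρ
  k0 : 0 ≤ kf
  k2 : kf + kr ≤ kr + Nf * ρ
  k3 : kr + Nf * ρ + 4 * kr ≤ K

section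

variable {m : ℕ} {S : PCl m} {al : ℝ} {g₀ : ℝ → ℝ} {P₀ : List (Fin m) × Fin m → ℝ → ℝ → ℝ}
  {θ : ℝ} {P₂ : ℕ → List (Fin m) × Fin m → ℝ → ℝ → ℝ} {θ₂ Eb e₂ : ℕ → ℝ}
  {c : ℕ → Fin m} {Pt : ℝ → ℝ → ℝ} {r : ℝ → ℝ} {h K₀ g : ℝ} {L T : ℕ → ℝ → ℝ → ℝ}
  {Sl : ℕ → ℝ} {κ : ℕ → Kg} {G : Set ℝ} {S₀ N₀ : ℕ} {A V : ℕ → ℝ} {S₂ N' : ℕ} {V' : ℕ → ℝ}
  {K ε q t : ℝ} {y ρ : ℝ} {Ng P pc N M' Nx : ℕ} {Ax Vx : ℕ → ℝ}
  {n R₁ N₁ Nf b ne Cg C₀ C C₁ C₂ Cf E : ℕ} {A₀ τ kr v μ kf xq : ℝ}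
  {s₀ s xx : ℝ} {d : ℕ → ℕ → ℝ}

/-- The offsets of the far balls. -/
theorem VLs.far (H : VLs n R₁ N₁ N Nf Nx kr ρ kf K Ax Vx) {k : ℕ} (hk : k ≤ Nf) :
    nAA t q (-kr) y ρ Ng P Ax (vι Ng P Nf k) = t + (-(kr + Nf * ρ) + k * ρ) * q ∧
    nWW t q (-kr) ρ Ng P Vx (vι Ng P Nf k) = t + (-(kr + Nf * ρ) + k * ρ) * q := by
  unfold vι
  rcases Nat.lt_or_ge k Nf with h1 | h1
  · rw [if_pos h1, nAA_ext, nWW_ext, H.ax k h1, H.vx k h1]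
    exact ⟨rfl, rfl⟩
  · have : k = Nf := by omega
    subst this
    rw [if_neg (lt_irrefl _), nAA_ball (Nat.zero_le _), nWW_ball (Nat.zero_le _)]
    push_cast
    constructor <;> ring

/-- **The windows and the balls at one dimension of a record.** -/
theorem v_ap (R : RecG S al g₀ P₀ θ P₂ θ₂ Eb e₂ c Pt r h K₀ g L T Sl κ G S₀ N₀ A V S₂ N' V' K ε
    q t) (hm : 3 < m) (S1 : Sl 1 = 1) (hε : 0 ≤ ε) (H : LsN (-kr) y ρ Ng P Nx Ax Vx N₀ A V N' V' K)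
    (gr : GrN y ρ Ng P pc N M') (HL : VLs n R₁ N₁ N Nf Nx kr ρ kf K Ax Vx)
    (NU : VNu b n R₁ ne Cg C₀ C C₁ C₂ Cf E A₀ τ kr v ρ μ K xq) (hμ : s₀ + 3 * s = 7 * (μ * q))
    (hs₀ : 4 * (ε * q) ≤ s₀) (hs : 0 < s)
    (hd : ∀ k < Ng + P + 2 + Nx, ∀ l ≤ 3, 0 < d k l ∧ d k l ≤ s) {J : ℕ}
    (hJ : 10 ≤ μ * q * J) (hJ' : ((n : ℝ) + 2) * (b + 1) ≤ μ * q * J) :
    ApW n b (t * J) (n * (kr * q * J)) (kr * q * J) (ρ * q * J) (v * q * J) ((s₀ + 3 * s) * J)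
      ⌊(t + -kr * q) * J⌋₊ (⌊t * J⌋₊ - ⌊(t + -kr * q) * J⌋₊) ⌊v * q * J⌋₊ ⌊v * q * J⌋₊ ∧
    ApB N₁ J (t * J) (ρ * q * J) ((s₀ + 3 * s) * J) (L 1 t t * J) (-(kr * q * J))
      (fun k => wA t q kr y ρ Ng P Ax J (nι N M' k))
      (fun k => wG L d t q kr y ρ Ng P Ax Vx J (nι N M' k)) ∧
    ApB Nf J (t * J) (ρ * q * J) ((s₀ + 3 * s) * J) (L 1 t t * J) (-(kr + Nf * ρ) * q * J)
      (fun k => wA t q kr y ρ Ng P Ax J (vι Ng P Nf k))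
      (fun k => wG L d t q kr y ρ Ng P Ax Vx J (vι Ng P Nf k)) := by
  have hq := R.q0
  have hJ0 : (0 : ℝ) ≤ J := Nat.cast_nonneg J
  have hρ := gr.r0
  have hμq : 0 < μ * q := mul_pos NU.μ0 hq
  have hv0 := NU.v0
  have hkr : 0 < kr := by have := NU.w1; linarith
  have W := R.tg 3 (by norm_num) hm
  have hNN := gr.NNg
  have hK0 : 0 ≤ K * q := mul_nonneg (by
    have := HL.k3
    have : (0 : ℝ) ≤ Nf * ρ := by positivity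
    linarith) hq.le
  have hr2 : ∀ x : ℝ, |x - t| ≤ K * q → L 2 x x ≤ 1 := fun x hx => by
    have h1 := W.room 2 (by norm_num) x hx
    have h2 := W.Eb0
    linarith
  have hεs : s * J + ε * q * J + 1 ≤ (s₀ + 3 * s) * J := by
    have h1 : ε * q ≤ s₀ / 4 := by linarith
    have h0 : 0 ≤ ε * q := mul_nonneg hε hq.le
    have h2 : 2 * (μ * q) ≤ 3 / 4 * s₀ + 2 * s := by linarith
    have h3 := mul_le_mul_of_nonneg_right h1 hJ0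
    have h4 := mul_le_mul_of_nonneg_right h2 hJ0
    linarith
  have hbox : ∀ k ≤ N₁, -K ≤ -kr + (k : ℝ) * ρ ∧ -kr + (k : ℝ) * ρ ≤ K := fun k hk =>
    H.ball gr (hk.trans (HL.N1.trans hNN))
  have hNx : ∀ k ≤ Nf, vι Ng P Nf k < Ng + P + 2 + Nx := fun k hk => by
    have := HL.fx
    unfold vι
    split_ifs <;> omega
  have hfx : ∀ k ≤ Nf, -K ≤ -(kr + Nf * ρ) + (k : ℝ) * ρ ∧ -(kr + Nf * ρ) + (k : ℝ) * ρ ≤ K :=
    fun k hk => by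
      have h1 : (k : ℝ) * ρ ≤ Nf * ρ := mul_le_mul_of_nonneg_right (by exact_mod_cast hk) hρ.le
      have h2 : 0 ≤ (k : ℝ) * ρ := by positivity
      have h3 := HL.k3
      constructor <;> linarith
  refine ⟨?_, ?_, ?_⟩
  · have e1 : t + -kr * q = t - kr * q := by ring
    rw [e1]
    refine apw_of NU hq ?_ hμ ?_
    · have h1 : kr * q ≤ K * q := mul_le_mul_of_nonneg_right (by
        have := HL.k3
        have : (0 : ℝ) ≤ Nf * ρ := by positivity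
        linarith) hq.le
      have := R.t0
      linarith
    · rw [hμ]
      linarith
  · have h1 := apb_of R (by omega) S1 hε hρ (AA := nAA t q (-kr) y ρ Ng P Ax)
      (WW := nWW t q (-kr) ρ Ng P Vx) (ι := nι N M') (N := N₁) (o := -kr) (fun k hk => by
        obtain ⟨b1, b2⟩ := hbox k hk
        rw [nι_le (hk.trans HL.N1), nAA_ball (hk.trans (HL.N1.trans hNN)),
          nWW_ball (hk.trans (HL.N1.trans hNN))]
        exact ⟨rfl, rfl, b1, b2⟩) hr2 (d := d) (s := s) (fun k hk l hl => by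
        rw [nι_le (hk.trans HL.N1)]
        have := HL.N1
        exact hd k (by omega) l (by omega)) hεs
    have e : -kr * q * J = -(kr * q * J) := by ring
    rw [e] at h1
    exact h1
  · exact apb_of R (by omega) S1 hε hρ (AA := nAA t q (-kr) y ρ Ng P Ax)
      (WW := nWW t q (-kr) ρ Ng P Vx) (ι := vι Ng P Nf) (N := Nf) (o := -(kr + Nf * ρ))
      (fun k hk => by
        obtain ⟨b1, b2⟩ := hfx k hk
        obtain ⟨f1, f2⟩ := HL.far (t := t) (q := q) (y := y) (Ng := Ng) (P := P) hk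
        exact ⟨f1, f2, b1, b2⟩) hr2 (d := d) (s := s)
      (fun k hk l hl => hd _ (hNx k hk) l (by omega)) hεs

/-- **The room at a record.** -/
theorem v_room (R : RecG S al g₀ P₀ θ P₂ θ₂ Eb e₂ c Pt r h K₀ g L T Sl κ G S₀ N₀ A V S₂ N' V' K ε
    q t) (hm : 3 < m) (hK : 0 ≤ K) (J : ℕ) :
    (∀ l ≤ 3, L l t t * J + Eb 3 * J + 3 * (K * (q * J)) ≤ J) ∧ t * J + K * (q * J) ≤ J ∧
      K * (q * J) ≤ t * J ∧ (∀ l ≤ 3, t * J ≤ L l t t * J) := by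
  have hq := R.q0
  have hJ0 : (0 : ℝ) ≤ J := Nat.cast_nonneg J
  have RT := R.tg 3 (by norm_num) hm
  have hKq : 0 ≤ K * q := mul_nonneg hK hq.le
  have ht0 := R.t0
  have ht1 := R.t1
  refine ⟨fun l hl => ?_, ?_, ?_, fun l hl => ?_⟩
  · have h1 := RT.room l hl t (by rw [sub_self, abs_zero]; exact hKq)
    have h2 := mul_le_mul_of_nonneg_right h1.le hJ0
    linarith
  · have h2 := mul_le_mul_of_nonneg_right ht1.le hJ0
    linarith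
  · have h2 := mul_le_mul_of_nonneg_right (show K * q ≤ t by linarith) hJ0
    linarith
  · exact mul_le_mul_of_nonneg_right (R.low_at (by omega) (by linarith) le_rfl (by linarith)) hJ0

/-- **The frame and the far balls at one dimension of a record.** -/
theorem v_frm (R : RecG S al g₀ P₀ θ P₂ θ₂ Eb e₂ c Pt r h K₀ g L T Sl κ G S₀ N₀ A V S₂ N' V' K ε
    q t) (hm : 3 < m) (S1 : Sl 1 = 1) (hε : 0 ≤ ε) (H : LsN (-kr) y ρ Ng P Nx Ax Vx N₀ A V N' V' K)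
    (gr : GrN y ρ Ng P pc N M') (HL : VLs n R₁ N₁ N Nf Nx kr ρ kf K Ax Vx)
    (NU : VNu b n R₁ ne Cg C₀ C C₁ C₂ Cf E A₀ τ kr v ρ μ K xq) (hμ : s₀ + 3 * s = 7 * (μ * q))
    (hs₀ : 4 * (ε * q) ≤ s₀) (hs : 0 < s) (hxx : xx ≤ xq * q)
    (hd : ∀ k < Ng + P + 2 + Nx, ∀ l ≤ 3, 0 < d k l ∧ d k l ≤ s) {J : ℕ}
    (hJ1 : 10 + 2 * (ne : ℝ) + Cg ≤ μ * q * J) (hJ2 : ((n : ℝ) + 2) * (b + 1) ≤ μ * q * J)
    (hJ3 : (Nf : ℝ) ≤ μ * q * J) (g₃ : ℕ) :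
    ⌊s * J⌋₊ ≤ 8 * wU s₀ s J ∧
    FrL J Nf (8 * wU s₀ s J) (wV ρ q J) (wA t q kr y ρ Ng P Ax J) (wW t q kr ρ Ng P Vx J)
      (wG L d t q kr y ρ Ng P Ax Vx J) (vι Ng P Nf) ∧
    FrN J n N₁ C₁ b ⌊(t + -kr * q) * J⌋₊ (⌊t * J⌋₊ - ⌊(t + -kr * q) * J⌋₊) ⌊v * q * J⌋₊
      ⌊v * q * J⌋₊ g₃ ((C₀ + 9 * Cf) * wU s₀ s J + ⌊Eb 3 * J⌋₊) (⌊e₂ 3 * J⌋₊ - 1)
      (C₁ * (C₀ * wU s₀ s J + wV ρ q J + 1))
      ((C * (⌊(s₀ + 3 * s) * J⌋₊ + ⌊2 * ρ * q * J⌋₊ + 1) + ⌊(Eb 3 + s) * J⌋₊ + ⌊xx * J⌋₊) +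
        nlp (fun j => if j < 3 then wG L d t q kr y ρ Ng P Ax Vx J (nι N M' 0) j else g₃) 0 3)
      (C₀ * wU s₀ s J) (wV ρ q J) (C * (⌊(s₀ + 3 * s) * J⌋₊ + ⌊2 * ρ * q * J⌋₊ + 1)) ⌊Eb 3 * J⌋₊
      (C * (⌊(s₀ + 3 * s) * J⌋₊ + ⌊2 * ρ * q * J⌋₊ + 1) + ⌊(Eb 3 + s) * J⌋₊ + ⌊xx * J⌋₊)
      (fun k => wA t q kr y ρ Ng P Ax J (nι N M' k)) (fun _ => ⌊(Eb 3 + s) * J⌋₊)
      (fun k => wG L d t q kr y ρ Ng P Ax Vx J (nι N M' k)) (fun i => R₁ * (i + 1) - 1)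
      (fun i => R₁ * (i + 2) - 1) t (μ * q) ∧
    FrF J Nf C₂ ⌊(t + -kr * q) * J⌋₊ (⌊t * J⌋₊ - ⌊(t + -kr * q) * J⌋₊) ⌊v * q * J⌋₊
      ((C₀ + 9 * Cf) * wU s₀ s J + ⌊Eb 3 * J⌋₊) (C₀ * wU s₀ s J) (wV ρ q J)
      (wA t q kr y ρ Ng P Ax J (vι Ng P Nf 0)) (⌊(t + kf * q) * J⌋₊ - ⌊t * J⌋₊)
      (wG L d t q kr y ρ Ng P Ax Vx J (nι N M' 0) 1) (Cf * (8 * wU s₀ s J + 1)) (wV ρ q J)
      ⌊Eb 3 * J⌋₊ (fun k => wA t q kr y ρ Ng P Ax J (vι Ng P Nf k))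
      (fun k => wG L d t q kr y ρ Ng P Ax Vx J (vι Ng P Nf k)) t (μ * q) ∧
    (((E + 1) * (C₀ * wU s₀ s J + C * (⌊(s₀ + 3 * s) * J⌋₊ + ⌊2 * ρ * q * J⌋₊ + 1) + 3) : ℕ) : ℝ) *
      Real.log 2 + μ * q * J ≤ ⌊v * q * J⌋₊ * Real.log 2 := by
  have hq := R.q0
  have hJ0 : (0 : ℝ) ≤ J := Nat.cast_nonneg J
  have hqJ : 0 ≤ q * J := mul_nonneg hq.le hJ0
  have hne0 : (0 : ℝ) ≤ ne := Nat.cast_nonneg _
  have hCg0 : (0 : ℝ) ≤ Cg := Nat.cast_nonneg _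
  have hμJ : 10 ≤ μ * q * J := by linarith
  have RT := R.tg 3 (by norm_num) hm
  have hεq : 0 ≤ ε * q := mul_nonneg hε hq.le
  have hs₀0 : 0 ≤ s₀ := by linarith
  obtain ⟨AW, AN, AF⟩ := v_ap R hm S1 hε H gr HL NU hμ hs₀ hs hd hμJ hJ2
  have NJ := vnj_of NU hq RT.Eb0 RT.Ebe.le hs₀0 hs.le hμ hxx hJ1
  have hb0 : (3 : ℝ) ≤ b := by exact_mod_cast NU.hb
  have hn1 : (1 : ℝ) ≤ n := by exact_mod_cast NU.n0
  have hv0 := NU.v0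
  have hkr : 0 < kr := by have := NU.w1; linarith
  have hρ := gr.r0
  have hNfρ : (0 : ℝ) ≤ Nf * ρ := by positivity
  have hk0 := HL.k0
  have hk2 := HL.k2
  have hk3 := HL.k3
  have hK : 0 ≤ K := by linarith
  obtain ⟨hroom, hT1, hT0, hlow⟩ := v_room R hm hK J
  have hKQ : ∀ x : ℝ, x ≤ K → x * (q * J) ≤ K * (q * J) := fun x hx =>
    mul_le_mul_of_nonneg_right hx hqJ
  have kK := NU.kK
  have hxq0 := NU.xq0
  have hne' : 0 ≤ (ne : ℝ) * kr := by positivity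
  have hbn : 3 * (n * kr) ≤ b * (n * kr) := mul_le_mul_of_nonneg_right hb0 (by positivity)
  have hb3 : 3 * kr ≤ b * kr := mul_le_mul_of_nonneg_right hb0 hkr.le
  have K1 := hKQ (4 * (n * kr) + 16 * kr) (by linarith)
  have K2 := hKQ (kf + 5 * kr) (by linarith)
  have hκJ : 0 ≤ kr * (q * J) := by positivity
  have hκe : kr * q * (J : ℝ) = kr * (q * J) := by ring
  have hroom1 := hroom 1 (by norm_num)
  have hl1 := hlow 1 (by norm_num)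
  have hl2 : μ * q * J ≤ (s₀ + 3 * s) * J * Real.log 2 := by
    have h1 : (1 / 2 : ℝ) ≤ Real.log 2 := by
      have := Real.log_two_gt_d9
      linarith
    have h3 : 0 ≤ (s₀ + 3 * s) * (J : ℝ) := by positivity
    have h2 := mul_le_mul_of_nonneg_left h1 h3
    have h4 : (s₀ + 3 * s) * (J : ℝ) = 7 * (μ * q * J) := by rw [hμ]; ring
    linarith
  have huJ : (s₀ + 3 * s) * (J : ℝ) = 7 * (μ * q * J) := by rw [hμ]; ring
  have huh := NJ.uh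
  have hhY := NJ.hY
  have hYκ := NJ.Yκ
  have hh1 : 1 ≤ ρ * q * (J : ℝ) := by linarith
  have e1 := NJ.e1Q
  refine ⟨?_, ?_, ?_, ?_, ?_⟩
  · have h1 := Nat.floor_mono (show s * J ≤ (s₀ + 3 * s) * (J : ℝ) from
      mul_le_mul_of_nonneg_right (by linarith) hJ0)
    show ⌊s * J⌋₊ ≤ 8 * (⌊(s₀ + 3 * s) * (J : ℝ)⌋₊ + 1)
    omega
  · refine frl_of (ι := vι Ng P Nf) AF (fun k hk => ?_) (by linarith) (by linarith) NJ.s11 ?_ ?_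
      (by linarith)
    · obtain ⟨f1, f2⟩ := HL.far (t := t) (q := q) (y := y) (Ng := Ng) (P := P) hk
      show ⌊nWW t q (-kr) ρ Ng P Vx (vι Ng P Nf k) * J⌋₊ =
        ⌊nAA t q (-kr) y ρ Ng P Ax (vι Ng P Nf k) * J⌋₊
      rw [f1, f2]
    · have := NJ.v1
      linarith
    · have e2 : -(kr + Nf * ρ) * q * J + (Nf : ℝ) * (ρ * q * J) = -(kr * (q * J)) := by ring
      rw [e2]
      have := hKQ 0 hK
      linarith
  · refine frn_of AW AN ?_ NU.R0 HL.NR le_rfl (by linarith) NJ.es NJ.s1 ?_ NJ.v1 NJ.EX1 hl2 ?_ ?_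
      NJ.y0 NJ.X1 NU.n0 (by have := NU.hb; omega)
    · rw [NU.kR]
      ring
    · have := NJ.s2
      linarith
    · have e3 : 4 * (n * kr) * (q * J) = 4 * (n * (kr * (q * J))) := by ring
      have e4 : n * (kr * q * (J : ℝ)) = n * (kr * (q * J)) := by ring
      have e5 : 0 ≤ n * (kr * (q * J)) := by positivity
      rw [e4]
      linarith
    · have e4 : n * (kr * q * (J : ℝ)) = n * (kr * (q * J)) := by ring
      have e5 : 0 ≤ n * (kr * (q * J)) := by positivity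
      rw [e4]
      linarith
  · have h8 := AN.g11 0 (Nat.zero_le _)
    push_cast at h8
    have hkf : ((⌊(t + kf * q) * J⌋₊ - ⌊t * J⌋₊ : ℕ) : ℝ) ≤ kf * (q * J) + 1 := by
      have hνq : 0 ≤ kf * q := mul_nonneg hk0 hq.le
      have ht0 : 0 ≤ t := by
        have := R.t0
        have := mul_nonneg hK hq.le
        linarith
      have h1 : ⌊t * J⌋₊ ≤ ⌊(t + kf * q) * J⌋₊ :=
        Nat.floor_mono (mul_le_mul_of_nonneg_right (by linarith) hJ0)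
      rw [Nat.cast_sub h1]
      have h2 := Nat.floor_le (show 0 ≤ (t + kf * q) * J by positivity)
      have h3 := (Nat.lt_floor_add_one (t * J)).le
      linarith
    refine frf_of AW AF ?_ ?_ hh1 (by linarith) NJ.ef ?_ NJ.sf1 ?_ NJ.Co ?_ hl2 hkf ?_ ?_ ?_
    · show ⌊(t + -kr * q) * J⌋₊ = ⌊nAA t q (-kr) y ρ Ng P Ax (vι Ng P Nf Nf) * J⌋₊
      have : vι Ng P Nf Nf = 0 := if_neg (lt_irrefl _)
      rw [this, nAA_ball (Nat.zero_le _)]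
      congr 2
      push_cast
      ring
    · ring
    · have h1 := NJ.sf1
      refine nat_of ?_
      linarith
    · linarith
    · have h1 := NJ.sf2
      have h4 := AW.y2
      linarith
    · linarith
    · linarith
    · positivity
  · exact NJ.ly

end

end Pool.VJ77
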