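import Pool.Agent.H77.VJ.Nu5

/-!
# The numbers of the event at a record

`VWd`, `VFd`: the data of the windows; `v_suv`, `v_sug`.
-/

set_option autoImplicit false

namespace Pool.VJ77

open Finset Real MvPolynomial
open Pool.Agent.H49.Ent Pool.Agent.H32.Dense Pool.STK Pool.KA Pool.KSAT Pool.K2S Pool.PB Pool.S6C
open Pool.GEN Pool.CHT Pool.RCD Pool.D2F Pool.CHX Pool.D2Con Pool.D2A Pool.NVX
open Pool.LA91 Pool.PKG
open Pool.STB (V3 Po Bx VbT vbt lv_lin lv_sta box_in FrN LsN GrN nAA nWW nι nAA_ball nWW_ball nAA_ext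
  nWW_ext nι_le)
open Pool.STA37 (ApW nat_of FrL FrF lv_up fat FaT SuG)

/-- **The data of the windows.** -/
structure VWd {m : ℕ} (L : ℕ → ℝ → ℝ → ℝ) (P : List (Fin m) × Fin m → ℝ → ℝ → ℝ)
    (c : ℕ → Fin m) (n : ℕ) (t q kr ρ μ : ℝ) (wi : ℕ → ℚ) (sf : ℕ → ℕ → ℝ) : Prop where
  w1 : ∀ i ≤ n, t + ((i : ℝ) * kr + ρ) * q ≤ wi i
  w2 : ∀ i ≤ n, ∀ j ≤ 3, bet P c j (wi i) (wi i) ≤
    L j (t + ((i : ℝ) * kr + ρ) * q) (t + ((i : ℝ) * kr + ρ) * q) + μ * q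
  f : ∀ i < n, ∀ l < 2, sf i l ≤
    L l (t + (((i : ℝ) + 1) * kr + ρ) * q) (t + (((i : ℝ) + 1) * kr + ρ) * q)

/-- **The data of the far windows.** -/
structure VFd (L : ℕ → ℝ → ℝ → ℝ) (b n Cg Nf : ℕ) (t q kr ρ v kf bb e1 eF : ℝ) (pf : ℕ → ℝ)
    (pr : ℝ) (Nq : ℕ → ℕ → ℝ) (N₂ : ℝ) (Pq : Fin 2 → ℝ) (sn : ℕ → ℝ → ℝ) (sw : ℕ → ℝ) : Prop where
  k1 : (b + 2) * (n * kr) + kr ≤ kf
  hb : bb = t + -(kr + Nf * ρ) * q
  he : 0 < e1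
  hF : 0 < eF
  nq : ∀ l < 2, ∀ j : ℕ, j ≤ 1 → Nq l j + 8 * v * q ≤ L l t t + kf * q - j * t
  n2 : L 3 t t - t + (b - 1) * (n * kr) * q ≤ N₂
  p0 : (kf + 8 * v) * q ≤ Pq 0
  p1 : L 1 bb bb - bb + (kf + 8 * v) * q ≤ Pq 1
  hw : ∀ l < 2, sw l ≤ L l (t + kf * q) (t + kf * q)
  hpf : ∀ l < 2, pf l + 8 * v * q ≤ L l t t
  hpr : pr + (4 * Cg + 8) * v * q ≤ L 3 t t
  hsn : ∀ l < 2, sn l bb + 8 * v * q ≤ L l bb bb + eF

section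

variable {m : ℕ} {S : PCl m} {al : ℝ} {g₀ : ℝ → ℝ} {P₀ : List (Fin m) × Fin m → ℝ → ℝ → ℝ}
  {θ : ℝ} {P₂ : ℕ → List (Fin m) × Fin m → ℝ → ℝ → ℝ} {θ₂ Eb e₂ : ℕ → ℝ}
  {c : ℕ → Fin m} {Pt : ℝ → ℝ → ℝ} {r : ℝ → ℝ} {h K₀ g : ℝ} {L T : ℕ → ℝ → ℝ → ℝ}
  {Sl : ℕ → ℝ} {κ : ℕ → Kg} {G : Set ℝ} {S₀ N₀ : ℕ} {A V : ℕ → ℝ} {S₂ N' : ℕ} {V' : ℕ → ℝ}
  {K ε q t : ℝ} {y ρ : ℝ} {Ng P pc N M' Nx : ℕ} {Ax Vx : ℕ → ℝ}
  {n R₁ N₁ Nf b ne Cg C₀ C C₁ C₂ Cf E : ℕ} {A₀ τ kr v μ kf xq : ℝ}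
  {s₀ s xx : ℝ} {d : ℕ → ℕ → ℝ} {wi : ℕ → ℚ} {sf : ℕ → ℕ → ℝ} {J : ℕ} {F : Fam m J}
  {Gn : ℕ → PtT F → ℕ → MvPolynomial (Option (Fin m)) ℝ}
  {Hn : ℕ → LnT F → ℕ → MvPolynomial (Option (Fin m)) ℝ}
  {pP pPf : PtT F → ℕ → MvPolynomial (Option (Fin m)) ℝ}
  {pH pHf : LnT F → ℕ → MvPolynomial (Option (Fin m)) ℝ}
  {zP : PtT F → MvPolynomial (Option (Fin m)) ℝ} {zH : LnT F → MvPolynomial (Option (Fin m)) ℝ}
  {f : ℕ → PtT F → Po} {f' : ℕ → LnT F → Po} {kp : LnT F → Po} {xP : PtT F → ℝ} {xH : LnT F → ℝ}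
  {lz : ℕ}

/-- The target at the first window. -/
theorem v_g3 (R : RecG S al g₀ P₀ θ P₂ θ₂ Eb e₂ c Pt r h K₀ g L T Sl κ G S₀ N₀ A V S₂ N' V' K ε
    q t) (hm : 3 < m) (S3 : Sl 3 = b) (hε : 0 ≤ ε) (hkr : 0 ≤ kr) (hkK : kr ≤ K)
    (hμ : s₀ + 3 * s = 7 * (μ * q)) (hs₀ : 4 * (ε * q) ≤ s₀)
    (hd : 0 < d 0 3 ∧ d 0 3 ≤ s) (hJ : 10 ≤ μ * q * J) :
    ((⌊(L 3 (t + -kr * q) (t + -kr * q) - d 0 3) * J⌋₊ : ℕ) : ℝ) ≤
      L 3 t t * J - b * (kr * q * J) + (s₀ + 3 * s) * J ∧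
    L 3 t t * J - b * (kr * q * J) - (s₀ + 3 * s) * J ≤
      ((⌊(L 3 (t + -kr * q) (t + -kr * q) - d 0 3) * J⌋₊ : ℕ) : ℝ) := by
  have hJ0 : (0 : ℝ) ≤ J := Nat.cast_nonneg J
  have hq := R.q0
  have hεq : 0 ≤ ε * q := mul_nonneg hε hq.le
  obtain ⟨h1, h2⟩ := lv_up R (l := 3) hm (o := -kr) (by linarith) (by linarith) J
  rw [S3] at h1 h2
  obtain ⟨w1, w2, w3⟩ := box_in R (o := -kr) (by linarith) (by linarith)
  have h3 : 0 ≤ L 3 (t + -kr * q) (t + -kr * q) := w2.le.trans (R.low_at hm w2.le le_rfl w3.le)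
  have hds := mul_le_mul_of_nonneg_right hd.2 hJ0
  have hs₀J : ε * q * J ≤ s₀ * J / 4 := by
    have := mul_le_mul_of_nonneg_right hs₀ hJ0
    linarith
  have hεJ : 0 ≤ ε * q * J := mul_nonneg hεq hJ0
  have hsJ : 0 ≤ s * J := mul_nonneg (hd.1.le.trans hd.2) hJ0
  have e : (s₀ + 3 * s) * (J : ℝ) = 7 * (μ * q * J) := by rw [hμ]; ring
  have e' : (s₀ + 3 * s) * (J : ℝ) = s₀ * J + 3 * (s * J) := by ring
  have hbk : (b : ℝ) * (-kr * (q * J)) = -(b * (kr * q * J)) := by ring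
  have hd0 := mul_nonneg hd.1.le hJ0
  constructor
  · refine (Pool.STA37.fl_up (mul_le_mul_of_nonneg_right (sub_le_self _ hd.1.le) hJ0)
      (mul_nonneg h3 hJ0)).trans ?_
    linarith
  · refine Pool.STA37.fl_lo ?_
    rw [sub_mul]
    linarith

/-- **The numbers of the target and of the windows at a record.** -/
theorem v_suv (R : RecG S al g₀ P₀ θ P₂ θ₂ Eb e₂ c Pt r h K₀ g L T Sl κ G S₀ N₀ A V S₂ N' V' K ε
    q t) (hm : 3 < m) (S1 : Sl 1 = 1) (S3 : Sl 3 = b) (hε : 0 ≤ ε)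
    (H : LsN (-kr) y ρ Ng P Nx Ax Vx N₀ A V N' V' K)
    (gr : GrN y ρ Ng P pc N M') (HL : VLs n R₁ N₁ N Nf Nx kr ρ kf K Ax Vx)
    (NU : VNu b n R₁ ne Cg C₀ C C₁ C₂ Cf E A₀ τ kr v ρ μ K xq) (hμ : s₀ + 3 * s = 7 * (μ * q))
    (hs₀ : 4 * (ε * q) ≤ s₀) (hs : 0 < s) (hxx : xx ≤ xq * q)
    (hd : ∀ k < Ng + P + 2 + Nx, ∀ l ≤ 3, 0 < d k l ∧ d k l ≤ s)
    (hJ1 : 10 + 2 * (ne : ℝ) + Cg ≤ μ * q * J) (hJ2 : ((n : ℝ) + 2) * (b + 1) ≤ μ * q * J)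
    (W : VWd L (P₂ 3) c n t q kr ρ μ wi sf) :
    SuV (P₂ 3) c 3 n b Cg ne A₀ τ (kr * q) (v * q) (μ * q) (e₂ 3) (e₂ 3) wi (fun i => wi (i + 1))
      (fun i => t + (((i : ℝ) + 1) * kr + ρ) * q) sf
      (vbt F c ⌊(t + -kr * q) * J⌋₊ (⌊t * J⌋₊ - ⌊(t + -kr * q) * J⌋₊) ⌊v * q * J⌋₊ ⌊v * q * J⌋₊
        ⌊(L 3 (t + -kr * q) (t + -kr * q) - d 0 3) * J⌋₊
        ((C₀ + 9 * Cf) * wU s₀ s J + ⌊Eb 3 * J⌋₊) (⌊e₂ 3 * J⌋₊ - 1)
        ((C₀ + 9 * Cf) * wU s₀ s J + ⌊Eb 3 * J⌋₊ + ⌊v * q * J⌋₊ + 2 * ⌊v * q * J⌋₊ + 6)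
        (C₁ * (C₀ * wU s₀ s J + wV ρ q J + 1)) lz
        (fun k => wA t q kr y ρ Ng P Ax J (nι N M' k))
        (fun k => wG L d t q kr y ρ Ng P Ax Vx J (nι N M' k)) (fun i => R₁ * (i + 1) - 1)
        (fun i => R₁ * (i + 2) - 1) Gn Hn pP pH zP zH f f' kp) := by
  have hq := R.q0
  have hJ0 : (0 : ℝ) ≤ J := Nat.cast_nonneg J
  have hqJ : 0 ≤ q * J := mul_nonneg hq.le hJ0
  have hne0 : (0 : ℝ) ≤ ne := Nat.cast_nonneg _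
  have hCg0 : (0 : ℝ) ≤ Cg := Nat.cast_nonneg _
  have hμJ : 10 ≤ μ * q * J := by linarith
  have RT := R.tg 3 (by norm_num) hm
  have hεq : 0 ≤ ε * q := mul_nonneg hε hq.le
  have hs₀0 : 0 ≤ s₀ := by linarith
  obtain ⟨AW, AN, -⟩ := v_ap R hm S1 hε H gr HL NU hμ hs₀ hs hd hμJ hJ2
  have NJ := vnj_of NU hq RT.Eb0 RT.Ebe.le hs₀0 hs.le hμ hxx hJ1
  have hb0 : (3 : ℝ) ≤ b := by exact_mod_cast NU.hb
  have hn1 : (1 : ℝ) ≤ n := by exact_mod_cast NU.n0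
  have hv0 := NU.v0
  have hkr : 0 < kr := by have := NU.w1; linarith
  have hρ := gr.r0
  have hNfρ : (0 : ℝ) ≤ Nf * ρ := by positivity
  have hk0 := HL.k0
  have hk2 := HL.k2
  have hk3 := HL.k3
  have hK : 0 ≤ K := by linarith
  have hkK : kr ≤ K := by linarith
  obtain ⟨hroom, hT1, hT0, hlow⟩ := v_room R hm hK J
  have hKQ : ∀ x : ℝ, x ≤ K → x * (q * J) ≤ K * (q * J) := fun x hx =>
    mul_le_mul_of_nonneg_right hx hqJ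
  have kK := NU.kK
  have hxq0 := NU.xq0
  have hne' : 0 ≤ (ne : ℝ) * kr := by positivity
  have hbn : 3 * (n * kr) ≤ b * (n * kr) := mul_le_mul_of_nonneg_right hb0 (by positivity)
  have hb3 : 3 * kr ≤ b * kr := mul_le_mul_of_nonneg_right hb0 hkr.le
  have K1 := hKQ (b * (n * kr) + n * kr + 16 * kr) (by linarith)
  have hnκ : 0 ≤ n * (kr * (q * J)) := by positivity
  have hκJ : 0 ≤ kr * (q * J) := by positivity
  have hbnκ : 3 * (n * (kr * (q * J))) ≤ b * (n * (kr * (q * J))) :=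
    mul_le_mul_of_nonneg_right hb0 hnκ
  have e4 : n * (kr * q * (J : ℝ)) = n * (kr * (q * J)) := by ring
  have e5 : (b * (n * kr) + n * kr + 16 * kr) * (q * (J : ℝ)) =
    b * (n * (kr * (q * J))) + n * (kr * (q * J)) + 16 * (kr * (q * J)) := by ring
  rw [e5] at K1
  have e6 : kr * q * (J : ℝ) = kr * (q * J) := by ring
  have huh := NJ.uh
  have hhY := NJ.hY
  have hYκ := NJ.Yκ
  have hu : (s₀ + 3 * s) * (J : ℝ) = 7 * (μ * q * J) := by rw [hμ]; ring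
  have hεJ : ε * q * J ≤ 7 / 4 * (μ * q * J) := by
    have h1 : ε * q ≤ 7 / 4 * (μ * q) := by linarith
    have h2 := mul_le_mul_of_nonneg_right h1 hJ0
    linarith
  have hρκ : ρ ≤ kr := by
    have h1 := NU.kR
    have h2 : (1 : ℝ) ≤ R₁ := by exact_mod_cast NU.R0
    have h3 : 1 * ρ ≤ R₁ * ρ := mul_le_mul_of_nonneg_right h2 hρ.le
    linarith
  -- the offsets
  have ho : ∀ i ≤ n, -K ≤ (i : ℝ) * kr + ρ ∧ (i : ℝ) * kr + ρ ≤ K := fun i hi => by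
    have h1 : (i : ℝ) * kr ≤ n * kr := mul_le_mul_of_nonneg_right (by exact_mod_cast hi) hkr.le
    have h2 : (0 : ℝ) ≤ i * kr := by positivity
    have h3 : 0 ≤ b * (n * kr) := by positivity
    refine ⟨by linarith, by linarith⟩
  have ei : ∀ i : ℕ, ((i : ℝ) * kr + ρ) * (q * J) = i * (kr * q * J) + ρ * q * J := fun i => by
    ring
  have lvw : ∀ i ≤ n, ∀ l ≤ 3, L l (t + ((i : ℝ) * kr + ρ) * q) (t + ((i : ℝ) * kr + ρ) * q) * J ≤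
      L l t t * J + Sl l * (i * (kr * q * J) + ρ * q * J) + ε * q * J := fun i hi l hl => by
    have h1 := (lv_up R (l := l) (by omega) (ho i hi).1 (ho i hi).2 J).1
    rwa [ei i] at h1
  have hi1 : ∀ i < n, ((i + 1 : ℕ) : ℝ) = (i : ℝ) + 1 := fun i _ => by push_cast; ring
  have lv2 : ∀ i < n, ∀ l < 2, L l (t + (((i : ℝ) + 1) * kr + ρ) * q)
      (t + (((i : ℝ) + 1) * kr + ρ) * q) * J ≤
      L l t t * J + ((i + 1) * (kr * q * J) + ρ * q * J) + ε * q * J := fun i hi l hl => by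
    have h1 := lvw (i + 1) (by omega) l (by omega)
    rw [hi1 i hi] at h1
    have h2 : Sl l = 1 := by
      have : l = 0 ∨ l = 1 := by omega
      rcases this with rfl | rfl
      · exact R.s0
      · exact S1
    rw [h2, one_mul] at h1
    exact h1
  have h00 : L 0 t t * J ≤ t * J + ε * q * J := by
    have h1 := abs_le.1 (R.l0 t (by rw [sub_self, abs_zero]; positivity))
    have h2 := mul_le_mul_of_nonneg_right h1.2 hJ0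
    linarith
  obtain ⟨g31, g32⟩ := v_g3 (b := b) R hm S3 hε hkr.le hkK hμ hs₀ (hd 0 (by omega) 3 le_rfl) hμJ
  have hCgY := NJ.CgY
  have hw1J : ∀ i ≤ n, t * J + (i * (kr * q * J) + ρ * q * J) ≤ wi i * J := fun i hi => by
    have h1 := mul_le_mul_of_nonneg_right (W.w1 i hi) hJ0
    have h2 := ei i
    linarith
  refine suv_vbt AW AN ?_ NU.R0 HL.NR NU.n0 rfl g31 g32 le_rfl rfl ?_ NU.A0 NU.τ0 ?_ ?_ ?_ ?_ ?_
    ?_ ?_ ?_ ?_ NJ.e1u ?_ ?_ NJ.e2J NJ.e1e ?_ ?_ ?_ NJ.st1 NJ.gr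
  · rw [NU.kR]
    ring
  · have h1 : 6 * A₀ * v * (q * J) ≤ τ * kr * (q * J) := mul_le_mul_of_nonneg_right NU.w2 hqJ
    have h3 : A₀ * 1 ≤ A₀ * (v * q * J) := mul_le_mul_of_nonneg_left (by linarith) NU.A0
    have h4 : τ * 1 ≤ τ * (kr * q * J / 2) := mul_le_mul_of_nonneg_left (by linarith) NU.τ0
    linarith
  · intro i hi
    have h1 := hw1J i hi.le
    linarith
  · intro i hi
    have h1 := mul_le_mul_of_nonneg_right (W.w2 i hi.le 3 le_rfl) hJ0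
    have h2 := lvw i hi.le 3 le_rfl
    rw [S3] at h2
    linarith
  · intro i hi
    have h1 := hw1J (i + 1) hi
    rw [hi1 i hi] at h1
    linarith
  · intro i hi
    have h1 := mul_le_mul_of_nonneg_right (W.w2 (i + 1) hi 0 (by norm_num)) hJ0
    rw [hi1 i hi] at h1
    have h2 := lv2 i hi 0 (by norm_num)
    linarith
  · intro i hi
    have h1 := mul_le_mul_of_nonneg_right (W.w2 (i + 1) hi 1 (by norm_num)) hJ0
    rw [hi1 i hi] at h1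
    have h2 := lv2 i hi 1 (by norm_num)
    linarith
  · intro i hi
    show t * J + (i + 1) * (kr * q * J) + 2 * ((s₀ + 3 * s) * J) ≤
      (t + (((i : ℝ) + 1) * kr + ρ) * q) * J
    linarith
  · intro i hi
    have h1 := mul_le_mul_of_nonneg_right (W.f i hi 0 (by norm_num)) hJ0
    have h2 := lv2 i hi 0 (by norm_num)
    linarith
  · intro i hi
    have h1 := mul_le_mul_of_nonneg_right (W.f i hi 1 (by norm_num)) hJ0
    have h2 := lv2 i hi 1 (by norm_num)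
    linarith
  · have := hlow 1 (by norm_num)
    linarith
  · omega
  · omega
  · have h1 := NJ.e2Q
    have h2 := hroom 1 (by norm_num)
    rw [e4]
    linarith
  · rw [e4]
    linarith
  · have h2 := hroom 3 le_rfl
    have h3 : 0 ≤ Eb 3 * (J : ℝ) := mul_nonneg RT.Eb0.le hJ0
    rw [e4]
    linarith

end

end Pool.VJ77
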