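import Pool.Agent.H77.VJ.Nu6

/-!
# The numbers of the far data at a record

`v_sug`.
-/

set_option autoImplicit false

namespace Pool.VJ77

open Finset Real MvPolynomial
open Pool.Agent.H49.Ent Pool.Agent.H32.Dense Pool.STK Pool.KA Pool.KSAT Pool.K2S Pool.PB Pool.S6C
open Pool.GEN Pool.CHT Pool.RCD Pool.D2F Pool.CHX Pool.D2Con Pool.D2A Pool.NVX
open Pool.LA91 Pool.PKG
open Pool.STB (V3 Po Bx VbT vbt lv_lin lv_sta box_in FrN LsN GrN nAA nWW nι nAA_ball nWW_ball nAA_ext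
  nWW_ext nι_le)
open Pool.STA37 (ApW nat_of FrL FrF lv_up fat FaT SuG)

section

variable {m : ℕ} {S : PCl m} {al : ℝ} {g₀ : ℝ → ℝ} {P₀ : List (Fin m) × Fin m → ℝ → ℝ → ℝ}
  {θ : ℝ} {P₂ : ℕ → List (Fin m) × Fin m → ℝ → ℝ → ℝ} {θ₂ Eb e₂ : ℕ → ℝ}
  {c : ℕ → Fin m} {Pt : ℝ → ℝ → ℝ} {r : ℝ → ℝ} {h K₀ g : ℝ} {L T : ℕ → ℝ → ℝ → ℝ}
  {Sl : ℕ → ℝ} {κ : ℕ → Kg} {G : Set ℝ} {S₀ N₀ : ℕ} {A V : ℕ → ℝ} {S₂ N' : ℕ} {V' : ℕ → ℝ}
  {K ε q t : ℝ} {y ρ : ℝ} {Ng P pc N M' Nx : ℕ} {Ax Vx : ℕ → ℝ}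
  {n R₁ N₁ Nf b ne Cg C₀ C C₁ C₂ Cf E : ℕ} {A₀ τ kr v μ kf xq : ℝ}
  {s₀ s xx : ℝ} {d : ℕ → ℕ → ℝ} {J : ℕ} {F : Fam m J}
  {Gn : ℕ → PtT F → ℕ → MvPolynomial (Option (Fin m)) ℝ}
  {Hn : ℕ → LnT F → ℕ → MvPolynomial (Option (Fin m)) ℝ}
  {pP pPf : PtT F → ℕ → MvPolynomial (Option (Fin m)) ℝ}
  {pH pHf : LnT F → ℕ → MvPolynomial (Option (Fin m)) ℝ}
  {zP : PtT F → MvPolynomial (Option (Fin m)) ℝ} {zH : LnT F → MvPolynomial (Option (Fin m)) ℝ}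
  {f : ℕ → PtT F → Po} {f' : ℕ → LnT F → Po} {kp : LnT F → Po} {xP : PtT F → ℝ} {xH : LnT F → ℝ}
  {lz : ℕ} {bb e1 eF pr : ℝ} {pf : ℕ → ℝ} {Nq : ℕ → ℕ → ℝ} {Nz : ℝ} {Pq : Fin 2 → ℝ}
  {sn : ℕ → ℝ → ℝ} {sw : ℕ → ℝ}

/-- **The numbers of the far data and of the labels at a record.** -/
theorem v_sug (R : RecG S al g₀ P₀ θ P₂ θ₂ Eb e₂ c Pt r h K₀ g L T Sl κ G S₀ N₀ A V S₂ N' V' K ε
    q t) (hm : 3 < m) (S1 : Sl 1 = 1) (S3 : Sl 3 = b) (hε : 0 ≤ ε)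
    (H : LsN (-kr) y ρ Ng P Nx Ax Vx N₀ A V N' V' K)
    (gr : GrN y ρ Ng P pc N M') (HL : VLs n R₁ N₁ N Nf Nx kr ρ kf K Ax Vx)
    (NU : VNu b n R₁ ne Cg C₀ C C₁ C₂ Cf E A₀ τ kr v ρ μ K xq) (hμ : s₀ + 3 * s = 7 * (μ * q))
    (hs₀ : 4 * (ε * q) ≤ s₀) (hs : 0 < s) (hxx : xx ≤ xq * q)
    (hd : ∀ k < Ng + P + 2 + Nx, ∀ l ≤ 3, 0 < d k l ∧ d k l ≤ s)
    (hJ1 : 10 + 2 * (ne : ℝ) + Cg ≤ μ * q * J) (hJ2 : ((n : ℝ) + 2) * (b + 1) ≤ μ * q * J)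
    (W : VFd L b n Cg Nf t q kr ρ v kf bb e1 eF pf pr Nq Nz Pq sn sw) :
    SuG n b Cg t (t + kf * q) bb e1 eF pf pr Nq Nz Pq sn sw
      (vbt F c ⌊(t + -kr * q) * J⌋₊ (⌊t * J⌋₊ - ⌊(t + -kr * q) * J⌋₊) ⌊v * q * J⌋₊ ⌊v * q * J⌋₊
        ⌊(L 3 (t + -kr * q) (t + -kr * q) - d 0 3) * J⌋₊
        ((C₀ + 9 * Cf) * wU s₀ s J + ⌊Eb 3 * J⌋₊) (⌊e₂ 3 * J⌋₊ - 1)
        ((C₀ + 9 * Cf) * wU s₀ s J + ⌊Eb 3 * J⌋₊ + ⌊v * q * J⌋₊ + 2 * ⌊v * q * J⌋₊ + 6)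
        (C₁ * (C₀ * wU s₀ s J + wV ρ q J + 1)) lz
        (fun k => wA t q kr y ρ Ng P Ax J (nι N M' k))
        (fun k => wG L d t q kr y ρ Ng P Ax Vx J (nι N M' k)) (fun i => R₁ * (i + 1) - 1)
        (fun i => R₁ * (i + 2) - 1) Gn Hn pP pH zP zH f f' kp)
      (fat F c ⌊(t + -kr * q) * J⌋₊ (⌊t * J⌋₊ - ⌊(t + -kr * q) * J⌋₊)
        (wA t q kr y ρ Ng P Ax J (vι Ng P Nf 0)) (⌊(t + kf * q) * J⌋₊ - ⌊t * J⌋₊)
        (fun k => wG L d t q kr y ρ Ng P Ax Vx J (vι Ng P Nf k)) pPf pHf xP xH)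
      (2 ^ wG L d t q kr y ρ Ng P Ax Vx J (nι N M' 0) 1 *
        2 ^ wA t q kr y ρ Ng P Ax J (vι Ng P Nf 0) /
        (2 ^ ⌊(t + -kr * q) * J⌋₊ * 2 ^ wG L d t q kr y ρ Ng P Ax Vx J (vι Ng P Nf 0) 1)) := by
  have hq := R.q0
  have hJ0 : (0 : ℝ) ≤ J := Nat.cast_nonneg J
  have hqJ : 0 ≤ q * J := mul_nonneg hq.le hJ0
  have hne0 : (0 : ℝ) ≤ ne := Nat.cast_nonneg _
  have hCg0 : (0 : ℝ) ≤ Cg := Nat.cast_nonneg _
  have hμJ : 10 ≤ μ * q * J := by linarith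
  have RT := R.tg 3 (by norm_num) hm
  have hεq : 0 ≤ ε * q := mul_nonneg hε hq.le
  have hs₀0 : 0 ≤ s₀ := by linarith
  obtain ⟨AW, AN, AF⟩ := v_ap R hm S1 hε H gr HL NU hμ hs₀ hs hd hμJ hJ2
  have NJ := vnj_of NU hq RT.Eb0 RT.Ebe.le hs₀0 hs.le hμ hxx hJ1
  have hb0 : (3 : ℝ) ≤ b := by exact_mod_cast NU.hb
  have hn1 : (1 : ℝ) ≤ n := by exact_mod_cast NU.n0
  have hv0 := NU.v0
  have hkr : 0 < kr := by have := NU.w1; linarith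
  have hρ := gr.r0
  have hNfρ : (0 : ℝ) ≤ Nf * ρ := by positivity
  have hk0 := HL.k0
  have hk2 := HL.k2
  have hk3 := HL.k3
  have hK : 0 ≤ K := by linarith
  have hkK : kr ≤ K := by linarith
  have hKq : 0 ≤ K * q := mul_nonneg hK hq.le
  obtain ⟨hroom, hT1, hT0, hlow⟩ := v_room R hm hK J
  have hKQ : ∀ x : ℝ, x ≤ K → x * (q * J) ≤ K * (q * J) := fun x hx =>
    mul_le_mul_of_nonneg_right hx hqJ
  have kK := NU.kK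
  have hxq0 := NU.xq0
  have hnκ : 0 ≤ n * (kr * (q * J)) := by positivity
  have hκJ : 0 ≤ kr * (q * J) := by positivity
  have e4 : n * (kr * q * (J : ℝ)) = n * (kr * (q * J)) := by ring
  have e6 : kr * q * (J : ℝ) = kr * (q * J) := by ring
  have huh := NJ.uh
  have hhY := NJ.hY
  have hYκ := NJ.Yκ
  have hu : (s₀ + 3 * s) * (J : ℝ) = 7 * (μ * q * J) := by rw [hμ]; ring
  have hεJ : ε * q * J ≤ 7 / 4 * (μ * q * J) := by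
    have h1 : ε * q ≤ 7 / 4 * (μ * q) := by linarith
    have h2 := mul_le_mul_of_nonneg_right h1 hJ0
    linarith
  have h00 := mul_le_mul_of_nonneg_right
    (abs_le.1 (R.l0 t (by rw [sub_self, abs_zero]; exact hKq))).2 hJ0
  rw [sub_mul] at h00
  obtain ⟨g31, g32⟩ := v_g3 (b := b) R hm S3 hε hkr.le hkK hμ hs₀ (hd 0 (by omega) 3 le_rfl) hμJ
  have hCgY := NJ.CgY
  have he1Q := NJ.e1Q
  have hroom1 := hroom 1 (by norm_num)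
  have hl1 := hlow 1 (by norm_num)
  have hl3 := hlow 3 le_rfl
  have hkν : 0 ≤ kf * q := mul_nonneg hk0 hq.le
  have hkfJ : 0 ≤ kf * (q * J) := mul_nonneg hk0 hqJ
  have K2 := hKQ (kf + 5 * kr) (by linarith)
  have K3 : (kr + Nf * ρ + 4 * kr) * (q * J) ≤ K * (q * J) := hKQ _ hk3
  have K4 : (kf + kr) * (q * J) ≤ (kr + Nf * ρ) * (q * J) := mul_le_mul_of_nonneg_right hk2 hqJ
  -- the far window
  have hν1 := (lv_up R (l := 0) (by omega) (o := kf) (by linarith) (by linarith) J).1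
  have hν2 := (lv_up R (l := 1) (by omega) (o := kf) (by linarith) (by linarith) J).1
  rw [R.s0] at hν1
  rw [S1] at hν2
  -- the early window
  have hbb1 : |bb - t| ≤ K * q := by
    have h4 : (kr + (Nf : ℝ) * ρ) * q ≤ K * q := mul_le_mul_of_nonneg_right (by linarith) hq.le
    have h5 : 0 ≤ (kr + (Nf : ℝ) * ρ) * q := by positivity
    rw [W.hb, abs_le]
    constructor <;> linarith
  have hbJ : bb * J = t * J - (kr + Nf * ρ) * (q * J) := by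
    rw [W.hb]
    ring
  have hbl0 := mul_le_mul_of_nonneg_right (abs_le.1 (R.l0 bb hbb1)).2 hJ0
  have hbl1 := mul_le_mul_of_nonneg_right (abs_le.1 (R.dL 1 (by omega) bb hbb1)).2 hJ0
  have hbl1' := mul_le_mul_of_nonneg_right (abs_le.1 (R.dL 1 (by omega) bb hbb1)).1 hJ0
  rw [S1] at hbl1 hbl1'
  have eb1 : (L 1 bb bb - L 1 t t - 1 * (bb - t)) * (J : ℝ) =
    L 1 bb bb * J - L 1 t t * J - bb * J + t * J := by ring
  rw [eb1] at hbl1 hbl1'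
  rw [sub_mul] at hbl0
  have hP0 := mul_le_mul_of_nonneg_right W.p0 hJ0
  have hP1 := mul_le_mul_of_nonneg_right W.p1 hJ0
  have hN2 := mul_le_mul_of_nonneg_right W.n2 hJ0
  have hk1 := mul_le_mul_of_nonneg_right W.k1 hqJ
  have hsw0 := mul_le_mul_of_nonneg_right (W.hw 0 (by norm_num)) hJ0
  have hsw1 := mul_le_mul_of_nonneg_right (W.hw 1 (by norm_num)) hJ0
  have hpf0 := mul_le_mul_of_nonneg_right (W.hpf 0 (by norm_num)) hJ0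
  have hpf1 := mul_le_mul_of_nonneg_right (W.hpf 1 (by norm_num)) hJ0
  have hpr := mul_le_mul_of_nonneg_right W.hpr hJ0
  have hsn0 := mul_le_mul_of_nonneg_right (W.hsn 0 (by norm_num)) hJ0
  have hsn1 := mul_le_mul_of_nonneg_right (W.hsn 1 (by norm_num)) hJ0
  have hq00 := mul_le_mul_of_nonneg_right (W.nq 0 (by norm_num) 0 (by norm_num)) hJ0
  have hq10 := mul_le_mul_of_nonneg_right (W.nq 1 (by norm_num) 0 (by norm_num)) hJ0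
  have hq01 := mul_le_mul_of_nonneg_right (W.nq 0 (by norm_num) 1 (by norm_num)) hJ0
  have hq11 := mul_le_mul_of_nonneg_right (W.nq 1 (by norm_num) 1 (by norm_num)) hJ0
  push_cast at hq00 hq10 hq01 hq11
  have he1J : 0 ≤ e1 * J := mul_nonneg W.he.le hJ0
  have heFJ : 0 ≤ eF * J := mul_nonneg W.hF.le hJ0
  have hCgY' : (Cg : ℝ) * (v * q * J + 1) ≤ 2 * (Cg * (v * q * J)) := by
    have := mul_le_mul_of_nonneg_left (show (1 : ℝ) ≤ v * q * J by linarith) hCg0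
    linarith
  have hCgv : 0 ≤ (Cg : ℝ) * (v * q * J) := mul_nonneg hCg0 (by linarith)
  have hbκ : 1 * (kr * q * J) ≤ (b - 2) * (kr * q * J) :=
    mul_le_mul_of_nonneg_right (by linarith) AW.κ0
  have eT : t * J + -(kr + Nf * ρ) * q * J = bb * J := by
    rw [hbJ]
    ring
  refine sug_vbt AW AN NU.n0 g31 g32 (Kf := kf * q * J) AF ?_ ?_ ?_ eT.le ?_ (by linarith) ?_ ?_ ?_
    NU.hb ?_ ?_ ?_ ?_ ?_ ?_ ?_ ?_ ?_ ?_ ?_ ?_ ?_ ?_ ?_ ?_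
  · -- htt
    have : ⌊(t + -kr * q) * (J : ℝ)⌋₊ ≤ ⌊t * (J : ℝ)⌋₊ :=
      Nat.floor_mono (mul_le_mul_of_nonneg_right (by
        have : 0 ≤ kr * q := by positivity
        linarith) hJ0)
    omega
  · ring
  · -- hkf
    have : ⌊t * (J : ℝ)⌋₊ ≤ ⌊(t + kf * q) * (J : ℝ)⌋₊ :=
      Nat.floor_mono (mul_le_mul_of_nonneg_right (by linarith) hJ0)
    omega
  · have h1 := (abs_le.1 hbb1).2
    have h2 := R.t1
    linarith
  · linarith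
  · linarith
  · -- hkk
    rw [e4]
    linarith
  · -- hN₂
    rw [e4]
    linarith
  · linarith
  · linarith
  · linarith
  · linarith
  · linarith
  · linarith
  · linarith
  · linarith
  · linarith
  · linarith
  · linarith
  · linarith
  · rw [eT]
    linarith
  · linarith
  · rw [eT]
    linarith

end

end Pool.VJ77
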