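import Pool.Agent.H77.VJ.Nu7

/-!
# The constants and the rational windows

`vnu_ex`: the constants exist; `v_wi`: the rational windows.
-/

set_option autoImplicit false

namespace Pool.VJ77

open Finset Real MvPolynomial
open Pool.Agent.H49.Ent Pool.Agent.H32.Dense Pool.STK Pool.KA Pool.KSAT Pool.K2S Pool.PB Pool.S6C
open Pool.GEN Pool.CHT Pool.RCD Pool.D2F Pool.CHX Pool.D2Con Pool.D2A Pool.NVX
open Pool.LA91 Pool.PKG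
open Pool.STB (V3 Po Bx VbT vbt lv_lin lv_sta box_in FrN LsN GrN nAA nWW nι nAA_ball nWW_ball nAA_ext
  nWW_ext nι_le)

/-- **The constants exist.** -/
theorem vnu_ex {b n : ℕ} (ne Cg : ℕ) {C₀ : ℕ} (C C₁ C₂ : ℕ) {Cf : ℕ} (E : ℕ) {A τ kr : ℝ}
    (hb : 3 ≤ b) (hn : 0 < n) (c0 : 1 ≤ C₀) (cf : 1 ≤ Cf) (hA : 0 ≤ A) (hτ : 0 < τ)
    (hkr : 0 < kr) : ∃ u₀ : ℝ, 0 < u₀ ∧ u₀ ≤ kr ∧ ∀ v : ℝ, 0 < v → v ≤ u₀ →
      ∃ s₁ : ℝ, 0 < s₁ ∧ s₁ ≤ v ∧ ∀ ρ : ℝ, 0 < ρ → ρ ≤ s₁ → ∃ s₂ : ℝ, 0 < s₂ ∧ s₂ ≤ ρ ∧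
        C₀ * (2 * s₂) ≤ ρ ∧
      ∀ (μ : ℝ) (R₁ : ℕ) (K xq : ℝ), 0 < μ → 7 * μ ≤ s₂ → 1 ≤ R₁ → kr = R₁ * ρ → 0 ≤ xq →
        xq + (ne + b * (n + 2) + n + 10) * kr ≤ K →
        VNu b n R₁ ne Cg C₀ C C₁ C₂ Cf E A τ kr v ρ μ K xq := by
  obtain ⟨B, hB⟩ : ∃ B : ℝ, B = 40 + 6 * A / τ + 8 * Cg := ⟨_, rfl⟩
  have hAτ : 0 ≤ 6 * A / τ := by positivity
  have hCg : (0 : ℝ) ≤ Cg := Nat.cast_nonneg _
  have hB0 : 0 < B := by rw [hB]; positivity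
  have hB1 : 1 ≤ B := by rw [hB]; linarith
  refine ⟨kr / B, by positivity, div_le_self hkr.le hB1, fun v hv hvu => ?_⟩
  have hvB : v * B ≤ kr := by rwa [le_div_iff₀ hB0] at hvu
  have hC0 : (0 : ℝ) ≤ C := Nat.cast_nonneg _
  have hC1 : (0 : ℝ) ≤ C₁ := Nat.cast_nonneg _
  have hC2 : (0 : ℝ) ≤ C₂ := Nat.cast_nonneg _
  have hE0 : (0 : ℝ) ≤ E := Nat.cast_nonneg _
  have hb0 : (0 : ℝ) ≤ b := Nat.cast_nonneg _
  obtain ⟨D, hD⟩ : ∃ D : ℝ, D = (10 * b + 40) + 8 * C + 8 * C₁ + 20 * C₂ +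
    8 * (((E : ℝ) + 1) * (C + 2)) := ⟨_, rfl⟩
  have hEC : 0 ≤ ((E : ℝ) + 1) * (C + 2) := by positivity
  have hD0 : 0 < D := by rw [hD]; positivity
  have hD1 : 1 ≤ D := by rw [hD]; linarith
  refine ⟨v / D, by positivity, div_le_self hv.le hD1, fun ρ hρ hρs => ?_⟩
  have hρD : ρ * D ≤ v := by rwa [le_div_iff₀ hD0] at hρs
  have hC₀ : (1 : ℝ) ≤ C₀ := by exact_mod_cast c0
  have hCf : (1 : ℝ) ≤ Cf := by exact_mod_cast cf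
  obtain ⟨G, hG⟩ : ∃ G : ℝ, G = 280 + 16 * C₀ + 200 * Cf := ⟨_, rfl⟩
  have hG0 : 0 < G := by rw [hG]; positivity
  have hG1 : 1 ≤ G := by rw [hG]; linarith
  have hs2 : 0 < ρ / G := by positivity
  have hsG : ρ / G * G = ρ := by field_simp
  refine ⟨ρ / G, hs2, div_le_self hρ.le hG1, ?_, ?_⟩
  · have h1 : ρ / G * (2 * C₀) ≤ ρ / G * G :=
      mul_le_mul_of_nonneg_left (by rw [hG]; linarith) hs2.le
    linarith
  intro μ R₁ K xq hμ hμs hR₁ hkR hxq hK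
  have hμG : μ * G ≤ ρ := by
    have h1 : μ * G ≤ ρ / G * G := mul_le_mul_of_nonneg_right (by linarith) hG0.le
    linarith
  have m1 : 0 ≤ μ * C₀ := by positivity
  have m2 : 0 ≤ μ * Cf := by positivity
  have p0 : 0 ≤ ρ * b := by positivity
  have p1 : 0 ≤ ρ * C := by positivity
  have p2 : 0 ≤ ρ * C₁ := by positivity
  have p3 : 0 ≤ ρ * C₂ := by positivity
  have p4 : 0 ≤ ρ * (((E : ℝ) + 1) * (C + 2)) := by positivity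
  have v1 : 0 ≤ v * (6 * A / τ) := by positivity
  have v2 : 0 ≤ v * Cg := by positivity
  rw [hG] at hμG
  rw [hD] at hρD
  rw [hB] at hvB
  exact
    { hb := hb
      n0 := hn
      R0 := hR₁
      c0 := c0
      cf := cf
      A0 := hA
      τ0 := hτ.le
      v0 := hv
      μ0 := hμ
      xq0 := hxq
      kR := hkR
      e1 := by linarith
      e2 := by linarith
      e3 := by linarith
      r1 := by linarith
      r2 := by linarith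
      r3 := by linarith
      r4 := by linarith
      r5 := by linarith
      w1 := by linarith
      w2 := by
        have h1 : v * (6 * A / τ) ≤ kr := by linarith
        have h2 : 6 * A * v = v * (6 * A / τ) * τ := by field_simp
        rw [h2]
        have := mul_le_mul_of_nonneg_right h1 hτ.le
        linarith
      w3 := by linarith
      kK := hK }

section

variable {m : ℕ} {S : PCl m} {al : ℝ} {g₀ : ℝ → ℝ} {P₀ : List (Fin m) × Fin m → ℝ → ℝ → ℝ}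
  {θ : ℝ} {P₂ : ℕ → List (Fin m) × Fin m → ℝ → ℝ → ℝ} {θ₂ Eb e₂ : ℕ → ℝ}
  {c : ℕ → Fin m} {Pt : ℝ → ℝ → ℝ} {r : ℝ → ℝ} {h K₀ g : ℝ} {L T : ℕ → ℝ → ℝ → ℝ}
  {Sl : ℕ → ℝ} {κ : ℕ → Kg} {G : Set ℝ} {S₀ N₀ : ℕ} {A V : ℕ → ℝ} {S₂ N' : ℕ} {V' : ℕ → ℝ}
  {K ε q t : ℝ}

/-- **The rational windows.** -/
theorem v_wi (R : RecG S al g₀ P₀ θ P₂ θ₂ Eb e₂ c Pt r h K₀ g L T Sl κ G S₀ N₀ A V S₂ N' V' K ε
    q t) (hm : 3 < m) {n : ℕ} {kr ρ μ : ℝ} (hkr : 0 < kr) (hρ : 0 < ρ) (hμ : 0 < μ) (hμK : μ ≤ K)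
    (hnK : (n + 1) * kr + ρ ≤ K) (hV : ∀ i ≤ n, ∃ k < N', V' k = (i : ℝ) * kr + ρ) :
    ∃ wi : ℕ → ℚ, (∀ i ≤ n, t + ((i : ℝ) * kr + ρ) * q ≤ (wi i : ℝ) ∧ ∀ j ≤ 3,
        bet (P₂ 3) c j (wi i) (wi i) ≤
          L j (t + ((i : ℝ) * kr + ρ) * q) (t + ((i : ℝ) * kr + ρ) * q) + μ * q) ∧
      ∀ i ≤ n, 0 < wi i ∧ wi i ≤ 1 ∧ e₂ 3 < θ₂ 3 * wi i ∧
        ∀ j ≤ 3, bet (P₂ 3) c j (wi i) (wi i) + μ * q ≤ 1 := by
  have hq := R.q0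
  have hμq : 0 < μ * q := mul_pos hμ hq
  have hkq : 0 < kr * q := mul_pos hkr hq
  have hρq : 0 < ρ * q := mul_pos hρ hq
  have W := R.tg 3 (by norm_num) hm
  obtain ⟨rr, hrr⟩ := Pool.STB6.rat_win (o0 := -kr + ρ) (e := μ * q) (n := n) R hm hkr hμq
    (fun i hi => by
      obtain ⟨k, hk, hVk⟩ := hV i hi
      exact ⟨k, hk, by rw [hVk]; ring⟩)
  have ex : ∀ i : ℕ, t + (-kr + ρ) * q + ((i : ℝ) + 1) * kr * q =
    t + ((i : ℝ) * kr + ρ) * q := fun i => by ring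
  have ht0 := R.t0
  have ht1 := R.t1
  have hi0 : ∀ i ≤ n, 0 ≤ (i : ℝ) * kr * q ∧ (i : ℝ) * kr * q ≤ n * kr * q := fun i hi => by
    refine ⟨by positivity, ?_⟩
    have h1 : (i : ℝ) * (kr * q) ≤ n * (kr * q) :=
      mul_le_mul_of_nonneg_right (by exact_mod_cast hi) hkq.le
    linarith
  have hnq := mul_le_mul_of_nonneg_right hnK hq.le
  have hμKq := mul_le_mul_of_nonneg_right hμK hq.le
  refine ⟨rr, fun i hi => ?_, fun i hi => ?_⟩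
  · obtain ⟨h1, -, h3⟩ := hrr i hi
    rw [ex i] at h1 h3
    exact ⟨h1, h3⟩
  · obtain ⟨h1, h2, h3⟩ := hrr i hi
    rw [ex i] at h1 h2 h3
    obtain ⟨h4, h5⟩ := hi0 i hi
    have hb1 : |(rr i : ℝ) - t| ≤ K * q := abs_le.2 ⟨by linarith, by linarith⟩
    have hb2 : |t + ((i : ℝ) * kr + ρ) * q - t| ≤ K * q := abs_le.2 ⟨by linarith, by linarith⟩
    refine ⟨?_, ?_, W.eθ _ hb1, fun j hj => ?_⟩
    · have h6 : (0 : ℝ) < rr i := by linarith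
      exact_mod_cast h6
    · have h6 : (rr i : ℝ) ≤ 1 := by linarith
      exact_mod_cast h6
    · have h6 := W.room j hj _ hb2
      have h7 := h3 j hj
      have h8 := W.Eb0
      linarith

end

end Pool.VJ77
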