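import Pool.Agent.H37.STA.Suf
import Pool.Agent.H77.VJ.Nfs

/-!
# The end in a window of the chain, for the place `c rr`

`Pool.STA37`'s theorem for the place `rr` of the target, 2 or 3: `su_fin`.
-/

set_option autoImplicit false

namespace Pool.VJ77

open Finset Real MvPolynomial
open Pool.Agent.H49.Ent Pool.Agent.H32.Dense Pool.STK Pool.KA Pool.KSAT Pool.K2S Pool.PB Pool.S6C
open Pool.GEN Pool.CHT Pool.RCD Pool.D2F Pool.CHX Pool.D2Con Pool.D2A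
open Pool.STA37
open Pool.STB (V3 Po Bx Hb cv cl_earlier PosR cnt_int cg VbT p2 lg_le ChH Re ev_num pos_num g_num
  l_num mu_num z_num lm lm_nonneg cond_dens re_of)
open Pool.STB65 (InpP InpF PosO JetO nu nu_pos Rs Rs_pos grd_bx xD pD)
open Pool.STB82 (yv hgP Fst exists_fst dg)
open Pool.LA91 (jet ojet FulC)
open Pool.LBT (ThrOf)

variable {m : ℕ}

/-- **The end in the window `i`.** -/
theorem su_fin {J : ℕ} {F : Fam m J} {c : ℕ → Fin m} (hc : Set.InjOn c (Set.Iio 3))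
    {A' B' : F.Ω → Prop} {rr : ℕ} (hr2 : 2 ≤ rr) (hr3 : rr ≤ 3)
    {K n N b E E' q ne M₀ : ℕ} {t : VbT F}
    (hE : SuE F c rr B' K n N b t) (hb : 1 ≤ b) (hBA : Sub B' A')
    (hq : q = E + E' + 4 * b + 30) {Kc Kp : ℝ} (hKc0 : 0 ≤ Kc) (hKc : Kc ≤ 2 ^ t.y)
    {ctr xo : ℕ → F.Ω → V3} {D₁ : LnT F → V3} {Jo Ci : ℕ → F.Ω → Po} {Φ₁ : LnT F → Po}
    (O : PosO F B' t.W₀ t.k t.k n ((2 ^ t.y) ^ 2) Kp (yv F c t.W₀ t.g1 t.Pl)
      (hgP c t.W₀ t.g1 t.Pl) ctr xo D₁)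
    (Jt : JetO F B' t.W₀ t.k t.k n b ((2 ^ t.y) ^ 2) ((2 ^ t.y) ^ E') Kc ((2 ^ t.y) ^ E)
      (yv F c t.W₀ t.g1 t.Pl) t.f t.ji ctr xo Jo Ci Φ₁)
    {i : ℕ} (hi : i < n) (hi1 : t.W₀ + t.k + i * t.k + t.k ≤ J) (hWg : t.W₀ ≤ t.g1 + t.e₁')
    {A τ γ γ₀ e₀ h c' C₀ c₀ β η e w R : ℝ}
    (H : A * ((t.y : ℝ) + t.x + 1) ≤ τ * t.k) (hqA : (q : ℝ) ≤ A) (hτ2 : τ ≤ 1 / 2) (hτγ : τ ≤ γ)
    (hC₀ : C₀ ≤ 2 ^ t.y) (he₀ : e₀ ≤ ne) (hM₀ : M₀ ≤ t.k) (hk2 : 2 ≤ t.k)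
    (gr : ∀ l < 2, t.g1 + (if l = 0 then t.e₁' else 0) + (ne + 1) * t.k + q * (t.y + 1) ≤
      t.g₃ + (t.e₁ + nlp (fun j => if j < rr then t.gc i j else t.p b i) l rr))
    (sy : t.s + 1 ≤ 2 * t.y) (hWi : t.W₀ + t.k + i * t.k ≤ ⌊w * J⌋₊) (he1 : t.e₁ + 1 ≤ ⌊e * J⌋₊)
    (gcJ : ∀ l < rr, t.gc i l ≤ J) (pJ : t.p b i ≤ J)
    (l3 : ⌊(β + η) * J⌋₊ + (t.W₀ + t.k + i * t.k) ≤ t.p b i + ⌊w * J⌋₊)
    (hPB : 0 < Pe F.p B') (hc₀ : 0 < c₀) (hPA : c₀ * Pe F.p A' ≤ Pe F.p B')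
    {Zt Yt : Type} {zp : PtT F → Zt} {y : F.Ω → Yt} {D' : LnT F → V3 × Po} {x : Zt → V3}
    {Jz : Zt → Po} (hx : ∀ ω, B' ω → x (zp (ptr F J ω)) = xo i ω)
    (hJz : ∀ ω, B' ω → Jz (zp (ptr F J ω)) = Jo i ω) {h' R' : ℝ}
    (hCh : ChH (Pool.Agent.H49.Ent.cond F.p B' True) (slam F (t.W₀ + t.k + i * t.k))
      (fun ω => zp (ptr F J ω)) y (dg F (t.W₀ + t.k + i * t.k) t.k) D' xD (pD b) x Jz b (2 ^ t.k)
      (((2 ^ t.k : ℕ) : ℝ) ^ e₀) (e₀ * Real.log ((2 ^ t.k : ℕ) : ℝ)) h' R'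
      (((2 ^ t.k : ℕ) : ℝ) ^ (-γ₀)) c')
    (hnf : ∀ (j : Fin 3) (q' : F.Ω → ℝ), IsLaw q' →
      (∀ ω, q' ω ≤ R * Pool.Agent.H49.Ent.cond F.p B' True ω) →
      CH q' (fun ω => ⌊((2 ^ t.k : ℕ) : ℝ) * eval (x (zp (ptr F J ω)))
        (pderiv j (Jz (zp (ptr F J ω))))⌋)
        (fun ω => (cv (2 ^ t.k) (x (zp (ptr F J ω))), y ω)) ≤
          (1 - h) * Real.log ((2 ^ t.k : ℕ) : ℝ) + e₀ * Real.log ((2 ^ t.k : ℕ) : ℝ))
    (hend : ∀ (KQ w₀ e₁ p M : ℕ) (Kv g : ℕ → ℕ)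
      (G : PtT F → ℕ → MvPolynomial (Option (Fin m)) ℝ)
      (H : LnT F → ℕ → MvPolynomial (Option (Fin m)) ℝ) (V : Type) (zc : PtT F → V)
      (zc' : LnT F → V) (CG : V → MvPolynomial (Option (Fin m)) ℝ)
      (Q : V → Fin 3 → MvPolynomial (Option (Fin m)) ℝ) (Λ : ℕ → ℝ)
      (Z Y 𝒟 : Type) (zp : PtT F → Z) (y : F.Ω → Y) (t : F.Ω → ℤ) (D : LnT F → 𝒟) (X : 𝒟 → V3)
      (Φ : 𝒟 → Po) (x : Z → V3) (Jz : Z → Po) (mu ε h' R' : ℝ) (B : F.Ω → Prop) (q : F.Ω → ℝ),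
      M₀ ≤ M → w₀ ≤ ⌊w * J⌋₊ → e₁ + 1 ≤ ⌊e * J⌋₊ → (∀ l, Kv l ≤ b * (K + 1) + K) →
      (∀ l < rr, g l ≤ J) → p ≤ J → ⌊(β + η) * J⌋₊ + w₀ ≤ p + ⌊w * J⌋₊ →
      Sub B A' → ChOK F c rr Kv w₀ w₀ (e₁ + 1) g B G H →
      Re F c rr (b * (K + 1) + K) KQ w₀ e₁ p b g B G zc zc' CG Q Λ zp x Jz mu ((M : ℝ) ^ e₀) ε →
      0 < ε → ε ≤ 1 → mu * ((M : ℝ) ^ (1 / 2 : ℝ) * ε) ≤ 1 / 2 ^ (p + 1) →
      (∀ l < rr, (0 ≤ Λ l) ∧ C₀ * (mu * ((M : ℝ) ^ e₀ + (M : ℝ) ^ (1 / 2 : ℝ)) * Λ l) ≤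
        2 ^ (e₁ + nlp (fun j => if j < rr then g j else p) l rr)) →
      mu * (M : ℝ) ^ (-γ) ≤ 1 / 2 ^ p →
      (∀ ω, 0 < q ω → B ω) → (∀ ω, q ω * Pe F.p A' ≤ 1 / c₀ * F.p ω) →
      ChH q (slam F w₀) (fun ω => zp (ptr F J ω)) y t D X Φ x Jz b M ((M : ℝ) ^ e₀)
        (e₀ * Real.log M) h' R' ((M : ℝ) ^ (-γ₀)) c' →
      (∀ (j : Fin 3) (q' : F.Ω → ℝ), IsLaw q' → (∀ ω, q' ω ≤ R * q ω) →
        CH q' (fun ω => ⌊(M : ℝ) * eval (x (zp (ptr F J ω))) (pderiv j (Jz (zp (ptr F J ω))))⌋)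
          (fun ω => (cv M (x (zp (ptr F J ω))), y ω)) ≤
            (1 - h) * Real.log M + e₀ * Real.log M) → False) : False := by
  have natA : ∀ a : ℕ, a ≤ q → (a : ℝ) ≤ A := fun a ha => le_trans (by exact_mod_cast ha) hqA
  have hA30 : (30 : ℝ) ≤ A := natA 30 (by omega)
  have hτ1 : τ ≤ 1 := by linarith
  have hEv := ev_num (b := b) (hE.hji i hi).2.2
  have hWi' : t.W₀ + t.k + i * t.k ≤ J := by omega
  have hT : ∀ ω, B' ω → |eval (yv F c t.W₀ t.g1 t.Pl ω) (t.f (t.ji i) (ptr F J ω)) -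
      2 ^ t.g₃ * (F.x ω (c rr) - eval (bt F ω) (t.zP (ptr F J ω)))| ≤
      2 ^ t.y * (1 / 2 ^ t.e (t.ji i)) ^ b := fun ω hω => hE.val i hi ω hω
  have cT : Cl2 (slam F (t.W₀ + t.k + i * t.k)) (fun ω => ptr F J ω) B'
      (fun ω => t.zP (ptr F J ω)) :=
    cl_earlier (show t.W₀ ≤ t.W₀ + t.k + i * t.k by omega) hWi' fun ω hω => hE.zcl ω hω
  have hsk : t.s ≤ t.k + i * t.k := by
    have h1 : 2 * t.y ≤ t.k := Pool.STB6.lin_nat H hτ1 (a := 2) (b := 0) (c := 0) (by omega)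
      (natA 2 (by omega)) (natA 0 (by omega)) (natA 0 (by omega))
    omega
  have h2s : 2 * (2 : ℝ) ^ t.s ≤ (2 ^ t.y) ^ 2 := by
    rw [← pow_mul, ← pow_succ']
    exact p2 (by omega)
  have hposk : t.y * E' + 2 * t.y * b + t.y + t.x + 2 ≤ t.k :=
    Pool.STB6.lin_nat H hτ1 (a := E' + 2 * b + 1) (b := 1) (c := 2) (by
      have : t.y * E' + 2 * t.y * b + t.y = (E' + 2 * b + 1) * t.y := by ring
      omega) (natA _ (by omega)) (natA 1 (by omega)) (natA 2 (by omega))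
  have grl : ∀ l < 2, ∀ a : ℕ, a ≤ q → t.g1 + (if l = 0 then t.e₁' else 0) + t.y * a + 3 ≤
      t.g₃ + (t.e₁ + nlp (fun j => if j < rr then t.gc i j else t.p b i) l rr) := by
    intro l hl a ha
    have h1 := gr l hl
    have h2 : t.y * a + 30 ≤ q * (t.y + 1) := by
      have h3 : t.y * a ≤ q * t.y := by
        rw [mul_comm]
        exact Nat.mul_le_mul_right _ ha
      have h4 : q * (t.y + 1) = q * t.y + q := by ring
      omega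
    omega
  obtain ⟨V', zc, zc', CG, Q, hRe⟩ := re_of (r := rr) hr2 hr3 (F := F) (B := B') hc
    (g1 := t.g1) (g₃ := t.g₃)
    (e₁' := t.e₁') (s := t.s) (K := b * (K + 1) + K) (KQ := K + 1) (p := t.p b i) (e₁ := t.e₁)
    (Ev := 2 ^ t.y * (1 / 2 ^ t.e (t.ji i)) ^ b) (KJ := ((2 ^ t.k : ℕ) : ℝ) ^ e₀)
    (Gc := t.Gc i) (gc := t.gc i)
    (LT := fun l => 2 ^ (t.e₁ + nlp (fun j => if j < rr then t.gc i j else t.p b i) l rr) / 2)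
    (Λ := fun l => Rs t.k t.k ((2 ^ t.y) ^ 2) i * lm t.g1 t.e₁' l) O Jt hi hWi' (by positivity)
    (by positivity) (by positivity) (fun y => (hE.Pd y).trans (by omega)) hE.Pp (by omega)
    (Nat.le_add_right _ _) hWg hE.Pc hE.Pg cT
    (fun ω hω => (hE.zd ω hω).trans (Nat.le_add_left _ _)) (fun ω hω => hE.zp ω hω) hT
    (fun ω hω => hE.hx0 i hi ω hω) (fun ω hω => hE.hx1 i hi ω hω)
    (fun ω hω => hE.hlT i hi ω hω) h2s hsk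
    (pos_num (x := t.x) hb hKc hEv hposk)
    (fun l hl => g_num (E := E) le_rfl le_rfl (fun h0 => by
      subst h0
      have := grl 0 (by norm_num) E (by omega)
      rw [if_pos rfl] at this
      omega) (fun h1 => by
      subst h1
      have := grl 1 (by norm_num) E (by omega)
      rw [if_neg (by norm_num)] at this
      omega)) (fun l _ => le_rfl) hx hJz hCh.x1 hCh.J1
  have hM0 : (0 : ℝ) < 2 ^ t.k := by positivity
  have hk1 : (2 : ℝ) ≤ 2 ^ t.k := by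
    calc (2 : ℝ) = 2 ^ 1 := (pow_one 2).symm
      _ ≤ 2 ^ t.k := p2 (by omega)
  refine hend (K + 1) (t.W₀ + t.k + i * t.k) t.e₁ (t.p b i) (2 ^ t.k) (fun _ => K) (t.gc i) (t.Gc i)
    (t.Hc i) V' zc zc' CG Q (fun l => Rs t.k t.k ((2 ^ t.y) ^ 2) i * lm t.g1 t.e₁' l) Zt Yt (V3 × Po)
    zp y (dg F (t.W₀ + t.k + i * t.k) t.k) D' xD (pD b) x Jz _ (2 / 2 ^ t.k) h' R' B'
    (Pool.Agent.H49.Ent.cond F.p B' True)
    (hM₀.trans Nat.lt_two_pow_self.le) hWi he1 (fun _ => Nat.le_add_left _ _) gcJ pJ l3 hBA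
    (hE.ch i hi) hRe
    (by positivity) (by rw [div_le_one hM0]; exact hk1) ?_ ?_ ?_ ?_ ?_ hCh hnf
  · refine Pool.STB6.vn_mu1 H (z := t.y * E' + 2 * t.y * b + t.x) (a := E' + 2 * b + 1) ?_
      (le_of_eq (mu_num (x := t.x))) (z_num E E' b t.x t.y) ?_ hτ2 ?_
    · have := nu_pos (κ := (2 ^ t.y) ^ E') (R := Rs t.k t.k ((2 ^ t.y) ^ 2) i) (by positivity)
        (Rs_pos (by positivity) i) b
      positivity
    · have := natA (E' + 2 * b + 4) (by omega)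
      push_cast at this ⊢
      linarith
    · exact div_le_div_of_nonneg_right (by norm_num) hM0.le
  · intro l hl
    refine ⟨mul_nonneg (Rs_pos (by positivity) i).le (lm_nonneg _ _ _), ?_⟩
    refine l_num (ne := ne + 1) hb hC₀ (by push_cast; linarith) (by omega) ?_ ?_
    · intro h0
      subst h0
      have h1 := gr 0 (by norm_num)
      rw [if_pos rfl] at h1
      have h2 : t.y * (E' + 2 * b + 1) + 1 ≤ q * (t.y + 1) := by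
        have h3 : t.y * (E' + 2 * b + 1) ≤ q * t.y := by
          rw [mul_comm]
          exact Nat.mul_le_mul_right _ (by omega)
        have h4 : q * (t.y + 1) = q * t.y + q := by ring
        omega
      omega
    · intro h0
      subst h0
      have h1 := gr 1 (by norm_num)
      rw [if_neg (by norm_num)] at h1
      have h2 : t.y * (E' + 2 * b + 1) + 1 ≤ q * (t.y + 1) := by
        have h3 : t.y * (E' + 2 * b + 1) ≤ q * t.y := by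
          rw [mul_comm]
          exact Nat.mul_le_mul_right _ (by omega)
        have h4 : q * (t.y + 1) = q * t.y + q := by ring
        omega
      omega
  · exact Pool.STB6.vn_mu2 H (z := t.y * E' + 2 * t.y * b + t.x) (a := E' + 2 * b + 1)
      (le_of_eq (mu_num (x := t.x))) (z_num E E' b t.x t.y) (natA _ (by omega)) hτγ
  · exact fun ω hω => Pool.STB82.cond_pos_B hω
  · exact fun ω => cond_dens F hPB hc₀ hPA ω

end Pool.VJ77
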