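import Pool.Agent.H37.STA.Sud
import Pool.Agent.H98.STB.VbD
import Pool.Agent.H77.VJ.Sul

/-!
# The numbers of the event, for the place `c rr`

`SuV`: the numbers of the target `c rr` and of the first windows; `sun_of`. `suv_of`: from `VbN`.
-/

set_option autoImplicit false

namespace Pool.VJ77

open Finset Real MvPolynomial
open Pool.Agent.H49.Ent Pool.Agent.H32.Dense Pool.STK Pool.KA Pool.KSAT Pool.K2S Pool.PB Pool.S6C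
open Pool.GEN Pool.CHT Pool.RCD Pool.D2F Pool.CHX Pool.D2Con Pool.D2A
open Pool.STA37
open Pool.STB (V3 Po Bx Hb cv cl_earlier PosR cnt_int cg VbT p2 lg_le ChH mu_num two_le_rpow)
open Pool.STB65 (InpP InpF PosO JetO nu nu_pos Rs Rs_pos grd_bx)
open Pool.STB82 (yv hgP Fst WinN cond_pos_B)
open Pool.LA91 (jet ojet qJet qJets qG Mx)
open Pool.RCD (vg)
open Pool.PB.Trl (rt rt_mem)

variable {m : ℕ}

/-- **The numbers of the target and of the windows.** -/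
structure SuV {J : ℕ} {F : Fam m J} (P : List (Fin m) × Fin m → ℝ → ℝ → ℝ) (c : ℕ → Fin m)
    (rr n b Cg ne : ℕ) (A τ kr ur η e0 eg : ℝ) (wi ai : ℕ → ℚ) (fi : ℕ → ℝ)
    (sf : ℕ → ℕ → ℝ) (t : VbT F) : Prop where
  kJ : kr * J ≤ t.k + 1
  yJ : t.y = ⌊ur * J⌋₊
  H : A * ((t.y : ℝ) + t.x + 1) ≤ τ * t.k
  Wi : ∀ i < n, t.W₀ + t.k + i * t.k ≤ ⌊(wi i : ℝ) * J⌋₊
  Wa : ∀ i < n, t.W₀ + t.k + i * t.k + t.k ≤ ⌊(ai i : ℝ) * J⌋₊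
  Wf : ∀ i < n, t.W₀ + t.k + i * t.k + t.k ≤ ⌊fi i * J⌋₊
  l2 : ∀ i < n, ⌊(bet P c rr (wi i) (wi i) + η) * J⌋₊ + (t.W₀ + t.k + i * t.k) ≤
    t.p b i + ⌊(wi i : ℝ) * J⌋₊
  l0 : ∀ i < n, ⌊(bet P c 0 (ai i) (ai i) + η) * J⌋₊ ≤ ⌊(ai i : ℝ) * J⌋₊ + t.x
  l1 : ∀ i < n, ⌊(bet P c 1 (ai i) (ai i) + η) * J⌋₊ + t.W₀ ≤ t.g1 + ⌊(ai i : ℝ) * J⌋₊ + t.x
  Wg : t.W₀ ≤ t.g1 + t.x
  We : t.W₀ ≤ t.g1 + t.e₁'
  e12 : t.e₁' + 1 ≤ t.e₂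
  e2y : t.y + 2 * t.x + 6 ≤ t.e₂
  e2J : t.e₂ ≤ ⌊e0 * J⌋₊
  e1J : t.e₁ + 1 ≤ ⌊eg * J⌋₊
  J1 : ∀ i < n, t.e₂ + t.g1 + (t.k + i * t.k + t.k) + t.x + 4 ≤ J
  sy : t.s + 1 ≤ 2 * t.y
  gcJ : ∀ i < n, ∀ l < rr, t.gc i l ≤ J
  pJ : ∀ i < n, t.p b i ≤ J
  gr : ∀ i < n, ∀ l < 2, t.g1 + (if l = 0 then t.e₁' else 0) + ne * t.k + Cg * (t.y + 1) ≤
    t.g₃ + (t.e₁ + nlp (fun j => if j < rr then t.gc i j else t.p b i) l rr)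
  f0 : ∀ i < n, sf i 0 * J ≤ t.W₀ + t.k + i * t.k + t.k + t.x
  f1 : ∀ i < n, sf i 1 * J ≤ t.g1 + (t.k + i * t.k + t.k) + t.x

theorem sun_of {J : ℕ} {F : Fam m J} {P : List (Fin m) × Fin m → ℝ → ℝ → ℝ} {c : ℕ → Fin m}
    {rr n b Cg ne E E' : ℕ} {A τ kr ur η e0 eg : ℝ} {wi ai : ℕ → ℚ} {fi : ℕ → ℝ}
    {sf : ℕ → ℕ → ℝ} {t : VbT F} {tt aw bb e1 eF : ℝ} {pf : ℕ → ℝ} {pr : ℝ} {Nf : ℕ → ℕ → ℝ}
    {N₂ : ℝ} {Pq : Fin 2 → ℝ} {sn : ℕ → ℝ → ℝ} {sw : ℕ → ℝ} {f : FaT F} {ρ : ℝ}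
    (V : SuV P c rr n b Cg ne A τ kr ur η e0 eg wi ai fi sf t)
    (G : SuG n b Cg tt aw bb e1 eF pf pr Nf N₂ Pq sn sw t f ρ) (hWJ : t.W₀ + t.k + n * t.k ≤ J)
    (haw : aw ≤ 1) (hyk : 2 * t.y + 2 ≤ t.k) (hq : E + 8 ≤ Cg) :
    SuN n b E E' t f ρ N₂ Nf Pq sf sw ⌊aw * J⌋₊ where
  WJ := hWJ
  ht := G.ht
  fJ := G.fJ
  wJ := by
    refine Nat.floor_le_of_le ?_
    calc aw * J ≤ 1 * J := mul_le_mul_of_nonneg_right haw (Nat.cast_nonneg J)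
      _ = J := one_mul _
  f1 := G.f1
  g1 := G.g1
  kd := G.kd
  kk := G.kk
  nk := fun i hi => by
    have h1 := G.nk i hi
    have h2 : (E + 8) * (t.y + 1) ≤ Cg * (t.y + 1) := Nat.mul_le_mul_right _ hq
    have h3 : (E + 8) * (t.y + 1) = t.y * (E + 6) + 2 * t.y + (E + 8) := by ring
    omega
  iw := G.iw
  yk := hyk
  ρ0 := G.ρ0
  ρ1 := G.ρ1
  ρe := G.ρe
  s := fun i hi => s_num (G.s i hi)
  N00 := by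
    have h1 := rp_le G.N00
    rw [two_mul, pow_add] at h1
    rw [sq]
    exact h1
  N10 := by
    have h1 := rp_le G.N10
    rw [two_mul, pow_add] at h1
    rw [sq]
    exact h1
  N01 := by
    have h1 := rp_le G.N01
    rw [two_mul, pow_add] at h1
    rw [sq]
    exact h1
  N11 := by
    have h1 := rp_le G.N11
    rw [mul_div_assoc', div_le_iff₀ (by positivity), mul_assoc, ← pow_add, ← pow_add]
    exact h1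
  P0 := G.P0
  P1 := G.P1
  s0 := V.f0
  s1 := V.f1
  w0 := G.w0
  w1 := G.w1

/-- **The numbers of `VbN`.** -/
theorem suv_of {J : ℕ} {F : Fam m J} {P : List (Fin m) × Fin m → ℝ → ℝ → ℝ} {c : ℕ → Fin m}
    {n b Cg ne : ℕ} {A τ kr ur η e0 eg wn : ℝ} {wi ai : ℕ → ℚ} {fi : ℕ → ℝ}
    {sf : ℕ → ℕ → ℝ} {s₁ s₂ : ℕ → ℝ} {t : VbT F}
    (h : Pool.STB.VbN P c n b Cg ne A τ kr ur η e0 eg wn wi ai fi sf s₁ s₂ t) :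
    SuV P c 3 n b Cg ne A τ kr ur η e0 eg wi ai fi sf t where
  kJ := by
    rw [h.kJ]
    exact (Nat.lt_floor_add_one _).le
  yJ := h.yJ
  H := h.H
  Wi := h.Wi
  Wa := h.Wa
  Wf := h.Wf
  l2 := h.l3
  l0 := h.l0
  l1 := h.l1
  Wg := h.Wg
  We := h.We
  e12 := h.e12
  e2y := h.e2y
  e2J := h.e2J
  e1J := h.e1J
  J1 := h.J1
  sy := h.sy
  gcJ := h.gcJ
  pJ := h.pJ
  gr := h.gr
  f0 := h.f0
  f1 := h.f1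

end Pool.VJ77
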