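import Pool.Agent.H77.VJ.Vjc

/-!
# The first label of the target is closed, near and natural

`qli`: the closed polynomial over the two first places which is added to the closed label of the
target; `UpO`: what is asked of it; `up_ok`: it holds.
-/

set_option autoImplicit false

namespace Pool.VJ77

open Finset Real MvPolynomial
open Pool.Agent.H49.Ent Pool.Agent.H32.Dense Pool.STK Pool.KA Pool.KSAT Pool.K2S Pool.PB Pool.S6C
open Pool.GEN Pool.CHT Pool.RCD Pool.D2F Pool.CHX Pool.D2Con Pool.D2A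
open Pool.STA37
open Pool.STB (V3 Po Bx Hb cv cl_earlier PosR cnt_int cg qn VbT p2 lg_le ChH mu_num)
open Pool.STB65 (InpP InpF PosO JetO nu nu_pos Rs Rs_pos grd_bx)
open Pool.STB82 (yv hgP Fst WinN cond_pos_B)
open Pool.LA91 (jet ojet qJet qJets qG)

/-- **The labels of the target**: `g₀` the closed label, `q` a closed polynomial over the two first
places; `w` the window, `pr` the precision. -/
structure UpO {m J : ℕ} (F : Fam m J) (c : ℕ → Fin m) (rr : ℕ) (A : F.Ω → Prop)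
    (g₀ : F.Ω → MvPolynomial (Option (Fin m)) ℝ) (Kf w pr : ℕ)
    (q : F.Ω → MvPolynomial (Option (Fin m)) ℝ) : Prop where
  cl : Cl2 (slam F w) (fun ω => ptr F J ω) A q
  deg : ∀ ω, A ω → (q ω).totalDegree ≤ Kf
  dep : ∀ ω, A ω → DepC c 2 (q ω)
  near : ∀ ω, A ω → |F.x ω (c rr) - eval (bt F ω) (g₀ ω + q ω)| * 2 ^ pr ≤ 1
  vel : ∀ ω, A ω → |ojet F (c rr) 1 (g₀ ω + q ω) ω| * 2 ^ pr ≤ 2 ^ w

variable {m J : ℕ} {F : Fam m J} {c : ℕ → Fin m} {B : F.Ω → Prop} {rr K n N b E E' : ℕ}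
  {t : VbT F} {Kp Kc : ℝ} {ctr xo : ℕ → F.Ω → V3} {D₁ : LnT F → V3} {Jo Ci : ℕ → F.Ω → Po}
  {Φ₁ : LnT F → Po}

/-- The closed polynomial over the two first places of the first window. -/
noncomputable def qli (c : ℕ → Fin m) (t : VbT F) (E' b : ℕ) (ctr : ℕ → F.Ω → V3)
    (Ci : ℕ → F.Ω → Po) (ω : F.Ω) : MvPolynomial (Option (Fin m)) ℝ :=
  cg c t.W₀ t.g1 (slam F t.W₀ ω).2.2 (t.Pl (slam F t.W₀ ω)) (Rs t.k t.k ((2 ^ t.y) ^ 2) 0)
    (ctr 0 ω) (mui t E' b 0) 0 (Ci 0 ω)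

theorem cgi_qli (c : ℕ → Fin m) (t : VbT F) (E' b : ℕ) (ctr : ℕ → F.Ω → V3)
    (Ci : ℕ → F.Ω → Po) (ω : F.Ω) :
    cgi c t E' b ctr Ci 0 ω = t.zH (slam F t.W₀ ω) + qli c t E' b ctr Ci ω := by
  unfold qli cgi cg
  rw [zero_add]

/-- **The label of the target.** -/
theorem up_ok {Ve C : ℝ} {w pr : ℕ} (hE : SuE F c rr B K n N b t)
    (O : PosO F B t.W₀ t.k t.k n ((2 ^ t.y) ^ 2) Kp (yv F c t.W₀ t.g1 t.Pl)
      (hgP c t.W₀ t.g1 t.Pl) ctr xo D₁)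
    (Jt : JetO F B t.W₀ t.k t.k n b ((2 ^ t.y) ^ 2) ((2 ^ t.y) ^ E') Kc ((2 ^ t.y) ^ E)
      (yv F c t.W₀ t.g1 t.Pl) t.f t.ji ctr xo Jo Ci Φ₁) (hb : 1 ≤ b) (hK : 1 ≤ K) (hn : 0 < n)
    (hC : ∀ (Q : Po) (M : ℝ), Q.totalDegree ≤ b → (∀ q, Bx 1 q → |eval q Q| ≤ M) →
      ∀ (j : Fin 3) (r : V3), Bx 1 r → |eval r (pderiv j Q)| ≤ C * M) (hC0 : 0 ≤ C)
    (hCy : C ≤ 2 ^ t.y) (hKc0 : 0 ≤ Kc) (hKc : Kc ≤ 2 ^ t.y)
    (hvel : ∀ ω, B ω →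
      |1 / 2 ^ (t.W₀ + t.k + 0 * t.k) * ojet F (c rr) 1 (cgi c t E' b ctr Ci 0 ω) ω -
        mui t E' b 0 * ∑ j, eval (xo 0 ω) (pderiv j (Jo 0 ω)) *
          D₁ (slam F (t.W₀ + t.k) ω) j| ≤ mui t E' b 0 * (Ve / 2 ^ t.k))
    (hVe : Ve ≤ 2 ^ t.k) (hWJ : t.W₀ + t.k ≤ J) (ht : w = t.W₀ + t.k)
    (hk : t.y * (b + 1) + 1 ≤ t.k)
    (hp : pr + (t.y * E' + 2 * t.y * b + 2 * t.y + 2) ≤ t.g₃ + b * t.k) :
    UpO F c rr B (fun ω => t.zP (ptr F J ω)) (b * K + K + b) w pr (qli c t E' b ctr Ci) := by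
  have hk0 : (0 : ℝ) < 2 ^ t.k := by positivity
  have hmu := mui_pos t E' b 0
  have h0k : t.W₀ + t.k + 0 * t.k = t.W₀ + t.k := by ring
  have hz : ∀ ω, B ω → t.zP (ptr F J ω) + qli c t E' b ctr Ci ω = cgi c t E' b ctr Ci 0 ω :=
    fun ω hω => by rw [cgi_qli, hE.zcl ω hω]
  have hmui : mui t E' b 0 = 2 ^ (t.y * E' + 2 * t.y * b) / 2 ^ (t.g₃ + b * t.k) := by
    rw [mui_eq]
    congr 2
    ring
  refine ⟨?_, ?_, ?_, ?_, ?_⟩
  · have c1 : Cl2 (slam F (t.W₀ + t.k)) (fun ω => ptr F J ω) B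
        (fun ω => t.Pv (ptr F J ω)) := cl_earlier (by omega) hWJ hE.Pc
    have c3 : Cl2 (slam F (t.W₀ + t.k)) (fun ω => ptr F J ω) B
        (fun ω => (slam F t.W₀ ω).2.2) := cl_t1 (by omega) hWJ
    have c4 := O.cc 0 hn
    have c5 := Jt.cC 0 hn
    rw [h0k] at c4 c5
    rw [ht]
    refine (((c3.join c1).join c4).join c5).comp
      (fun a => cg c t.W₀ t.g1 a.1.1.1 a.1.1.2 (Rs t.k t.k ((2 ^ t.y) ^ 2) 0) a.1.2
        (mui t E' b 0) 0 a.2) |>.congr fun ω hω => ?_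
    show qli c t E' b ctr Ci ω = cg c t.W₀ t.g1 (slam F t.W₀ ω).2.2 (t.Pv (ptr F J ω))
      (Rs t.k t.k ((2 ^ t.y) ^ 2) 0) (ctr 0 ω) (mui t E' b 0) 0 (Ci 0 ω)
    rw [hE.Pc ω hω]
    rfl
  · intro ω hω
    unfold qli
    refine Pool.STB.cg_deg (b' := b) c t.W₀ t.g1 _ hK ?_ _ _ _ ?_
      ((Jt.dC 0 ω).trans (Nat.sub_le _ _)) (by omega)
    · rw [← hE.Pc ω hω]
      exact hE.Pd _
    · rw [totalDegree_zero]
      exact Nat.zero_le _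
  · intro ω hω
    unfold qli
    refine Pool.STB.cg_dep le_rfl c _ _ _ ?_ _ _ _ (fun b₁ b₂ _ _ => by rw [map_zero, map_zero]) _
    rw [← hE.Pc ω hω]
    exact hE.Pp _
  · intro ω hω
    show |F.x ω (c rr) - eval (bt F ω) (t.zP (ptr F J ω) + qli c t E' b ctr Ci ω)| * 2 ^ pr ≤ 1
    rw [hz ω hω]
    have h1 := cgi_near hE hb hKc0 Jt hn (by omega) hω
    have h2 := Jt.J1 0 hn ω hω _ (O.x1 0 hn ω hω)
    have h3 : (Kc + 2 ^ (t.y * (b + 1))) / 2 ^ t.k ≤ 2 ^ t.y := by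
      rw [div_le_iff₀ hk0]
      have h4 : (2 : ℝ) ^ (t.y * (b + 1) + 1) ≤ 2 ^ t.k := p2 hk
      have h5 : (1 : ℝ) ≤ 2 ^ t.y := one_le_pow₀ one_le_two
      have h6 : (2 : ℝ) ^ t.y ≤ 2 ^ (t.y * (b + 1)) := p2 (by nlinarith)
      rw [pow_succ] at h4
      nlinarith
    have h4 : |mui t E' b 0 * eval (xo 0 ω) (Jo 0 ω)| ≤ mui t E' b 0 * 2 ^ t.y := by
      rw [abs_mul, abs_of_pos hmu]
      exact mul_le_mul_of_nonneg_left (h2.trans hKc) hmu.le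
    have h5 := mul_le_mul_of_nonneg_left h3 hmu.le
    have h6 : |F.x ω (c rr) - eval (bt F ω) (cgi c t E' b ctr Ci 0 ω)| ≤
        mui t E' b 0 * 2 ^ t.y + mui t E' b 0 * 2 ^ t.y := by
      have h7 := abs_le.1 (h1.trans h5)
      have h8 := abs_le.1 h4
      rw [abs_le]
      constructor <;> linarith
    refine (mul_le_mul_of_nonneg_right h6 (by positivity)).trans ?_
    rw [hmui, div_mul_eq_mul_div, ← add_div, div_mul_eq_mul_div, div_le_one (by positivity)]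
    have e1 : ((2 : ℝ) ^ (t.y * E' + 2 * t.y * b) * 2 ^ t.y +
        2 ^ (t.y * E' + 2 * t.y * b) * 2 ^ t.y) * 2 ^ pr =
        2 ^ (t.y * E' + 2 * t.y * b + t.y + 1 + pr) := by
      rw [pow_add _ _ pr, pow_add _ _ 1, pow_add _ _ t.y]
      ring
    rw [e1]
    exact p2 (by omega)
  · intro ω hω
    show |ojet F (c rr) 1 (t.zP (ptr F J ω) + qli c t E' b ctr Ci ω) ω| * 2 ^ pr ≤ 2 ^ w
    rw [hz ω hω]
    have h1 := hvel ω hω
    rw [h0k] at h1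
    have h2 : |∑ j, eval (xo 0 ω) (pderiv j (Jo 0 ω)) * D₁ (slam F (t.W₀ + t.k) ω) j| ≤
        3 * (2 ^ t.y * 2 ^ t.y) := by
      refine (Finset.abs_sum_le_sum_abs _ _).trans ?_
      have h3 : ∀ j : Fin 3, |eval (xo 0 ω) (pderiv j (Jo 0 ω)) *
          D₁ (slam F (t.W₀ + t.k) ω) j| ≤ 2 ^ t.y * 2 ^ t.y := by
        intro j
        rw [abs_mul]
        have h4 := hC (Jo 0 ω) Kc ((Jt.dJ 0 ω).trans (Nat.sub_le _ _))
          (fun q hq => Jt.J1 0 hn ω hω q hq) j _ (O.x1 0 hn ω hω)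
        have h5 : |D₁ (slam F (t.W₀ + t.k) ω) j| ≤ 1 := grd_bx (O.dg _) j
        calc |eval (xo 0 ω) (pderiv j (Jo 0 ω))| * |D₁ (slam F (t.W₀ + t.k) ω) j| ≤
              (C * Kc) * 1 := mul_le_mul h4 h5 (abs_nonneg _) (by positivity)
          _ ≤ 2 ^ t.y * 2 ^ t.y := by
              rw [mul_one]
              exact mul_le_mul hCy hKc hKc0 (by positivity)
      calc ∑ j : Fin 3, |eval (xo 0 ω) (pderiv j (Jo 0 ω)) * D₁ (slam F (t.W₀ + t.k) ω) j| ≤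
            ∑ _j : Fin 3, (2 : ℝ) ^ t.y * 2 ^ t.y := Finset.sum_le_sum fun j _ => h3 j
        _ = 3 * (2 ^ t.y * 2 ^ t.y) := by
            simp
    have hW0 : (0 : ℝ) < 2 ^ (t.W₀ + t.k) := by positivity
    have h3 : Ve / 2 ^ t.k ≤ 1 := by rw [div_le_one hk0]; exact hVe
    have hyy : (1 : ℝ) ≤ 2 ^ t.y * 2 ^ t.y := by
      have := one_le_pow₀ (n := t.y) (one_le_two (α := ℝ))
      nlinarith
    have h4 : |1 / 2 ^ (t.W₀ + t.k) * ojet F (c rr) 1 (cgi c t E' b ctr Ci 0 ω) ω| ≤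
        mui t E' b 0 * (4 * (2 ^ t.y * 2 ^ t.y)) := by
      have h5 := mul_le_mul_of_nonneg_left h3 hmu.le
      have h6 : |mui t E' b 0 * ∑ j, eval (xo 0 ω) (pderiv j (Jo 0 ω)) *
          D₁ (slam F (t.W₀ + t.k) ω) j| ≤ mui t E' b 0 * (3 * (2 ^ t.y * 2 ^ t.y)) := by
        rw [abs_mul, abs_of_pos hmu]
        exact mul_le_mul_of_nonneg_left h2 hmu.le
      have h7 := abs_le.1 (h1.trans h5)
      have h8 := abs_le.1 h6
      have h9 : mui t E' b 0 * 1 ≤ mui t E' b 0 * (2 ^ t.y * 2 ^ t.y) :=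
        mul_le_mul_of_nonneg_left hyy hmu.le
      have h10 : mui t E' b 0 * (4 * (2 ^ t.y * 2 ^ t.y)) =
        mui t E' b 0 * (3 * (2 ^ t.y * 2 ^ t.y)) + mui t E' b 0 * (2 ^ t.y * 2 ^ t.y) := by ring
      rw [abs_le, h10]
      constructor <;> linarith [h7.1, h7.2, h8.1, h8.2]
    rw [abs_mul, abs_of_pos (by positivity : (0 : ℝ) < 1 / 2 ^ (t.W₀ + t.k)), one_div_mul_eq_div,
      div_le_iff₀ hW0] at h4
    refine (mul_le_mul_of_nonneg_right h4 (by positivity)).trans ?_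
    rw [hmui, ht]
    have h6 : (2 : ℝ) ^ (t.y * E' + 2 * t.y * b) / 2 ^ (t.g₃ + b * t.k) *
        (4 * (2 ^ t.y * 2 ^ t.y)) * 2 ^ (t.W₀ + t.k) * 2 ^ pr =
        2 ^ (t.y * E' + 2 * t.y * b + 2 + t.y + t.y + pr) / 2 ^ (t.g₃ + b * t.k) *
          2 ^ (t.W₀ + t.k) := by
      rw [pow_add _ _ pr, pow_add _ _ t.y, pow_add _ _ t.y, pow_add _ _ 2]
      ring
    rw [h6]
    refine mul_le_of_le_one_left hW0.le ?_
    rw [div_le_one (by positivity)]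
    exact p2 (by omega)

theorem UpO.sub {A A' : F.Ω → Prop} {g₀ : F.Ω → MvPolynomial (Option (Fin m)) ℝ} {Kf w pr : ℕ}
    {q : F.Ω → MvPolynomial (Option (Fin m)) ℝ} (h : UpO F c rr A g₀ Kf w pr q) (hA : Sub A' A) :
    UpO F c rr A' g₀ Kf w pr q :=
  ⟨h.cl.sub hA, fun ω hω => h.deg ω (hA ω hω), fun ω hω => h.dep ω (hA ω hω),
    fun ω hω => h.near ω (hA ω hω), fun ω hω => h.vel ω (hA ω hω)⟩

theorem UpO.mono {A : F.Ω → Prop} {g₀ : F.Ω → MvPolynomial (Option (Fin m)) ℝ} {Kf Kf' w pr : ℕ}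
    {q : F.Ω → MvPolynomial (Option (Fin m)) ℝ} (h : UpO F c rr A g₀ Kf w pr q) (hK : Kf ≤ Kf') :
    UpO F c rr A g₀ Kf' w pr q :=
  ⟨h.cl, fun ω hω => (h.deg ω hω).trans hK, h.dep, h.near, h.vel⟩

/-- **The label over the closed label** of a virtual place. -/
theorem UpO.vtG {A : F.Ω → Prop} {Wn : ℕ} {V : Type} {z : PtT F → V} {z' : LnT F → V}
    {G : V → MvPolynomial (Option (Fin m)) ℝ} {Kf w pr : ℕ}
    {q : F.Ω → MvPolynomial (Option (Fin m)) ℝ} (hw : t.W₀ ≤ w) (hwJ : w ≤ J)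
    (zd : ∀ y, (t.zP y).totalDegree ≤ Kf) (zp : ∀ y, DepC c 2 (t.zP y))
    (zcl : ∀ ω, A ω → t.zP (ptr F J ω) = t.zH (slam F t.W₀ ω))
    (h : UpO F c rr A (fun ω => (vtG Wn z z' G t).zP (ptr F J ω)) Kf w pr q) :
    UpO F c rr A (fun ω => G (z (ptr F J ω))) Kf w pr (fun ω => t.zP (ptr F J ω) + q ω) where
  cl := ((cl_earlier hw hwJ zcl).join h.cl).comp fun a => a.1 + a.2
  deg := fun ω hω => (totalDegree_add _ _).trans (max_le (zd _) (h.deg ω hω))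
  dep := fun ω hω b₁ b₂ hn hb => by
    rw [map_add, map_add, zp _ b₁ b₂ hn hb, h.dep ω hω b₁ b₂ hn hb]
  near := fun ω hω => by
    have h1 := h.near ω hω
    show |F.x ω (c rr) - eval (bt F ω) (G (z (ptr F J ω)) + (t.zP (ptr F J ω) + q ω))| * 2 ^ pr ≤ 1
    rw [← add_assoc]
    exact h1
  vel := fun ω hω => by
    have h1 := h.vel ω hω
    show |ojet F (c rr) 1 (G (z (ptr F J ω)) + (t.zP (ptr F J ω) + q ω)) ω| * 2 ^ pr ≤ 2 ^ w
    rw [← add_assoc]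
    exact h1

end Pool.VJ77
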