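import Pool.Agent.H77.VJ.Sup

/-!
# The class theorem with a row for a predicate of the labels

`su_voidY`: `su_void` with the row of the velocity of the target for the labels with the property
`Υ`, which holds for the labels `UpO` of the event.
-/

set_option autoImplicit false

namespace Pool.VJ77

open Finset Real MvPolynomial
open Pool.Agent.H49.Ent Pool.Agent.H32.Dense Pool.STK Pool.KA Pool.KSAT Pool.K2S Pool.PB Pool.S6C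
open Pool.GEN Pool.CHT Pool.RCD Pool.D2F Pool.CHX Pool.D2Con Pool.D2A
open Pool.STA37
open Pool.STB (V3 Po Bx Hb cv cl_earlier PosR cnt_int cg VbT p2 lg_le ChH mu_num two_le_rpow
  vb_lev)
open Pool.STB65 (InpP InpF PosO JetO nu nu_pos Rs Rs_pos grd_bx xD pD jet_evE pos_ev se)
open Pool.STB82 (yv hgP Fst WinN cond_pos_B chh_pos LevN)
open Pool.LA91 (jet ojet qJet qJets qG Mx FulC)
open Pool.RCD (vg)
open Pool.LBT (ThrOf)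
open Pool.FLF (Fam.sub)

variable {m : ℕ}

/-- **The class theorem.** -/
theorem su_voidY (m K b rr : ℕ) (hr2 : 2 ≤ rr) (hr3 : rr ≤ 3) (hb : 3 ≤ b) (hbK : b ≤ K + 1)
    (hK : 1 ≤ K) :
    ∃ (n : ℕ) (A τ δ : ℝ) (Cg ne : ℕ), 0 < n ∧ 1 ≤ A ∧ 0 < τ ∧ τ ≤ 1 ∧ 0 < δ ∧
    ∀ (N : ℕ) (kr ur : ℝ), 0 < kr → 0 < ur →
    ∀ {θ : ℝ} {S S' : PCl m} (_ : ∀ (τ : ℝ) (J : ℕ) (F : Fam m J) (A : F.Ω → Prop),
        S'.St τ J F A → S.St τ J F A) {P : List (Fin m) × Fin m → ℝ → ℝ → ℝ}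
      (_ : ThrOf (chsys m θ) S P) (_ : TmH S) (_ : S'.Ne) (c : ℕ → Fin m)
      (_ : Set.InjOn c (Set.Iio 3)) {η e0 eg : ℝ} {wi ai : ℕ → ℚ} {fi : ℕ → ℝ}
      {sf : ℕ → ℕ → ℝ} (Υ : ∀ (_ : ℕ) (J : ℕ) (F : Fam m J), (F.Ω → Prop) → (F.Ω → ℤ) → Prop)
      (_ : 0 < θ) (_ : 0 < η)
      (_ : ∀ i < n, 0 ≤ wi i ∧ wi i ≤ 1 ∧ eg < θ * wi i ∧ bet P c rr (wi i) (wi i) + η ≤ 1)
      (_ : ∀ i < n, 0 < ai i ∧ ai i ≤ 1 ∧ e0 < θ * ai i ∧ bet P c 0 (ai i) (ai i) + η ≤ 1 ∧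
        bet P c 1 (ai i) (ai i) + η ≤ 1)
      (_ : ∀ i < n, fi i ≤ 1) (_ : ∀ i < n, FulC S c 0 2 (fi i) (sf i))
      {tt aw bb e1 eF : ℝ} {pf : ℕ → ℝ} {pr : ℝ} {Nf : ℕ → ℕ → ℝ} {N₂ : ℝ} {Pq : Fin 2 → ℝ}
      {sn : ℕ → ℝ → ℝ} {sw : ℕ → ℝ} (_ : aw ≤ 1) (_ : FulC S c 0 2 aw sw)
      (_ : ∀ l < 2, ∀ j ≤ 1, Nf l j ≤ 1) (_ : N₂ ≤ 1) (_ : ∀ i, Pq i ≤ 1) {ρF κf : ℝ}
      (_ : 0 ≤ ρF) (_ : ρF ≤ δ * kr) (_ : 0 ≤ κf) (_ : κf ≤ δ * kr)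
      (_ : ∃ k₂ : ℝ, 0 < k₂ ∧ ∀ Kf : ℕ, Bas S (fun J F A =>
        ∀ (V : Type) (z : F.Ω → V) (V' : Type) (z' : F.Ω → V'),
        Mx (fun J F => ptr F J) (vg tt) k₂ F A z → Mx (fun J F => ptr F J) (vg aw) k₂ F A z' →
        ∀ u, (qG m c 2 sn bb Pq).P Kf eF J F A u →
        CH (Pool.Agent.H49.Ent.cond F.p A True) u (fun ω => (z ω, F.W ω)) ≤
          CH (Pool.Agent.H49.Ent.cond F.p A True) u (fun ω => (z' ω, F.W ω)) + κf * J))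
      (_ : ∀ (Kf : ℕ) (cF : ℝ), 0 < cF → Bas S' (fun J F A => ∃ (V : Type) (z : F.Ω → V),
        Cl2 (fun ω => ptr F J ω) (slam F ⌊tt * J⌋₊) A z ∧
        ∀ B : F.Ω → Prop, Sub B A → cF * Pe F.p A ≤ Pe F.p B → ∀ u u',
          (qJets m c 0 2 1 (fun _ _ => tt) (fun l _ => pf l) Nf).P Kf e1 J F B u →
          Υ Kf J F B u' →
          CH (Pool.Agent.H49.Ent.cond F.p B True) u' (fun ω => (u ω, (z ω, F.T ω))) ≤ ρF * J))
      {c₀ : ℝ} (_ : 0 < c₀)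
      (_ : Bas S' (fun J F A' => ∃ B : F.Ω → Prop, Sub B A' ∧ c₀ * Pe F.p A' ≤ Pe F.p B ∧
        ∃ (t : VbT F) (f : FaT F) (ρ : ℝ), SuE F c rr B K n N b t ∧
          FaE F c B K t.y t.e₁' t.W₀ t.g1 t.Pl f ∧
          SuV P c rr n b Cg ne A τ kr ur η e0 eg wi ai fi sf t ∧
          SuG n b Cg tt aw bb e1 eF pf pr Nf N₂ Pq sn sw t f ρ ∧
          ∀ Kf : ℕ, b * K + K + b ≤ Kf → ∀ A₀ : F.Ω → Prop, Sub A₀ B →
            ∀ (q : F.Ω → MvPolynomial (Option (Fin m)) ℝ) (u' : F.Ω → ℤ),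
            UpO F c rr A₀ (fun ω => t.zP (ptr F J ω)) Kf ⌊tt * J⌋₊ ⌊(pr - e1) * J⌋₊ q →
            (∀ ω, A₀ ω → u' ω = ⌊(2 : ℝ) ^ (N₂ * J) *
              ojet F (c rr) 1 (t.zP (ptr F J ω) + q ω) ω⌋) → Υ Kf J F A₀ u')), False := by
  classical
  have hl2 : 0 < Real.log 2 := Real.log_pos one_lt_two
  obtain ⟨γ, γ₀, e₀, c', R, C₀, M₀, hγ, hγ₀, hγκ, he₀, hc', hR, hC₀, hend⟩ :=
    Pool.EJ13.stbJ_false b (1 / 2) (1 / 100) hb (by norm_num) (by norm_num)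
  obtain ⟨E, E', hjet⟩ := jet_evE m (K + 1) b (by omega) (by omega) hbK
  obtain ⟨C₂, hC₂, hvel⟩ := vel_all m K b
  obtain ⟨C₃, hC₃, hnf⟩ := su_nf K b
  obtain ⟨C₄, hC₄, hpos⟩ := pos_ev (K + 1)
  obtain ⟨C₅, hC₅, hpd⟩ := pdv_bd b
  -- the integers
  obtain ⟨ne, hne⟩ : ∃ ne : ℕ, e₀ ≤ ne := exists_nat_ge e₀
  obtain ⟨n', hn'⟩ : ∃ n' : ℕ, 2 * ((3 + (se b).card : ℕ) : ℝ) / e₀ ≤ n' := exists_nat_ge _
  obtain ⟨n, hnd⟩ : ∃ n, n = n' + 1 := ⟨_, rfl⟩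
  have hn0 : 0 < n := by omega
  have hncard : 2 * ((3 + (se b).card : ℕ) : ℝ) ≤ e₀ * n := by
    have h1 : 2 * ((3 + (se b).card : ℕ) : ℝ) / e₀ ≤ n := by
      rw [hnd]
      push_cast at hn' ⊢
      linarith
    rw [div_le_iff₀ he₀] at h1
    linarith
  obtain ⟨R', hR'd⟩ : ∃ R', R' = max R 1 := ⟨_, rfl⟩
  have hR'1 : 1 ≤ R' := hR'd ▸ le_max_right _ _
  have hR'R : R ≤ R' := hR'd ▸ le_max_left _ _
  have hR'0 : 0 < R' := by linarith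
  obtain ⟨nn, hnn⟩ : ∃ nn : ℕ, R' / 2 ^ nn ≤ 1 / 100 := by
    obtain ⟨nn, h⟩ := pow_unbounded_of_one_lt (100 * R') (one_lt_two (α := ℝ))
    refine ⟨nn, ?_⟩
    rw [div_le_iff₀ (by positivity)]
    linarith
  obtain ⟨q, hq⟩ : ∃ q : ℕ, q = E + E' + 4 * b + 30 := ⟨_, rfl⟩
  obtain ⟨A, hA⟩ : ∃ A : ℝ, A = 400000 * (R' + b + nn + 1) * q := ⟨_, rfl⟩
  have hb0 : (0 : ℝ) ≤ b := Nat.cast_nonneg _
  have hnn0 : (0 : ℝ) ≤ nn := Nat.cast_nonneg _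
  have hq30 : (30 : ℝ) ≤ q := by
    rw [hq]
    push_cast
    have h1 : (0 : ℝ) ≤ E := Nat.cast_nonneg _
    have h2 : (0 : ℝ) ≤ E' := Nat.cast_nonneg _
    linarith
  have hA1 : 400000 * (R' + b + nn + 1) ≤ A := by
    rw [hA]
    nlinarith
  have hqA : (q : ℝ) ≤ A := by
    rw [hA]
    nlinarith
  have hA30 : (30 : ℝ) ≤ A := hq30.trans hqA
  have natA : ∀ a : ℕ, a ≤ q → (a : ℝ) ≤ A := fun a ha => le_trans (by exact_mod_cast ha) hqA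
  obtain ⟨τ, hτ⟩ : ∃ τ : ℝ, τ = min (min γ (min γ₀ e₀)) (1 / 2) := ⟨_, rfl⟩
  have hτ0 : 0 < τ := by
    rw [hτ]
    exact lt_min (lt_min hγ (lt_min hγ₀ he₀)) (by norm_num)
  have hτ2 : τ ≤ 1 / 2 := hτ ▸ min_le_right _ _
  have hτ1 : τ ≤ 1 := by linarith
  have hτγ : τ ≤ γ := by
    rw [hτ]
    exact (min_le_left _ _).trans (min_le_left _ _)
  have hτγ₀ : τ ≤ γ₀ := by
    rw [hτ]
    exact (min_le_left _ _).trans ((min_le_right _ _).trans (min_le_left _ _))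
  have hτe : τ ≤ e₀ := by
    rw [hτ]
    exact (min_le_left _ _).trans ((min_le_right _ _).trans (min_le_right _ _))
  obtain ⟨δ₀, hδ₀⟩ : ∃ δ₀ : ℝ, δ₀ = 1 / (40000 * R') := ⟨_, rfl⟩
  have hδ₀0 : 0 < δ₀ := by rw [hδ₀]; positivity
  obtain ⟨cc, hcc⟩ : ∃ cc : ℝ, cc = 1 / (100 * R') := ⟨_, rfl⟩
  have hcc0 : 0 < cc := by rw [hcc]; positivity
  obtain ⟨c₁, hc₁⟩ : ∃ c₁ : ℝ, c₁ = min c' (cc / 200) := ⟨_, rfl⟩
  have hc₁0 : 0 < c₁ := by rw [hc₁]; exact lt_min hc' (by positivity)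
  refine ⟨n, A, τ, δ₀ / 2, q, ne + 1, hn0, by linarith, hτ0, hτ1, by positivity, ?_⟩
  intro N kr ur hkr hur
  obtain ⟨C₁, hC₁, hjetN⟩ := hjet N
  intro θ S S' hsub P hP hS hSn c hc η e0 eg wi ai fi sf Υ hθ hη hwi hai hfi hful tt aw bb e1 eF pf pr
    Nf N₂ Pq sn sw haw hfulw hNf hN₂ hPq ρF κf hρF0 hρF hκf0 hκf hfree hF c₀ hc₀ hev
  obtain ⟨k₂, hk₂, hfree⟩ := hfree
  -- the constants of the class
  obtain ⟨C₆, hC₆, hchh⟩ := chh_pos hP hS c K n hn0 ai (e₀ := e0) (h := η)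
    (ε := τ * kr * Real.log 2 / 4) (c₁ := c₁) (fun i hi => (hai i hi).1)
    (fun i hi => (hai i hi).2.1) hθ (fun i hi => (hai i hi).2.2.1) hη
    (fun i hi => (hai i hi).2.2.2.1) (fun i hi => (hai i hi).2.2.2.2) (by positivity) hc₁0
  obtain ⟨sT, hsT⟩ : ∃ sT : ℝ, sT = ur * Real.log 2 / (4 * (C₁ + C₂)) := ⟨_, rfl⟩
  have hC12 : 0 < C₁ + C₂ := by linarith
  have hsT0 : 0 < sT := by
    rw [hsT]
    positivity
  obtain ⟨εL, hεL⟩ : ∃ εL : ℝ, εL = δ₀ / 2 * kr := ⟨_, rfl⟩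
  have hεL0 : 0 < εL := by rw [hεL]; positivity
  have hlow := Bas.all n fun i hi => low_cls hS (hfi i hi) (hful i hi) hεL0
  have hloww := low_cls hS haw hfulw hεL0
  obtain ⟨Kf, hKf⟩ : ∃ Kf : ℕ, Kf = b * K + K + b + (E' + 2 * b + 9) + 5 := ⟨_, rfl⟩
  obtain ⟨c₃, hc₃⟩ : ∃ c₃ : ℝ, c₃ = c₀ / (16 * 2 ^ n) := ⟨_, rfl⟩
  have hn2 : (1 : ℝ) ≤ 2 ^ n := one_le_pow₀ one_le_two
  have hc₃0 : 0 < c₃ := by rw [hc₃]; positivity
  have hc₃c : c₃ * (16 * 2 ^ n) = c₀ := by rw [hc₃]; field_simp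
  have hstb := Bas.all n fun i hi => hend m θ S P hP c rr (b * (K + 1) + K) (wi i) (wi i) eg η
    (1 / c₃) (hwi i hi).1 le_rfl (hwi i hi).2.1 (hwi i hi).2.2.1 hη (hwi i hi).2.2.2 (by positivity)
  -- large numbers
  obtain ⟨c₂, hc₂⟩ : ∃ c₂ : ℕ, C₁ * (n + 1) + C₂ + C₃ + C₄ + C₅ + C₆ + C₀ ≤ (2 : ℝ) ^ c₂ :=
    (pow_unbounded_of_one_lt _ one_lt_two).imp fun _ h => h.le
  obtain ⟨N₁, hN₁⟩ : ∃ N₁ : ℕ, N₁ = 108 * n + 112 + c₂ + M₀ := ⟨_, rfl⟩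
  obtain ⟨J₁, hJ₁⟩ := exists_nat_ge (((N₁ : ℝ) + 2) / ur)
  obtain ⟨J₂, hJ₂⟩ := exists_nat_ge (((N₁ : ℝ) + 2) / kr)
  obtain ⟨J₃, hJ₃⟩ := exists_nat_ge (4 * ((C₁ + C₂) + Real.log 2) / (ur * Real.log 2))
  obtain ⟨J₄, hJ₄⟩ := exists_nat_ge (4 * (Real.log 3 + τ * Real.log 2) / (τ * kr * Real.log 2))
  obtain ⟨J₅, hJ₅⟩ : ∃ J₅ : ℕ, J₅ = max (max J₁ J₂) (max J₃ J₄) + 1 := ⟨_, rfl⟩
  have hc₃cc : 0 < c₃ * cc := by positivity
  have hall := (((Pool.LBK.Bas.ev ((hchh.and (hlow.and hloww)).and (hfree Kf)) hc₃cc).sub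
    hsub).and ((Pool.LBK.Bas.ev (hS.2 sT hsT0) hc₃0).sub hsub)).and
    (((hF Kf (c₃ * cc) hc₃cc).and (hstb.sub hsub)).and hev)
  obtain ⟨τ', hτ', J₆, hfin⟩ := hall
  obtain ⟨J, hJm, F, A', hA'⟩ := hSn τ' hτ' (max J₅ J₆)
  have hJ : J₅ ≤ J := (le_max_left _ _).trans hJm
  have hPA : 0 < Pe F.p A' := hS.1 τ' J F A' (hsub _ _ _ _ hA')
  obtain ⟨⟨hX, hTm⟩, ⟨⟨VF, zF, hzF, hrow⟩, hEnd⟩, B, hBA, hPB, t, f, ρ, hE, hFa, hV, hG, hΥ⟩ :=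
    hfin J ((le_max_right _ _).trans hJm) F A' hA'
  clear hfin
  have hPB0 : 0 < Pe F.p B := lt_of_lt_of_le (by positivity) hPB
  -- the size of `J`
  have c1 : ((J₁ : ℕ) : ℝ) ≤ J := by exact_mod_cast (show J₁ ≤ J by omega)
  have c2 : ((J₂ : ℕ) : ℝ) ≤ J := by exact_mod_cast (show J₂ ≤ J by omega)
  have c3 : ((J₃ : ℕ) : ℝ) ≤ J := by exact_mod_cast (show J₃ ≤ J by omega)
  have c4 : ((J₄ : ℕ) : ℝ) ≤ J := by exact_mod_cast (show J₄ ≤ J by omega)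
  have hJn : 1 ≤ J := by omega
  have hJ1 : (1 : ℝ) ≤ J := by exact_mod_cast hJn
  have hJ0 : (0 : ℝ) < J := by linarith
  have d1 : (N₁ : ℝ) + 2 ≤ ur * J := by
    have := hJ₁.trans c1
    rwa [div_le_iff₀ hur, mul_comm] at this
  have d2 : (N₁ : ℝ) + 2 ≤ kr * J := by
    have := hJ₂.trans c2
    rwa [div_le_iff₀ hkr, mul_comm] at this
  have hyu : ur * J < t.y + 1 := by rw [hV.yJ]; exact Nat.lt_floor_add_one _
  have hku := hV.kJ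
  have hyN : N₁ ≤ t.y := by
    have : (N₁ : ℝ) ≤ t.y := by linarith
    exact_mod_cast this
  have hkN : N₁ ≤ t.k := by
    have : (N₁ : ℝ) ≤ t.k := by linarith
    exact_mod_cast this
  have hCy : C₁ * (n + 1) + C₂ + C₃ + C₄ + C₅ + C₆ + C₀ ≤ 2 ^ t.y := hc₂.trans (p2 (by omega))
  have hn1 : (1 : ℝ) ≤ n := by exact_mod_cast hn0
  have hC1n : C₁ ≤ C₁ * (n + 1) := le_mul_of_one_le_right (by linarith) (by linarith)
  have hC1n0 : 0 ≤ C₁ * ((n : ℝ) + 1) := by linarith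
  have y1 : C₁ * (n + 1) ≤ 2 ^ t.y := by linarith
  have y2 : C₁ ≤ 2 ^ t.y := by linarith
  have y3 : C₃ ≤ 2 ^ t.y := by linarith
  have y4 : C₄ ≤ 2 ^ t.y := by linarith
  have y5 : C₅ ≤ 2 ^ t.y := by linarith
  have y6 : C₆ ≤ 2 ^ t.y := by linarith
  have y0 : C₀ ≤ 2 ^ t.y := by linarith
  have H := hV.H
  have kb : ∀ a b' c' : ℕ, a ≤ q → b' ≤ q → c' ≤ q → a * t.y + b' * t.x + c' ≤ t.k :=
    fun a b' c' ha hb' hc' => Pool.STB6.lin_nat H hτ1 (le_refl _) (natA a ha) (natA b' hb')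
      (natA c' hc')
  have hyk : 2 * t.y + 3 ≤ t.k := by
    have := kb 2 0 3 (by omega) (by omega) (by omega)
    omega
  have hyb : t.y * (b + 1) + 2 ≤ t.k := by
    have := kb (b + 1) 0 2 (by omega) (by omega) (by omega)
    have h1 : (b + 1) * t.y = t.y * (b + 1) := Nat.mul_comm _ _
    omega
  -- sizes
  have hlast := hV.J1 (n - 1) (by omega)
  have hnk : t.k + (n - 1) * t.k + t.k = t.k + n * t.k := by
    have h1 : (n - 1) * t.k + t.k = n * t.k := by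
      rw [hnd]
      simp only [Nat.add_sub_cancel]
      ring
    omega
  rw [hnk] at hlast
  have hWJy : t.y + (t.W₀ + t.k + n * t.k) ≤ J := by
    have := hV.Wg
    have := hV.e2y
    omega
  have hWJ : t.W₀ + t.k + n * t.k ≤ J := by omega
  have hyJ : t.y ≤ J := by omega
  have hWiJ : ∀ i < n, t.W₀ + t.k + i * t.k + t.k ≤ J := by
    intro i hi
    have h1 := hV.J1 i hi
    have := hV.Wg
    omega
  -- the jets
  have hexp : (C₁ + C₂) * (sT * J + 1) ≤ t.y * Real.log 2 := by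
    have h1 : (C₁ + C₂) * (sT * J) = ur * Real.log 2 / 4 * J := by
      rw [hsT]
      field_simp
    have h2 : 4 * ((C₁ + C₂) + Real.log 2) ≤ ur * Real.log 2 * J := by
      have := hJ₃.trans c3
      rw [div_le_iff₀ (by positivity)] at this
      linarith
    have h3 : ur * J * Real.log 2 ≤ (t.y + 1) * Real.log 2 :=
      mul_le_mul_of_nonneg_right hyu.le hl2.le
    have h4 : (C₁ + C₂) * (sT * J + 1) = (C₁ + C₂) * (sT * J) + (C₁ + C₂) := by ring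
    rw [h4, h1]
    linarith only [h2, h3, hC12, hl2]
  have hsJ : 0 ≤ sT * J + 1 := by positivity
  have hexp1 : C₁ * (sT * J + 1) ≤ t.y * Real.log 2 :=
    (mul_le_mul_of_nonneg_right (by linarith) hsJ).trans hexp
  have hexp2 : C₂ * (sT * J + 1) ≤ t.y * Real.log 2 :=
    (mul_le_mul_of_nonneg_right (by linarith) hsJ).trans hexp
  have hyJr : (t.y : ℝ) * Real.log 2 ≤ ((J : ℝ) - ((t.W₀ + t.k + n * t.k : ℕ) : ℝ)) *
      Real.log 2 := by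
    refine mul_le_mul_of_nonneg_right ?_ hl2.le
    have h2 : ((t.y + (t.W₀ + t.k + n * t.k) : ℕ) : ℝ) ≤ J := by exact_mod_cast hWJy
    rw [Nat.cast_add] at h2
    linarith
  have hc₃₀ : c₃ ≤ c₀ := by
    rw [← hc₃c]
    exact le_mul_of_one_le_right hc₃0.le (by linarith)
  have hTm' := hTm B hBA (le_trans (mul_le_mul_of_nonneg_right hc₃₀ hPA.le) hPB) hPB0
  obtain ⟨B₁, ctr, xo, D₁, Jo, Ci, hB₁, hPB₁, O₁, Jt₁⟩ := hjetN F B hPB0 t.W₀ t.k t.k n (2 ^ t.y)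
    (sT * J) ((2 ^ t.y) ^ 2) (yv F c t.W₀ t.g1 t.Pl) t.yt (hgP c t.W₀ t.g1 t.Pl) t.e t.ji t.f t.f'
    t.kf hE.iP (fun _ => rfl) hE.iF hE.hji hn0 hWJ le_rfl y2
    (Pool.STB6.vn_sig (by omega)).1 (Pool.STB6.vn_sig (n := n) (by omega)).2 le_rfl
    (Pool.STB6.vn_YE H (natA E (by omega)) hτ1) (by positivity) hTm' (by
      refine hexp1.trans (hyJr.trans (mul_le_mul_of_nonneg_right ?_ hl2.le))
      push_cast
      have : (0 : ℝ) ≤ (t.k : ℝ) + n * t.k := by positivity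
      linarith) (Pool.STB6.vn_exp hexp1)
  have hPB₁0 : 0 < Pe F.p B₁ := by linarith
  -- the positions of the far data
  have hfk2 : 2 ≤ f.k := by
    have := hG.kk
    omega
  have hfJ : f.W + f.d + 1 * f.k ≤ J := by
    have h1 := hG.fJ
    have h2 : ⌊aw * J⌋₊ ≤ J := by
      refine Nat.floor_le_of_le ?_
      calc aw * J ≤ 1 * J := mul_le_mul_of_nonneg_right haw hJ0.le
        _ = J := one_mul _
    omega
  have hsig := Pool.STB6.vn_sig (n := 1) (y := t.y) (by omega)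
  obtain ⟨B₂, ctr', xo', D₁', hB₂, hPB₂, O'₂⟩ := hpos F B₁ f.W f.d f.k 1 (2 ^ t.y) ((2 ^ t.y) ^ 2)
    (yv F c f.W f.g f.Pl) f.yt (hgP c f.W f.g f.Pl) (hFa.iP.sub hB₁) hfJ hG.kd hfk2
    (one_le_pow₀ one_le_two) hsig.1 hsig.2
  have hPB₂0 : 0 < Pe F.p B₂ := by linarith
  have hE₂ := (hE.sub hB₁).sub hB₂
  have O₂ := O₁.sub hB₂
  have Jt₂ := Jt₁.sub hB₂
  have hKp1 : C₁ * 2 ^ t.y ≤ 2 ^ t.y * 2 ^ t.y := mul_le_mul_of_nonneg_right y2 (by positivity)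
  have hsum := vs_num (b := b) (by omega) (by omega : 1 ≤ t.y) y1 hKp1
  -- the velocity
  obtain ⟨B₃, hB₃, hPB₃, hve⟩ := hvel hE₂ O₂ Jt₂ (by omega) hK hWJ (by positivity)
    (by linarith) (hsum.trans (p2 hyb)) (sT * J) (by positivity)
    (fun B' hB' hP' hP0 => by
      have hBB : Sub B' A' := fun ω hω => hBA ω (hB₁ ω (hB₂ ω (hB' ω hω)))
      refine hTm B' hBB ?_ hP0
      have h1 : c₃ * (16 * 2 ^ n) * Pe F.p A' ≤ 16 * 2 ^ n * Pe F.p B' := by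
        rw [hc₃c]
        refine hPB.trans (hPB₁.trans ?_)
        linarith
      have h2 : (0 : ℝ) < 16 * 2 ^ n := by positivity
      by_contra h3
      have h4 : Pe F.p B' < c₃ * Pe F.p A' := not_le.1 h3
      have h5 := mul_lt_mul_of_pos_left h4 h2
      linarith) hPB₂0 (hexp2.trans hyJr)
  have hBA₃ : Sub B₃ A' := fun ω hω => hBA ω (hB₁ ω (hB₂ ω (hB₃ ω hω)))
  have hPA₃ : c₃ * Pe F.p A' ≤ Pe F.p B₃ := by
    have h1 : c₃ * (16 * 2 ^ n) * Pe F.p A' ≤ 16 * 2 ^ n * Pe F.p B₃ := by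
      rw [hc₃c]
      refine hPB.trans (hPB₁.trans ?_)
      linarith
    have h2 : (0 : ℝ) < 16 * 2 ^ n := by positivity
    by_contra h3
    have h4 : Pe F.p B₃ < c₃ * Pe F.p A' := not_le.1 h3
    have h5 := mul_lt_mul_of_pos_left h4 h2
    linarith
  have hPB₃0 : 0 < Pe F.p B₃ := lt_of_lt_of_le (by positivity) hPA₃
  obtain ⟨Kp, hKp⟩ : ∃ Kp, Kp = C₁ * (2 : ℝ) ^ t.y := ⟨_, rfl⟩
  obtain ⟨Kc, hKc⟩ : ∃ Kc, Kc = C₁ * ((n : ℝ) + 1) := ⟨_, rfl⟩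
  obtain ⟨Ex, hEx⟩ : ∃ Ex, Ex = Real.exp (C₂ * (sT * J + 1)) := ⟨_, rfl⟩
  obtain ⟨Ve, hVe⟩ : ∃ Ve, Ve = Ex * Kc * (Kc + Kp + 2 + 2 ^ (t.y * (b + 1))) := ⟨_, rfl⟩
  rw [← hKp] at O₂ hKp1 hsum hve
  rw [← hKc] at Jt₂ y1 hC1n0 hve hsum
  rw [← hEx] at hve
  have hEx0 : 0 ≤ Ex := by rw [hEx]; positivity
  have hExy : Ex ≤ 2 ^ t.y := hEx ▸ Pool.STB6.vn_exp hexp2
  have hKp0 : 0 ≤ Kp := by rw [hKp]; positivity
  have hVe0 : 0 ≤ Ve := by rw [hVe]; positivity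
  have hVe1 : Ve + 1 ≤ 2 ^ (t.y * (b + 3) + 4) :=
    hVe ▸ ve_num (by omega) (by omega) hExy hEx0 y1 hC1n0 hKp1 hKp0
  have hD : SuD F c rr B₃ K n N b E E' t f Kp (C₄ * 2 ^ t.y + 7) Kc Ve ctr xo ctr' xo' D₁ D₁' Jo Ci _ :=
    ⟨hE₂.sub hB₃, O₂.sub hB₃, Jt₂.sub hB₃, ((hFa.sub hB₁).sub hB₂).sub hB₃, O'₂.sub hB₃,
      fun i hi ω hω => by
        refine (hve i hi ω hω).trans (le_of_eq ?_)
        rw [hVe]
        ring⟩
  have hN : SuN n b E E' t f ρ N₂ Nf Pq sf sw ⌊aw * J⌋₊ := sun_of hV hG hWJ haw (by omega) (by omega)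
  -- the rows of the parts
  have hM : Real.log (((2 ^ t.k : ℕ) : ℝ)) = t.k * Real.log 2 := Pool.STB6.rp_log t.k
  have hk1 : (1 : ℝ) ≤ t.k := by exact_mod_cast (by omega : 1 ≤ t.k)
  have hδk : ∀ u : ℝ, 0 ≤ u → u ≤ δ₀ / 2 * kr → u * J ≤ δ₀ * t.k := fun u _ hu => by
    have h1 : u * J ≤ δ₀ / 2 * kr * J := mul_le_mul_of_nonneg_right hu hJ0.le
    have h2 : δ₀ / 2 * (kr * J) ≤ δ₀ / 2 * (2 * t.k) :=
      mul_le_mul_of_nonneg_left (by linarith) (by positivity)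
    linarith
  have hr0 : 0 ≤ εL * J := by positivity
  have hcm : c₃ * cc * Pe F.p A' ≤ cc * Pe F.p B₃ := by
    have h1 := mul_le_mul_of_nonneg_left hPA₃ hcc0.le
    linarith
  have hcc1 : cc ≤ 1 := by
    rw [hcc, div_le_one (by positivity)]
    linarith
  have key : ∀ A₀ : F.Ω → Prop, Sub A₀ B₃ → cc * Pe F.p B₃ ≤ Pe F.p A₀ →
      (∀ i < n, LowP F A₀ c (sf i) (t.W₀ + t.k + i * t.k + t.k) (εL * J)) ∧
      LowP F A₀ c (sf 0) (t.W₀ + t.k) (εL * J) ∧ LowP F A₀ c sw ⌊aw * J⌋₊ (εL * J) ∧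
      (∀ (V : Type) (z : F.Ω → V) (V' : Type) (z' : F.Ω → V'),
        Fst (slam F (t.W₀ + t.k)) (fun ω => ptr F J ω) A₀ z →
        Fst (slam F ⌊aw * J⌋₊) (fun ω => ptr F J ω) A₀ z' →
        CH (Pool.Agent.H49.Ent.cond F.p A₀ True) (ul c f Pq) (fun ω => (z ω, F.W ω)) ≤
          CH (Pool.Agent.H49.Ent.cond F.p A₀ True) (ul c f Pq) (fun ω => (z' ω, F.W ω)) +
            κf * J) ∧
      CH (Pool.Agent.H49.Ent.cond F.p A₀ True) (upi c rr t E' b ctr Ci N₂)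
        (fun ω => (uj F c f.W f.g f.Pl (ctr' 0) Nf ω, (zF ω, F.T ω))) ≤ ρF * J := by
    intro A₀ hA₀ hP₀
    have hS₀ : Sub A₀ A' := fun ω hω => hBA₃ ω (hA₀ ω hω)
    obtain ⟨⟨-, hlo, hlw⟩, hfr⟩ := hX A₀ hS₀ (hcm.trans hP₀)
    refine ⟨fun i hi => (hlo i hi).2 _ (hV.Wf i hi), (hlo 0 hn0).2 _ ?_, hlw.2 _ le_rfl, ?_, ?_⟩
    · have := hV.Wf 0 hn0
      omega
    · intro V z V' z' hz hz'
      refine hfr V z V' z' (mx_fst hk₂.le hG.ttJ hz) (mx_fst hk₂.le rfl hz') _ ?_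
      refine ug_lab' hJn (hD.Ef.sub hA₀) hG.bbJ hG.bbJ' hyJ (by omega) (by omega)
        hPq (fl_le2 hG.r0) (fl_le2 hG.r1) (fun ω _ => F.dir ω (c 0))
    · refine hrow A₀ hS₀ (hcm.trans hP₀) _ _ ?_ ?_
      · refine uj_lab hJn (hD.Ef.sub hA₀) (hD.O'.sub hA₀) (by rw [hG.ttJ, hG.ht])
          (by have := hG.ht; omega) (by positivity) hyJ (by omega) (by omega) hNf ?_ ?_
          (fun ω _ => F.dir ω (c 0))
        · rw [← pow_mul]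
          have := hG.q0
          exact fl_le2 (by rw [mul_comm t.y 2]; exact this)
        · rw [← pow_mul]
          have := hG.q1
          exact fl_le2 (by rw [mul_comm t.y 2]; exact this)
      · have hA₀B : Sub A₀ B := fun ω hω => hB₁ ω (hB₂ ω (hB₃ ω (hA₀ ω hω)))
        have hok : UpO F c rr A₀ (fun ω => t.zP (ptr F J ω)) (b * K + K + b) ⌊tt * J⌋₊
            ⌊(pr - e1) * J⌋₊ (qli c t E' b ctr Ci) := by
          refine up_ok (hD.ev.sub hA₀) (hD.O.sub hA₀) (hD.Jt.sub hA₀) (by omega) hK hn0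
            (Ve := Ve) (C := C₅) hpd (by linarith) y5 hC1n0 y1
            (fun ω hω => hD.vel 0 hn0 ω (hA₀ ω hω)) ?_ (by omega) hG.ttJ (by omega) ?_
          · have h1 : (2 : ℝ) ^ (t.y * (b + 3) + 4) ≤ 2 ^ t.k := p2 (by
              have := kb (b + 3) 0 4 (by omega) (by omega) (by omega)
              have h1 : (b + 3) * t.y = t.y * (b + 3) := Nat.mul_comm _ _
              omega)
            linarith
          · have h1 := hG.q2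
            have h2 : (E' + 2 * b + 4) * (t.y + 1) ≤ q * (t.y + 1) :=
              Nat.mul_le_mul_right _ (by omega)
            have h3 : (E' + 2 * b + 4) * (t.y + 1) =
              t.y * E' + 2 * t.y * b + 2 * t.y + 2 + (2 * t.y + (E' + 2 * b + 2)) := by ring
            omega
        refine hΥ Kf (by omega) A₀ hA₀B _ _ (hok.mono (by omega)) fun ω hω => ?_
        show ⌊(2 : ℝ) ^ (N₂ * J) * ojet F (c rr) 1 (cgi c t E' b ctr Ci 0 ω) ω⌋ = _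
        rw [cgi_qli, (hD.ev.sub hA₀).zcl ω hω]
  -- the chain
  have hfull : τ * kr * Real.log 2 / 4 * J + Real.log 3 ≤
      e₀ * Real.log (((2 ^ t.k : ℕ) : ℝ)) := by
    refine Pool.STB6.vn_full (τ := τ) ?_ hτe
    have h2 : 4 * (Real.log 3 + τ * Real.log 2) ≤ τ * kr * Real.log 2 * J := by
      have := hJ₄.trans c4
      rw [div_le_iff₀ (by positivity)] at this
      linarith
    have h3 : τ * Real.log 2 * (kr * J) ≤ τ * Real.log 2 * (t.k + 1) :=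
      mul_le_mul_of_nonneg_left hku (by positivity)
    have h4 : 0 ≤ Real.log 3 := Real.log_nonneg (by norm_num)
    have h5 : 0 ≤ τ * Real.log 2 := by positivity
    linarith only [h2, h3, h4, h5]
  have hccB : cc * Pe F.p B₃ ≤ Pe F.p B₃ := by
    have := mul_le_mul_of_nonneg_right hcc1 hPB₃0.le
    linarith
  obtain ⟨⟨hchh', -, -⟩, -⟩ := hX B₃ hBA₃ (hcm.trans hccB)
  have hKcr : Kc = C₁ * ((n : ℝ) + 1) := hKc
  obtain ⟨i, hi, Zt, Yt, zp, y, D', x, Jz, hz, hy, hD', hxx, hJz, hCh⟩ := hchh' t.W₀ t.k t.k b t.g1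
    t.e₁' t.e₂ t.x (2 * t.y + 1) (t.y + 1) (2 ^ t.y) ((2 ^ t.y) ^ 2) Kp Kc
    (((2 ^ t.k : ℕ) : ℝ) ^ e₀) ((2 ^ t.y) ^ E') ((2 ^ t.y) ^ E)
    (e₀ * Real.log (((2 ^ t.k : ℕ) : ℝ))) (-1) R' (((2 ^ t.k : ℕ) : ℝ) ^ (-γ₀)) t.Pv t.Pl t.yt
    t.f t.ji ctr xo D₁ Jo Ci _ hD.ev.iP hD.O hD.Jt
    (hKp ▸ Pool.STB6.vn_CY' H y2 (by linarith) hτe)
    (Pool.STB6.vn_C' H y1 (by linarith) hτe) (by positivity) (by positivity) (by positivity)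
    hE.Pd hE.Pp (fun ω hω => hD.ev.Pc ω hω) (fun ω hω => hD.ev.Pg ω hω)
    (Pool.STB6.vn_card (T₀ := 3 + (se b).card) hn0 (by exact_mod_cast hncard) (by omega) (by
      push_cast
      exact le_rfl)) hfull hWJ (fun i hi => vb_lev H y6 (by linarith) hτγ₀ hτ1
        (natA 9 (by omega)) (hV.Wa i hi) (hV.l0 i hi) (hV.l1 i hi) hV.Wg hV.e12 hV.e2y hV.e2J
        (hV.J1 i hi)) (fun i hi => win_triv (fun ω hω => hD.Jt.J1 i hi ω hω _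
          (hD.O.x1 i hi ω hω)) hC1n0 y1 hyk (by positivity))
  have hlog : 0 ≤ Real.log (((2 ^ t.k : ℕ) : ℝ)) := by
    rw [hM]
    positivity
  refine su_fin (A' := A') (ne := ne) (M₀ := M₀) (γ := γ) (γ₀ := γ₀) (C₀ := C₀) (c₀ := c₃)
    (β := bet P c rr (wi i) (wi i)) (η := η) (e := eg) (w := wi i) (e₀ := e₀) (c' := c') (R := R)
    (h := 1 / 2) hc hr2 hr3 hD.ev (by omega) hBA₃ hq hC1n0 y1 hD.O hD.Jt hi (hWiJ i hi) hV.We H hqA hτ2 hτγ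
    y0 hne ?_ (by omega) (hV.gr i hi) hV.sy (hV.Wi i hi) hV.e1J (hV.gcJ i hi) (hV.pJ i hi)
    (hV.l2 i hi) hPB₃0 hc₃0 hPA₃ hxx hJz
    { hCh with gp := fun H' hH' => (hCh.gp H' hH').trans (hc₁ ▸ min_le_left _ _) } ?_ ?_
  · have := Nat.lt_two_pow_self (n := t.k)
    omega
  · intro j q' hq' hq'p
    have hη0 : (0 : ℝ) < ((2 ^ t.k : ℕ) : ℝ) ^ (-γ₀) := by positivity
    have hb1 := hnf hPB₃0 hD hN y3 hC1n0 hVe0 hVe1 hi (r := εL * J) (κ := κf * J) (r₁ := ρF * J)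
      (c₀ := cc) hcc0 (by positivity) hr0 (by positivity) (s₀ := sf 0)
      (key B₃ (fun _ h => h) hccB).2.1 (key B₃ (fun _ h => h) hccB).2.2.2.1 (z := zF)
      (by
        have h1 := hzF.sub hBA₃
        rw [hG.ttJ] at h1
        exact ⟨h1.2, h1.1⟩)
      (fun A₀ hA₀ hP₀ => by
        obtain ⟨k1, -, k3, k4, k5⟩ := key A₀ hA₀ hP₀
        exact ⟨k1 i hi, k3, k4, k5⟩) hη0 hc₁0.le hz hy hD' hxx hJz hCh (R := R') (θ := 1) hR'1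
      one_pos nn j q' hq' (fun ω => (hq'p ω).trans (mul_le_mul_of_nonneg_right hR'R
        (Pool.Agent.H49.Ent.cond_nonneg F.isLaw.nonneg B₃ True ω)))
    refine hb1.trans ?_
    have h2 := hnf_num (R := R') (c₀ := cc) (A := A) (τ := τ) (κ := κf * J) (r := εL * J)
      (r₁ := ρF * J) (Ve := Ve) (C := C₃) (Kc := Kc) (γ₀ := γ₀) (c₁ := c₁) (δ := δ₀) (b := b)
      (k := t.k) (y := t.y) (x := t.x) (nn := nn) hR'1 hcc hA1 hτ1 H hδ₀ (hδk κf hκf0 hκf)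
      (hδk εL hεL0.le hεL.le) (hδk ρF hρF0 hρF) hnn hVe0 hVe1 (by linarith) y3 hC1n0 y1 hγ₀.le hγκ
      hc₁0.le (hc₁ ▸ min_le_right _ _)
    refine h2.trans ?_
    have h3 : 0 ≤ e₀ * Real.log (((2 ^ t.k : ℕ) : ℝ)) := by positivity
    linarith
  · intro KQ w₀ e₁ p M Kv g G H' V zc zc' CG Q Λ Z Y 𝒟 zp y t D X Φ x Jz mu ε h' R'' B q a1 a2 a3
      a4 a5 a6 a7 a8 a9 a10 a11 a12 a13 a14 a15 a16 a17 a18 a19
    have hMM := rp_half M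
    have hM0 : (0 : ℝ) ≤ (M : ℝ) ^ (1 / 100 : ℝ) := by positivity
    have hM1 : (0 : ℝ) ≤ (M : ℝ) ^ e₀ := by positivity
    refine hEnd i hi KQ w₀ e₁ p M Kv g G H' V zc zc' CG Q Λ Z Y 𝒟 zp y t D X Φ x Jz mu ε h' R'' B q
      a1 a2 a3 a4 a5 a6 a7 a8 a9 a10 a11 a12 ?_ (fun l hl => ⟨(a14 l hl).1, ?_⟩) a15 a16 a17 a18
      a19
    · refine mul_down (by positivity) ?_ (by positivity) a13
      exact mul_le_mul_of_nonneg_right hMM a11.le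
    · have h1 := (a14 l hl).2
      rw [mul_assoc] at h1 ⊢
      have h2 : C₀ * (mu * (((M : ℝ) ^ e₀ + (M : ℝ) ^ (1 / 100 : ℝ)) * Λ l)) =
          mu * (C₀ * (((M : ℝ) ^ e₀ + (M : ℝ) ^ (1 / 100 : ℝ)) * Λ l)) := by ring
      have h3 : C₀ * (mu * (((M : ℝ) ^ e₀ + (M : ℝ) ^ (1 / 2 : ℝ)) * Λ l)) =
          mu * (C₀ * (((M : ℝ) ^ e₀ + (M : ℝ) ^ (1 / 2 : ℝ)) * Λ l)) := by ring
      have h4 := (a14 l hl).1
      rw [h3] at h1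
      rw [h2]
      refine mul_down (by positivity) ?_ (by positivity) h1
      refine mul_le_mul_of_nonneg_left (mul_le_mul_of_nonneg_right ?_ h4) (by linarith)
      linarith

end Pool.VJ77
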