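import Pool.Agent.H77.VJ.Suf
import Pool.Agent.H98.STB.VbD

/-!
# The event of a virtual static place

The event `VbE` of `c 3` over the closed polynomials `G` and `zP` is an event `SuE` of the place 3
over their sum.
-/

set_option autoImplicit false

namespace Pool.VJ77

open Finset Real MvPolynomial
open Pool.Agent.H49.Ent Pool.Agent.H32.Dense Pool.STK Pool.KA Pool.KSAT Pool.K2S Pool.PB
open Pool.GEN Pool.CHT Pool.RCD Pool.D2F
open Pool.STB (V3 Po Bx Hb cv VbT VbE)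
open Pool.STB82 (yv hgP)

variable {m J : ℕ}

/-- The data with the sum of the two closed polynomials. -/
noncomputable def vtG {F : Fam m J} (Wn : ℕ) {V : Type} (z : PtT F → V) (z' : LnT F → V)
    (G : V → MvPolynomial (Option (Fin m)) ℝ) (t : VbT F) : VbT F :=
  { t with
    zP := fun y => G (z y) + t.zP y
    zH := fun S => G (z' (Pool.STB77.cos F Wn t.W₀ S)) + t.zH S }

/-- **The event of a virtual static place.** -/
theorem suE_of {F : Fam m J} {c : ℕ → Fin m} {B : F.Ω → Prop} {K n N b Wn : ℕ} {V : Type}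
    {z : PtT F → V} {z' : LnT F → V} {G : V → MvPolynomial (Option (Fin m)) ℝ} {t : VbT F}
    (h : VbE F c B K n N b Wn z z' G t) (hWn : Wn ≤ t.W₀) (hJ : t.W₀ ≤ J) :
    SuE F c 3 B K n N b (vtG Wn z z' G t) where
  iP := h.iP
  iF := h.iF
  hji := h.hji
  zd := fun ω hω => (totalDegree_add _ _).trans (max_le (h.Gd ω hω) (h.zd _))
  zp := fun ω hω b₁ b₂ hn hb' => by
    show eval b₁ (G (z (ptr F J ω)) + t.zP (ptr F J ω)) =
      eval b₂ (G (z (ptr F J ω)) + t.zP (ptr F J ω))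
    rw [map_add, map_add, h.Gp ω hω b₁ b₂ hn hb', h.zp _ b₁ b₂ hn fun l hl => hb' l (by omega)]
  zcl := fun ω hω => by
    show G (z (ptr F J ω)) + t.zP (ptr F J ω) =
      G (z' (Pool.STB77.cos F Wn t.W₀ (slam F t.W₀ ω))) + t.zH (slam F t.W₀ ω)
    rw [Pool.STB77.cos_slam F hWn hJ, h.zc ω hω, h.zcl ω hω]
  val := fun i hi ω hω => by
    have h1 := h.val i hi ω hω
    show |eval (yv F c t.W₀ t.g1 t.Pl ω) (t.f (t.ji i) (ptr F J ω)) -
      2 ^ t.g₃ * (F.x ω (c 3) - eval (bt F ω) (G (z (ptr F J ω)) + t.zP (ptr F J ω)))| ≤ _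
    rw [map_add, ← sub_sub]
    exact h1
  Pd := h.Pd
  Pp := h.Pp
  Pc := h.Pc
  Pg := h.Pg
  ch := h.ch
  hx0 := h.hx0
  hx1 := h.hx1
  hlT := h.hlT

end Pool.VJ77
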