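import Pool.Agent.H77.VJ.Vex
import Pool.Agent.H37.STA.Evf

/-!
# The event of a virtual static place with the far data

`vj_ev`: the near data `VbE` and the far data `FaE` on a part of each event, from the labels at a list
of nodes.
-/

set_option autoImplicit false

namespace Pool.VJ77

open Finset Real MvPolynomial
open Pool.Agent.H49.Ent Pool.Agent.H32.Dense Pool.STK Pool.KA Pool.KSAT Pool.K2S Pool.PB Pool.S6C
open Pool.GEN Pool.CHT Pool.CHX Pool.NVX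
open Pool.STB77
open Pool.STA37
open Pool.STB (V3 Po Bx VbT VbE FrN vbt InpL N1L)
open Pool.STB82 (yv yp hgP)
open Pool.STB65 (inc_mono inc_less)
open Pool.ALT (Fml)

variable {m : ℕ}

/-- Smaller events. -/
theorem N1L.sub' {J : ℕ} {F : Fam m J} {c : ℕ → Fin m} {D K b N W s v y e X g₃ gS Lx : ℕ}
    {A ee : ℕ → ℕ} {g : ℕ → ℕ → ℕ} {B B' : F.Ω → Prop}
    {G : ℕ → PtT F → ℕ → MvPolynomial (Option (Fin m)) ℝ}
    {H : ℕ → LnT F → ℕ → MvPolynomial (Option (Fin m)) ℝ}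
    {pP : PtT F → ℕ → MvPolynomial (Option (Fin m)) ℝ}
    {pH : LnT F → ℕ → MvPolynomial (Option (Fin m)) ℝ} {xP : PtT F → ℝ} {xH : LnT F → ℝ}
    {Gx zP : PtT F → MvPolynomial (Option (Fin m)) ℝ}
    {zH : LnT F → MvPolynomial (Option (Fin m)) ℝ} {f : ℕ → PtT F → Po} {f' : ℕ → LnT F → Po}
    {kf : LnT F → Po}
    (O : N1L F c D K b N W s v y e X g₃ gS Lx A ee g B G H pP pH xP xH Gx zP zH f f' kf)
    (hB : Sub B' B) :
    N1L F c D K b N W s v y e X g₃ gS Lx A ee g B' G H pP pH xP xH Gx zP zH f f' kf where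
  inc := inc_less O.inc hB
  Ns := O.Ns
  n0' := O.n0'
  hp := O.hp
  xc := fun ω hω => O.xc ω (hB ω hω)
  xn := fun ω hω => O.xn ω (hB ω hω)
  pg := fun ω hω => O.pg ω (hB ω hω)
  zd := O.zd
  zd' := O.zd'
  ze := O.ze
  ze' := O.ze'
  zc := fun ω hω => O.zc ω (hB ω hω)
  inp := O.inp.sub hB
  val := fun k hk ω hω => O.val k hk ω (hB ω hω)
  gT := fun k hk ω hω => O.gT k hk ω (hB ω hω)
  gz := fun ω hω => O.gz ω (hB ω hω)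
  near := fun ω hω => O.near ω (hB ω hω)

/-- **The event of a virtual static place with the far data.** -/
theorem vj_ev (D D' K₀ b : ℕ) {E : ℕ} (hcut : CutS m (D' + K₀ + b + 1) b E) :
    ∃ C₁ C₂ Cf K₂ : ℕ, D' ≤ K₂ ∧ 1 ≤ Cf ∧
    ∀ {K n N N₁ M Dr : ℕ} (_ : K₂ ≤ K) (_ : N₁ ≤ N)
    {S : PCl m} (_ : TmH S) (_ : S.Ne) {c : ℕ → Fin m} (_ : Set.InjOn c (Set.Iio 4)) {Ψ : Fml m}
    {wn w ε K₁ : ℝ} (_ : 0 < ε) (_ : w < 1) (_ : 0 < K₁)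
    (_ : ∀ (J : ℕ) (F : Fam m J) (A B : F.Ω → Prop) (V : Type) (z : PtT F → V)
      (z' : LnT F → V) (G : V → MvPolynomial (Option (Fin m)) ℝ), Sub B A →
      Ψ J F A V z z' G → Ψ J F B V z z' G)
    (_ : ∀ (J : ℕ) (F : Fam m J) (A : F.Ω → Prop) (V : Type) (z : PtT F → V) (z' : LnT F → V)
      (G : V → MvPolynomial (Option (Fin m)) ℝ), Ψ J F A V z z' G →
      (∀ v, (G v).totalDegree ≤ K) ∧ (∀ v, DepC c 3 (G v)) ∧
      ∀ ω, A ω → z (ptr F J ω) = z' (slam F ⌊wn * J⌋₊ ω))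
    (_ : Bas S (fun J F A => ∃ (V : Type) (z : PtT F → V) (z' : LnT F → V)
      (G : V → MvPolynomial (Option (Fin m)) ℝ), Ψ J F A V z z' G))
    {R : ℕ → ℕ → Prop} {ι ιf : ℕ → ℕ} {Nf : ℕ} {s₀ s₁ eJ EJ hJ : ℕ → ℕ} {κJ : ℕ → ℝ}
    {a w' : ℕ → ℕ → ℕ} {g : ℕ → ℕ → ℕ → ℕ}
    {k y x g₃ e₁' e₁ e₂ st lz s v y₀ X Lx kf vf : ℕ → ℕ} {jb ji : ℕ → ℕ}
    (_ : Bas S (fun J F A' => ∀ (V : Type) (z : PtT F → V) (z' : LnT F → V)
        (G : V → MvPolynomial (Option (Fin m)) ℝ), Ψ J F A' V z z' G →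
        ∃ (B : F.Ω → Prop) (Gn : ℕ → PtT F → ℕ → MvPolynomial (Option (Fin m)) ℝ)
          (Hn : ℕ → LnT F → ℕ → MvPolynomial (Option (Fin m)) ℝ)
          (pP : PtT F → ℕ → MvPolynomial (Option (Fin m)) ℝ)
          (pH : LnT F → ℕ → MvPolynomial (Option (Fin m)) ℝ) (xP : PtT F → ℝ) (xH : LnT F → ℝ)
          (zP : PtT F → MvPolynomial (Option (Fin m)) ℝ)
          (zH : LnT F → MvPolynomial (Option (Fin m)) ℝ) (f : ℕ → PtT F → Po)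
          (f' : ℕ → LnT F → Po) (kf : LnT F → Po) (gS : ℕ), Sub B A' ∧
          Pe F.p A' ≤ K₁ * Pe F.p B ∧
          Nls F c 3 D Dr M (s₀ J) R (a J) (w' J) (eJ J) (EJ J) (g J) (hJ J) (κJ J) B Gn Hn ∧
          N1L F c D' K₀ b N (a J (ι 0)) (s J) (v J) (y₀ J) (eJ J) (X J) (g₃ J) gS (Lx J)
            (fun k => a J (ι k)) (fun _ => EJ J) (fun k => g J (ι k)) B (fun k => Gn (ι k))
            (fun k => Hn (ι k)) pP pH xP xH (fun y => G (z y)) zP zH f f' kf))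
    (_ : ιf Nf = ι 0) (_ : ∀ k ≤ Nf, ιf k < M) (_ : ∀ k < Nf, R (ιf k) (ιf (k + 1))) {J₀ : ℕ}
    (_ : ∀ J ≥ J₀, s₀ J ≤ s₁ J ∧ FrL J Nf (s₁ J) (vf J) (a J) (w' J) (g J) ιf)
    (_ : ∀ J ≥ J₀, FrN J n N₁ C₁ b (a J (ι 0)) (k J) (y J) (x J) (g₃ J) (e₁' J) (e₁ J) (st J)
      (lz J) (s J) (v J) (y₀ J) (eJ J) (X J) (fun k => a J (ι k)) (fun _ => EJ J)
      (fun k => g J (ι k)) jb ji w ε)
    (_ : ∀ J ≥ J₀, a J (ι N₁) + Lx J ≤ a J (ι N))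
    (_ : ∀ J ≥ J₀, (((E + 1) * (s J + y₀ J + 3) : ℕ) : ℝ) * Real.log 2 + ε * J ≤
      y J * Real.log 2)
    (_ : ∀ J ≥ J₀, FrF J Nf C₂ (a J (ι 0)) (k J) (y J) (e₁' J) (s J) (v J) (a J (ιf 0)) (kf J)
      (g J (ι 0) 1) (Cf * (s₁ J + 1)) (vf J) (eJ J) (fun k => a J (ιf k))
      (fun k => g J (ιf k)) w ε),
    Bas S (fun J F A' => ∃ (V : Type) (z : PtT F → V) (z' : LnT F → V)
        (G : V → MvPolynomial (Option (Fin m)) ℝ), Ψ J F A' V z z' G ∧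
        ∃ B : F.Ω → Prop, Sub B A' ∧ 1 / (64 * K₁) * Pe F.p A' ≤ Pe F.p B ∧
        ∃ (t : VbT F) (fa : FaT F), VbE F c B K n N₁ b ⌊wn * J⌋₊ z z' G t ∧
          FaE F c B K t.y t.e₁' t.W₀ t.g1 t.Pl fa ∧
          (∃ Gn Hn pP pH zP zH f f' kf, t = vbt F c (a J (ι 0)) (k J) (y J) (x J) (g₃ J) (e₁' J)
            (e₁ J) (e₂ J) (st J) (lz J) (fun k => a J (ι k)) (fun k => g J (ι k)) jb ji Gn Hn pP pH
            zP zH f f' kf) ∧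
          ∃ pP pH xP xH, fa = fat F c (a J (ι 0)) (k J) (a J (ιf 0)) (kf J)
            (fun k => g J (ιf k)) pP pH xP xH) := by
  obtain ⟨Cf, D'', hCf, hDD'', hinc⟩ := inc_nls D
  obtain ⟨C₁, K₂, hDK₂, hev⟩ := vb_eventX D' K₀ b hcut
  obtain ⟨C₂, hfar⟩ := fae_ev (max D' D'')
  refine ⟨C₁, C₂, Cf, max K₂ (max D' D''), hDK₂.trans (le_max_left _ _), hCf, ?_⟩
  intro K n N N₁ M Dr hK hN₁ S hS hne c hc Ψ wn w ε K₁ hε hw hK₁ Ψs Ψc hex R ι ιf Nf s₀ s₁ eJ EJ hJ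
    κJ a w' g k y x g₃ e₁' e₁ e₂ st lz s v y₀ X Lx kf vf jb ji hcls hιf hιM hιR J₀ hL hFN hLx hln
    hFF
  have hK2 : K₂ ≤ K := (le_max_left _ _).trans hK
  have hDK : max D' D'' ≤ K := (le_max_right _ _).trans hK
  obtain ⟨Θ, hΘ⟩ : ∃ Θ : ∀ (J : ℕ) (F : Fam m J), (F.Ω → Prop) →
      (LnT F → ℕ → MvPolynomial (Option (Fin m)) ℝ) → Prop, Θ = fun J F B pH =>
      ∃ pPf pHf xPf xHf, FaE F c B K (y J) (e₁' J) (a J (ι 0)) (g J (ι 0) 1) (fun S => pH S 1)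
        (fat F c (a J (ι 0)) (k J) (a J (ιf 0)) (kf J) (fun k => g J (ιf k)) pPf pHf xPf xHf) :=
    ⟨_, rfl⟩
  have hΘs : ∀ (J : ℕ) (F : Fam m J) (A B : F.Ω → Prop)
      (pH : LnT F → ℕ → MvPolynomial (Option (Fin m)) ℝ), Sub B A → Θ J F A pH → Θ J F B pH := by
    intro J F A B pH hB h
    rw [hΘ] at h ⊢
    obtain ⟨pPf, pHf, xPf, xHf, h⟩ := h
    exact ⟨pPf, pHf, xPf, xHf, h.sub hB⟩
  have hcls' : Bas S (fun J F A' => ∀ (V : Type) (z : PtT F → V) (z' : LnT F → V)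
        (G : V → MvPolynomial (Option (Fin m)) ℝ), Ψ J F A' V z z' G →
        ∃ (B : F.Ω → Prop) (Gn : ℕ → PtT F → ℕ → MvPolynomial (Option (Fin m)) ℝ)
          (Hn : ℕ → LnT F → ℕ → MvPolynomial (Option (Fin m)) ℝ)
          (pP : PtT F → ℕ → MvPolynomial (Option (Fin m)) ℝ)
          (pH : LnT F → ℕ → MvPolynomial (Option (Fin m)) ℝ) (xP : PtT F → ℝ) (xH : LnT F → ℝ)
          (zP : PtT F → MvPolynomial (Option (Fin m)) ℝ)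
          (zH : LnT F → MvPolynomial (Option (Fin m)) ℝ) (f : ℕ → PtT F → Po)
          (f' : ℕ → LnT F → Po) (kf : LnT F → Po) (gS : ℕ), Sub B A' ∧
          Pe F.p A' ≤ 8 * K₁ * Pe F.p B ∧
          N1L F c D' K₀ b N (a J (ι 0)) (s J) (v J) (y₀ J) (eJ J) (X J) (g₃ J) gS (Lx J)
            (fun k => a J (ι k)) (fun _ => EJ J) (fun k => g J (ι k)) B Gn
            Hn pP pH xP xH (fun y => G (z y)) zP zH f f' kf ∧ Θ J F B pH) := by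
    refine Bas.mono J₀ (hcls.and (hfar hS K hDK (2 * K₁) hε hw)) ?_
    rintro J hJ F A' ⟨hN, hQ⟩ V z z' G hG
    obtain ⟨B, Gn, Hn, pP, pH, xP, xH, zP, zH, f, f', kp, gS, hBA, hPB, hNl, O⟩ := hN V z z' G hG
    obtain ⟨hs₀, L⟩ := hL J hJ
    have FF := hFF J hJ
    obtain ⟨B₁, xPf, xHf, pPf, pHf, hB₁, hPB₁, If, -, hxc, hxn, hgr⟩ := hinc (ι := ιf) (N := Nf)
      (v := vf J) (by norm_num) (by simpa using hc) (nls_up hNl hs₀) hιM L.wa hιR L.aJ L.am L.av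
      L.n0 L.n0' L.n1g L.n1 L.n1'
    have hBA₁ : Sub B₁ A' := fun ω hω => hBA ω (hB₁ ω hω)
    have hPA₁ : Pe F.p A' ≤ 2 * K₁ * Pe F.p B₁ := by
      have := mul_le_mul_of_nonneg_left hPB₁ hK₁.le
      linarith
    obtain ⟨B₂, hB₂, hPB₂, -, FE⟩ := hQ B₁ c N Nf (a J (ι 0)) (k J) (y J) (e₁' J) (s J) (v J)
      (a J (ιf 0)) (kf J) (Cf * (s₁ J + 1)) (vf J) (eJ J) (fun k => a J (ι k))
      (fun _ => EJ J) (fun k => a J (ιf k)) (fun _ => EJ J) (fun k => g J (ι k))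
      (fun k => g J (ιf k)) (fun k => Gn (ι k)) (fun k => Gn (ιf k)) (fun k => Hn (ι k))
      (fun k => Hn (ιf k)) pP pPf pH pHf xPf xHf hBA₁ hPA₁
      (inc_mono (inc_less O.inc hB₁) (le_max_left _ _) le_rfl) O.Ns
      (inc_mono If (le_max_right _ _) le_rfl) (by show Gn _ = Gn _; rw [hιf])
      hxc hxn hgr FF
    have hB₂B : Sub B₂ B := fun ω hω => hB₁ ω (hB₂ ω hω)
    refine ⟨B₂, fun k => Gn (ι k), fun k => Hn (ι k), pP, pH, xP, xH, zP, zH, f, f', kp, gS,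
      fun ω hω => hBA ω (hB₂B ω hω), ?_, N1L.sub' O hB₂B, ?_⟩
    · have := mul_le_mul_of_nonneg_left (show Pe F.p B₁ ≤ 4 * Pe F.p B₂ by linarith)
        (show 0 ≤ 2 * K₁ by positivity)
      linarith
    · rw [hΘ]
      exact ⟨pPf, pHf, xPf, xHf, FE⟩
  refine Bas.mono 0 (hev (K₁ := 8 * K₁) (e₂ := e₂) hK2 hN₁ hS hne hε hw (by positivity) Ψs Ψc hex Θ hΘs hcls'
    hFN hLx hln) ?_
  rintro J - F A' ⟨V, z, z', G, hG, B, hBA, hPB, t, hE, Gn, Hn, pP, pH, zP, zH, f, f', kp, ht, hT⟩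
  rw [hΘ] at hT
  obtain ⟨pPf, pHf, xPf, xHf, FE⟩ := hT
  refine ⟨V, z, z', G, hG, B, hBA, ?_, t, _, hE, ?_, ⟨Gn, Hn, pP, pH, zP, zH, f, f', kp, ht⟩,
    pPf, pHf, xPf, xHf, rfl⟩
  · have e1 : 8 * (8 * K₁) = 64 * K₁ := by ring
    rw [e1] at hPB
    exact hPB
  · rw [ht]
    exact FE

end Pool.VJ77
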