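import Pool.Agent.H77.VJ.Suv
import Pool.Agent.H77.VJ.Vce

/-!
# The class theorem for the event of `VbE`

`vj_void`: `su_void` for the place 3 and the event `VbE`, `VbN` of a static place 3.
-/

set_option autoImplicit false

namespace Pool.VJ77

open Finset Real MvPolynomial
open Pool.Agent.H49.Ent Pool.Agent.H32.Dense Pool.STK Pool.KA Pool.KSAT Pool.K2S Pool.PB Pool.S6C
open Pool.GEN Pool.CHT Pool.RCD Pool.D2F Pool.CHX Pool.D2Con Pool.D2A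
open Pool.STA37
open Pool.STB (V3 Po Bx Hb cv cl_earlier PosR cnt_int cg VbT VbE VbN p2 lg_le ChH)
open Pool.STB65 (InpP InpF PosO JetO nu nu_pos Rs Rs_pos)
open Pool.STB82 (yv hgP Fst WinN cond_pos_B)
open Pool.LA91 (jet ojet qJet qJets qG Mx FulC)
open Pool.RCD (vg)
open Pool.LBT (ThrOf)

variable {m : ℕ}

theorem vtG_suv {J : ℕ} {F : Fam m J} {P : List (Fin m) × Fin m → ℝ → ℝ → ℝ} {c : ℕ → Fin m}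
    {rr n b Cg ne : ℕ} {A τ kr ur η e0 eg : ℝ} {wi ai : ℕ → ℚ} {fi : ℕ → ℝ}
    {sf : ℕ → ℕ → ℝ} {t : VbT F} (h : SuV P c rr n b Cg ne A τ kr ur η e0 eg wi ai fi sf t)
    (Wn : ℕ) {V : Type} (z : PtT F → V) (z' : LnT F → V)
    (G : V → MvPolynomial (Option (Fin m)) ℝ) :
    SuV P c rr n b Cg ne A τ kr ur η e0 eg wi ai fi sf (vtG Wn z z' G t) :=
  ⟨h.kJ, h.yJ, h.H, h.Wi, h.Wa, h.Wf, h.l2, h.l0, h.l1, h.Wg, h.We, h.e12, h.e2y, h.e2J, h.e1J,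
    h.J1, h.sy, h.gcJ, h.pJ, h.gr, h.f0, h.f1⟩

theorem vtG_sug {J : ℕ} {F : Fam m J} {n b Cg : ℕ} {tt aw bb e1 eF : ℝ} {pf : ℕ → ℝ} {pr : ℝ}
    {Nf : ℕ → ℕ → ℝ} {N₂ : ℝ} {Pq : Fin 2 → ℝ} {sn : ℕ → ℝ → ℝ} {sw : ℕ → ℝ} {t : VbT F}
    {f : FaT F} {ρ : ℝ} (h : SuG n b Cg tt aw bb e1 eF pf pr Nf N₂ Pq sn sw t f ρ)
    (Wn : ℕ) {V : Type} (z : PtT F → V) (z' : LnT F → V)
    (G : V → MvPolynomial (Option (Fin m)) ℝ) :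
    SuG n b Cg tt aw bb e1 eF pf pr Nf N₂ Pq sn sw (vtG Wn z z' G t) f ρ :=
  ⟨h.ttJ, h.bbJ, h.bbJ', h.ht, h.fJ, h.f1, h.g1, h.kd, h.kk, h.nk, h.iw, h.ρ0, h.ρ1, h.ρe, h.s,
    h.N00, h.N10, h.N01, h.N11, h.P0, h.P1, h.w0, h.w1, h.q0, h.q1, h.q2, h.r0, h.r1⟩

/-- **The class theorem** for the event of a static place 3. -/
theorem vj_void (m K b : ℕ) (hb : 3 ≤ b) (hbK : b ≤ K + 1) (hK : 1 ≤ K) :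
    ∃ (n : ℕ) (A τ δ : ℝ) (Cg ne : ℕ), 0 < n ∧ 1 ≤ A ∧ 0 < τ ∧ τ ≤ 1 ∧ 0 < δ ∧
    ∀ (N : ℕ) (kr ur : ℝ), 0 < kr → 0 < ur →
    ∀ {θ : ℝ} {S S' : PCl m} (_ : ∀ (τ : ℝ) (J : ℕ) (F : Fam m J) (A : F.Ω → Prop),
        S'.St τ J F A → S.St τ J F A) {P : List (Fin m) × Fin m → ℝ → ℝ → ℝ}
      (_ : ThrOf (chsys m θ) S P) (_ : TmH S) (_ : S'.Ne) (c : ℕ → Fin m)
      (_ : Set.InjOn c (Set.Iio 3)) {η e0 eg wn : ℝ} {wi ai : ℕ → ℚ} {fi : ℕ → ℝ}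
      {sf : ℕ → ℕ → ℝ} {s₁ s₂ : ℕ → ℝ} (_ : 0 < θ) (_ : 0 < η)
      (_ : ∀ i < n, 0 ≤ wi i ∧ wi i ≤ 1 ∧ eg < θ * wi i ∧ bet P c 3 (wi i) (wi i) + η ≤ 1)
      (_ : ∀ i < n, 0 < ai i ∧ ai i ≤ 1 ∧ e0 < θ * ai i ∧ bet P c 0 (ai i) (ai i) + η ≤ 1 ∧
        bet P c 1 (ai i) (ai i) + η ≤ 1)
      (_ : ∀ i < n, fi i ≤ 1) (_ : ∀ i < n, FulC S c 0 2 (fi i) (sf i))
      {tt aw bb e1 eF : ℝ} {pf : ℕ → ℝ} {pr : ℝ} {Nf : ℕ → ℕ → ℝ} {N₂ : ℝ} {Pq : Fin 2 → ℝ}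
      {sn : ℕ → ℝ → ℝ} {sw : ℕ → ℝ} (_ : aw ≤ 1) (_ : FulC S c 0 2 aw sw)
      (_ : ∀ l < 2, ∀ j ≤ 1, Nf l j ≤ 1) (_ : N₂ ≤ 1) (_ : ∀ i, Pq i ≤ 1) {ρF κf : ℝ}
      (_ : 0 ≤ ρF) (_ : ρF ≤ δ * kr) (_ : 0 ≤ κf) (_ : κf ≤ δ * kr)
      (_ : ∃ k₂ : ℝ, 0 < k₂ ∧ ∀ Kf : ℕ, Bas S (fun J F A =>
        ∀ (V : Type) (z : F.Ω → V) (V' : Type) (z' : F.Ω → V'),
        Mx (fun J F => ptr F J) (vg tt) k₂ F A z → Mx (fun J F => ptr F J) (vg aw) k₂ F A z' →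
        ∀ u, (qG m c 2 sn bb Pq).P Kf eF J F A u →
        CH (Pool.Agent.H49.Ent.cond F.p A True) u (fun ω => (z ω, F.W ω)) ≤
          CH (Pool.Agent.H49.Ent.cond F.p A True) u (fun ω => (z' ω, F.W ω)) + κf * J))
      (_ : ∀ (Kf : ℕ) (cF : ℝ), 0 < cF → Bas S' (fun J F A => ∃ (V : Type) (z : F.Ω → V),
        Cl2 (fun ω => ptr F J ω) (slam F ⌊tt * J⌋₊) A z ∧
        ∀ B : F.Ω → Prop, Sub B A → cF * Pe F.p A ≤ Pe F.p B → ∀ u u',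
          (qJets m c 0 2 1 (fun _ _ => tt) (fun l _ => pf l) Nf).P Kf e1 J F B u →
          (qJet m ((range 3).image c) (c 3) 1 tt pr N₂).P Kf e1 J F B u' →
          CH (Pool.Agent.H49.Ent.cond F.p B True) u' (fun ω => (u ω, (z ω, F.T ω))) ≤ ρF * J))
      {c₀ : ℝ} (_ : 0 < c₀)
      (_ : Bas S' (fun J F A' => ∃ B : F.Ω → Prop, Sub B A' ∧ c₀ * Pe F.p A' ≤ Pe F.p B ∧
        ∃ (t : VbT F) (f : FaT F) (ρ : ℝ) (V : Type) (z : PtT F → V) (z' : LnT F → V)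
          (G : V → MvPolynomial (Option (Fin m)) ℝ),
          VbE F c B K n N b ⌊wn * J⌋₊ z z' G t ∧
          FaE F c B K t.y t.e₁' t.W₀ t.g1 t.Pl f ∧
          VbN P c n b Cg ne A τ kr ur η e0 eg wn wi ai fi sf s₁ s₂ t ∧
          SuG n b Cg tt aw bb e1 eF pf pr Nf N₂ Pq sn sw t f ρ)), False := by
  obtain ⟨n, A, τ, δ, Cg, ne, hn, hA, hτ, hτ1, hδ, H⟩ :=
    su_void m K b 3 (by norm_num) le_rfl hb hbK hK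
  refine ⟨n, A, τ, δ, Cg, ne, hn, hA, hτ, hτ1, hδ, ?_⟩
  intro N kr ur hkr hur θ S S' hsub P hP hS hSn c hc η e0 eg wn wi ai fi sf s₁ s₂ hθ hη hwi hai hfi
    hful tt aw bb e1 eF pf pr Nf N₂ Pq sn sw haw hfulw hNf hN₂ hPq ρF κf hρF0 hρF hκf0 hκf hfree
    hF c₀ hc₀ hev
  refine H N kr ur hkr hur hsub hP hS hSn c hc hθ hη hwi hai hfi hful haw hfulw hNf hN₂ hPq hρF0
    hρF hκf0 hκf hfree hF hc₀ (Bas.mono 0 hev ?_)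
  rintro J - F A' ⟨B, hBA, hPB, t, f, ρ, V, z, z', G, hE, hFa, hV, hG⟩
  have h1 := hV.J1 0 hn
  have h2 := hV.Wg
  have h3 := hV.e2y
  exact ⟨B, hBA, hPB, vtG ⌊wn * J⌋₊ z z' G t, f, ρ, suE_of hE hV.Wn (by omega), hFa,
    vtG_suv (suv_of hV) _ z z' G, vtG_sug hG _ z z' G⟩

end Pool.VJ77
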